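import Mathlib

section

open Finset MeasureTheory

set_option linter.unusedSectionVars false

namespace Pool.Agent.Lib.MP_57d9fc_co

/-- `S` is the vertex set of a face of the polytope spanned by the labelled points `p i`:
some linear functional attains its maximum over the points exactly on `S`. -/
def IsFaceSet {ι E : Type*} [AddCommGroup E] [Module ℝ E] (p : ι → E) (S : Set ι) : Prop :=
  ∃ (f : E →ₗ[ℝ] ℝ) (c : ℝ), (∀ i ∈ S, f (p i) = c) ∧ ∀ i ∉ S, f (p i) < c

section hull
variable {ι E : Type*} [Fintype ι] [AddCommGroup E] [Module ℝ E]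

lemma mem_hull_iff (p : ι → E) (S : Set ι) (x : E) :
    x ∈ convexHull ℝ (p '' S) ↔ ∃ w : ι → ℝ, (∀ i, 0 ≤ w i) ∧ (∀ i ∉ S, w i = 0) ∧
      ∑ i, w i = 1 ∧ ∑ i, w i • p i = x := by
  classical
  constructor
  · intro hx
    have hsub : p '' S ⊆ {x | ∃ w : ι → ℝ, (∀ i, 0 ≤ w i) ∧ (∀ i ∉ S, w i = 0) ∧
        ∑ i, w i = 1 ∧ ∑ i, w i • p i = x} := by
      rintro _ ⟨j, hj, rfl⟩
      refine ⟨Pi.single j 1, fun i => ?_, fun i hi => ?_, ?_, ?_⟩
      · by_cases h : i = j
        · subst h; simp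
        · simp [Pi.single_eq_of_ne h]
      · have : i ≠ j := by rintro rfl; exact hi hj
        simp [Pi.single_eq_of_ne this]
      · simp
      · rw [Finset.sum_eq_single j]
        · simp
        · intro b _ hb; simp [Pi.single_eq_of_ne hb]
        · simp
    refine convexHull_min hsub ?_ hx
    rintro a ⟨w, h1, h2, h3, rfl⟩ b ⟨w', h1', h2', h3', rfl⟩ s t hs ht hst
    refine ⟨fun i => s * w i + t * w' i, fun i => ?_, fun i hi => ?_, ?_, ?_⟩
    · have := mul_nonneg hs (h1 i); have := mul_nonneg ht (h1' i); linarith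
    · simp [h2 i hi, h2' i hi]
    · rw [sum_add_distrib, ← mul_sum, ← mul_sum, h3, h3']; linarith
    · simp only [add_smul, mul_smul, sum_add_distrib, ← smul_sum]
  · rintro ⟨w, h1, h2, h3, rfl⟩
    have e1 : ∑ i, w i • p i = ∑ i ∈ univ.filter (· ∈ S), w i • p i := by
      refine (sum_filter_of_ne fun i _ hne => ?_).symm
      by_contra hi
      exact hne (by rw [h2 i hi, zero_smul])
    have e2 : ∑ i, w i = ∑ i ∈ univ.filter (· ∈ S), w i := by
      refine (sum_filter_of_ne fun i _ hne => ?_).symm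
      by_contra hi
      exact hne (h2 i hi)
    rw [e1]
    refine (convex_convexHull ℝ (p '' S)).sum_mem (fun i _ => h1 i) (by rw [← e2, h3]) ?_
    intro i hi
    exact subset_convexHull ℝ _ ⟨i, (mem_filter.1 hi).2, rfl⟩

lemma mem_cone_iff (p : ι → E) (c : E) (S : Set ι) (x : E) :
    x ∈ convexHull ℝ (insert c (p '' S)) ↔ ∃ (μ : ℝ) (w : ι → ℝ), 0 ≤ μ ∧ (∀ i, 0 ≤ w i) ∧
      (∀ i ∉ S, w i = 0) ∧ μ + ∑ i, w i = 1 ∧ μ • c + ∑ i, w i • p i = x := by
  classical
  have key : (insert c (p '' S)) = (fun o : Option ι => o.elim c p) '' {o | o = none ∨ ∃ i ∈ S, o = some i} := by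
    ext z
    constructor
    · rintro (rfl | ⟨i, hi, rfl⟩)
      · exact ⟨none, Or.inl rfl, rfl⟩
      · exact ⟨some i, Or.inr ⟨i, hi, rfl⟩, rfl⟩
    · rintro ⟨o, rfl | ⟨i, hi, rfl⟩, rfl⟩
      · exact Or.inl rfl
      · exact Or.inr ⟨i, hi, rfl⟩
  rw [key, mem_hull_iff]
  constructor
  · rintro ⟨w, h1, h2, h3, rfl⟩
    refine ⟨w none, fun i => w (some i), h1 _, fun i => h1 _, fun i hi => h2 _ ?_, ?_, ?_⟩
    · rintro (h | ⟨j, hj, h⟩)
      · exact Option.some_ne_none _ h
      · rw [Option.some.injEq] at h; subst h; exact hi hj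
    · rw [Fintype.sum_option] at h3; exact h3
    · rw [Fintype.sum_option]; rfl
  · rintro ⟨μ, w, hμ, h1, h2, h3, rfl⟩
    refine ⟨fun o => o.elim μ w, fun o => ?_, fun o ho => ?_, ?_, ?_⟩
    · cases o with
      | none => exact hμ
      | some i => exact h1 i
    · cases o with
      | none => exact absurd (Or.inl rfl) ho
      | some i =>
        refine h2 i fun hi => ho (Or.inr ⟨i, hi, rfl⟩)
    · rw [Fintype.sum_option]; exact h3
    · rw [Fintype.sum_option]; rfl

end hull

section volume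
variable {ι E : Type*} [Fintype ι] [NormedAddCommGroup E] [InnerProductSpace ℝ E]
  [FiniteDimensional ℝ E] [MeasurableSpace E] [BorelSpace E]

/-- centroid of the labelled points -/
noncomputable def centroid' (p : ι → E) : E := (Fintype.card ι : ℝ)⁻¹ • ∑ i, p i

/-- pyramid over a set of labelled points with apex the centroid -/
noncomputable def pyr (p : ι → E) (S : Set ι) : Set E := convexHull ℝ (insert (centroid' p) (p '' S))

omit [FiniteDimensional ℝ E] [MeasurableSpace E] [BorelSpace E] in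
lemma centroid_mem [Nonempty ι] (p : ι → E) : centroid' p ∈ convexHull ℝ (Set.range p) := by
  rw [← Set.image_univ, mem_hull_iff]
  have h : (Fintype.card ι : ℝ) ≠ 0 := by exact_mod_cast Fintype.card_ne_zero
  refine ⟨fun _ => (Fintype.card ι : ℝ)⁻¹, fun i => by positivity, fun i hi => absurd trivial hi, ?_, ?_⟩
  · rw [sum_const, card_univ, nsmul_eq_mul, mul_inv_cancel₀ h]
  · rw [← smul_sum]; rfl

omit [FiniteDimensional ℝ E] [MeasurableSpace E] [BorelSpace E] in
lemma pyr_subset [Nonempty ι] (p : ι → E) (S : Set ι) : pyr p S ⊆ convexHull ℝ (Set.range p) := by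
  refine convexHull_min ?_ (convex_convexHull ℝ _)
  rintro z (rfl | ⟨i, _, rfl⟩)
  · exact centroid_mem p
  · exact subset_convexHull ℝ _ ⟨i, rfl⟩

/-- Small pyramids are negligible. -/
lemma affineSpan_ne_top (p : ι → E) (c : E) (S : Finset ι) (hS : S.card < Module.finrank ℝ E) :
    affineSpan ℝ (insert c (p '' (S : Set ι))) ≠ ⊤ := by
  classical
  intro htop
  have h1 : Module.finrank ℝ (vectorSpan ℝ (insert c (p '' (S : Set ι)))) = Module.finrank ℝ E := by
    rw [← direction_affineSpan, htop, AffineSubspace.direction_top, finrank_top]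
  have e : insert c (p '' (S : Set ι)) =
      (((Finset.insertNone S).image fun o : Option ι => o.elim c p : Finset E) : Set E) := by
    ext z
    simp only [coe_image, Set.mem_image, mem_coe, Finset.mem_insertNone, Set.mem_insert_iff]
    constructor
    · rintro (rfl | ⟨i, hi, rfl⟩)
      · exact ⟨none, by simp, rfl⟩
      · exact ⟨some i, by simpa using hi, rfl⟩
    · rintro ⟨o, ho, rfl⟩
      cases o with
      | none => exact Or.inl rfl
      | some i => exact Or.inr ⟨i, ho i rfl, rfl⟩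
  have h2 : Module.finrank ℝ (vectorSpan ℝ (insert c (p '' (S : Set ι)))) ≤ S.card := by
    rw [e]
    exact finrank_vectorSpan_image_finset_le ℝ _ _ (by rw [Finset.card_insertNone])
  omega

lemma volume_affineSpan_zero (p : ι → E) (c : E) (S : Finset ι)
    (hS : S.card < Module.finrank ℝ E) (μ : Measure E) [μ.IsAddHaarMeasure] :
    μ (affineSpan ℝ (insert c (p '' (S : Set ι))) : Set E) = 0 :=
  Measure.addHaar_affineSubspace μ _ (affineSpan_ne_top p c S hS)

/-- Every point of the polytope lies in a pyramid over a proper face set. -/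
lemma exists_pyr [Nonempty ι] (p : ι → E) (hint : (interior (convexHull ℝ (Set.range p))).Nonempty)
    {x : E} (hx : x ∈ convexHull ℝ (Set.range p)) (hxc' : x ≠ centroid' p) :
    ∃ S : Set ι, IsFaceSet p S ∧ S ≠ Set.univ ∧ x ∈ pyr p S := by
  classical
  set P := convexHull ℝ (Set.range p) with hP
  have hconv : Convex ℝ P := convex_convexHull ℝ _
  have hcomp : IsCompact P := (Set.finite_range p).isCompact_convexHull ℝ
  have hcl : IsClosed P := hcomp.isClosed
  set c := centroid' p with hc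
  have hcP : c ∈ P := centroid_mem p
  -- supporting functional at a boundary point
  have supp : ∀ y ∈ P, y ∉ interior P → ∃ S : Set ι, IsFaceSet p S ∧ S ≠ Set.univ ∧
      y ∈ convexHull ℝ (p '' S) := by
    intro y hy hyi
    obtain ⟨f, hf⟩ := geometric_hahn_banach_open_point hconv.interior isOpen_interior hyi
    have hf' : ∀ a ∈ P, f a ≤ f y := by
      intro a ha
      have h1 : a ∈ closure (interior P) := by
        rw [hconv.closure_interior_eq_closure_of_nonempty_interior hint, hcl.closure_eq]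
        exact ha
      have h2 : closure (interior P) ⊆ {a | f a ≤ f y} := by
        refine closure_minimal (fun a ha => (hf a ha).le) ?_
        exact isClosed_le f.continuous continuous_const
      exact h2 h1
    have hpP : ∀ i, p i ∈ P := fun i => subset_convexHull ℝ _ ⟨i, rfl⟩
    refine ⟨{i | f (p i) = f y}, ⟨f.toLinearMap, f y, fun i hi => hi, fun i hi => ?_⟩, ?_, ?_⟩
    · exact lt_of_le_of_ne (hf' _ (hpP i)) hi
    · intro huniv
      obtain ⟨a, ha⟩ := hint
      have h1 := hf a ha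
      have h2 : a ∈ P := interior_subset ha
      rw [hP, ← Set.image_univ, mem_hull_iff] at h2
      obtain ⟨w, -, -, hw1, rfl⟩ := h2
      have h3 : ∀ i, f (p i) = f y := fun i => by
        have : i ∈ {i | f (p i) = f y} := by rw [huniv]; trivial
        exact this
      rw [map_sum] at h1
      simp only [map_smul, h3, smul_eq_mul, ← sum_mul, hw1, one_mul, lt_self_iff_false] at h1
    · have h2 := hy
      rw [hP, ← Set.image_univ, mem_hull_iff] at h2
      obtain ⟨w, hw0, -, hw1, hwy⟩ := h2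
      rw [mem_hull_iff]
      refine ⟨w, hw0, fun i hi => ?_, hw1, hwy⟩
      have h3 : ∑ i, w i * (f y - f (p i)) = 0 := by
        have : f y = ∑ i, w i * f (p i) := by
          conv_lhs => rw [← hwy]
          rw [map_sum]; simp
        simp only [mul_sub, sum_sub_distrib, ← sum_mul, hw1, one_mul]
        linarith
      rw [sum_eq_zero_iff_of_nonneg fun j _ =>
        mul_nonneg (hw0 j) (sub_nonneg.2 (hf' _ (hpP j)))] at h3
      have h4 := h3 i (mem_univ i)
      rcases mul_eq_zero.1 h4 with h5 | h5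
      · exact h5
      · exact absurd (by show f (p i) = f y; linarith) hi
  · have hxc : x ≠ c := hxc'
    set g : ℝ → E := fun s => c + s • (x - c) with hg
    have hgc : Continuous g := by fun_prop
    set A : Set ℝ := {s | 0 ≤ s ∧ g s ∈ P} with hA
    have hA1 : (1 : ℝ) ∈ A := ⟨zero_le_one, by simp only [hg, one_smul, add_sub_cancel]; exact hx⟩
    have hAcl : IsClosed A := (isClosed_le continuous_const continuous_id).inter (hcl.preimage hgc)
    have hAb : BddAbove A := by
      obtain ⟨R, hR⟩ := hcomp.isBounded.exists_norm_le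
      have hxc' : 0 < ‖x - c‖ := norm_pos_iff.2 (sub_ne_zero.2 hxc)
      refine ⟨(R + ‖c‖) / ‖x - c‖, fun s hs => ?_⟩
      have h1 := hR _ hs.2
      rw [le_div_iff₀ hxc']
      have h2 : ‖s • (x - c)‖ ≤ ‖g s‖ + ‖c‖ := by
        have : s • (x - c) = g s - c := by simp [hg]
        rw [this]; exact norm_sub_le _ _
      rw [norm_smul, Real.norm_eq_abs, abs_of_nonneg hs.1] at h2
      linarith
    set s := sSup A with hs
    have hsA : s ∈ A := hAcl.csSup_mem ⟨1, hA1⟩ hAb
    have hs1 : 1 ≤ s := le_csSup hAb hA1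
    have hyi : g s ∉ interior P := by
      intro hint'
      have : ∀ᶠ t in nhds s, g t ∈ interior P :=
        hgc.continuousAt.eventually (isOpen_interior.mem_nhds hint')
      obtain ⟨ε, hε, hball⟩ := Metric.eventually_nhds_iff.1 this
      have h1 : g (s + ε / 2) ∈ interior P := hball (by
        rw [Real.dist_eq]; simp only [add_sub_cancel_left]; rw [abs_of_pos (by positivity)]
        linarith)
      have h2 : s + ε / 2 ∈ A := ⟨by linarith [hsA.1], interior_subset h1⟩
      have := le_csSup hAb h2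
      linarith
    obtain ⟨S, hS1, hS2, hS3⟩ := supp (g s) hsA.2 hyi
    refine ⟨S, hS1, hS2, ?_⟩
    have hc' : c ∈ pyr p S := subset_convexHull ℝ _ (Set.mem_insert _ _)
    have hy' : g s ∈ pyr p S := convexHull_mono (Set.subset_insert _ _) hS3
    have hconv' : Convex ℝ (pyr p S) := convex_convexHull ℝ _
    have hs0 : 0 < s := by linarith
    have hx' : x = (1 - s⁻¹) • c + s⁻¹ • g s := by
      simp only [hg, smul_add, smul_smul, inv_mul_cancel₀ hs0.ne', one_smul, sub_smul]
      abel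
    rw [hx']
    refine hconv' hc' hy' ?_ (by positivity) (by ring)
    rw [sub_nonneg]; exact inv_le_one_of_one_le₀ hs1

lemma pyr_measurable [Nonempty ι] (p : ι → E) (S : Set ι) : MeasurableSet (pyr p S) := by
  have : (insert (centroid' p) (p '' S)).Finite := (S.toFinite.image p).insert _
  exact (this.isCompact_convexHull ℝ).isClosed.measurableSet

/-- Overlaps of pyramids over two different facets are small. -/
lemma pyr_inter [Nonempty ι] [DecidableEq ι] (p : ι → E) (F F' : Finset ι)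
    (hF : IsFaceSet p (F : Set ι)) (hF' : IsFaceSet p (F' : Set ι)) (hFu : F ≠ univ)
    (hFu' : F' ≠ univ) : pyr p F ∩ pyr p F' ⊆
      (affineSpan ℝ (insert (centroid' p) (p '' ((F ∩ F' : Finset ι) : Set ι))) : Set E) := by
  rintro x ⟨hx, hx'⟩
  unfold pyr at hx hx'
  rw [mem_cone_iff] at hx hx'
  obtain ⟨μ, w, hμ, hw, hwF, hw1, hwx⟩ := hx
  obtain ⟨μ', w', hμ', hw', hwF', hw1', hwx'⟩ := hx'
  set c := centroid' p with hc
  have hn : (0 : ℝ) < Fintype.card ι := by exact_mod_cast Fintype.card_pos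
  -- general comparison
  have comp : ∀ (F F' : Finset ι) (μ μ' : ℝ) (w w' : ι → ℝ), IsFaceSet p (F : Set ι) → F ≠ univ →
      0 ≤ μ' → (∀ i, 0 ≤ w' i) → (∀ i ∉ (F : Set ι), w i = 0) → μ + ∑ i, w i = 1 →
      μ • c + ∑ i, w i • p i = x → μ' + ∑ i, w' i = 1 → μ' • c + ∑ i, w' i • p i = x →
      μ' ≤ μ ∧ (μ' = μ → ∀ i ∉ F, w' i = 0) := by
    intro F F' μ μ' w w' hF hFu hμ' hw' hwF hw1 hwx hw1' hwx'
    obtain ⟨f, c₀, hf1, hf2⟩ := hF
    -- g z = c₀ - f z
    have gc : 0 < c₀ - f c := by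
      have : f c = (Fintype.card ι : ℝ)⁻¹ * ∑ i, f (p i) := by
        rw [hc, centroid', map_smul, map_sum, smul_eq_mul]
      have h2 : ∑ i, f (p i) < ∑ _i : ι, c₀ := by
        obtain ⟨j, hj⟩ : ∃ j, j ∉ F := by
          by_contra hcon
          push Not at hcon
          exact hFu (eq_univ_iff_forall.2 hcon)
        refine sum_lt_sum (fun i _ => ?_) ⟨j, mem_univ _, hf2 j hj⟩
        by_cases hi : i ∈ (F : Set ι)
        · exact (hf1 i hi).le
        · exact (hf2 i hi).le
      rw [sum_const, card_univ, nsmul_eq_mul] at h2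
      rw [this, sub_pos, inv_mul_lt_iff₀ hn]
      exact h2
    have e1 : c₀ - f x = μ * (c₀ - f c) := by
      rw [← hwx, map_add, map_smul, map_sum]
      simp only [map_smul, smul_eq_mul]
      have : ∑ i, w i * f (p i) = ∑ i, w i * c₀ := by
        refine sum_congr rfl fun i _ => ?_
        by_cases hi : i ∈ (F : Set ι)
        · rw [hf1 i hi]
        · rw [hwF i hi]; simp
      rw [this, ← sum_mul]
      have : ∑ i, w i = 1 - μ := by linarith
      rw [this]; ring
    have e2 : c₀ - f x = μ' * (c₀ - f c) + ∑ i, w' i * (c₀ - f (p i)) := by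
      rw [← hwx', map_add, map_smul, map_sum]
      simp only [map_smul, smul_eq_mul, mul_sub, sum_sub_distrib, ← sum_mul]
      have : ∑ i, w' i = 1 - μ' := by linarith
      rw [this]; ring
    have hnn : ∀ i ∈ univ, 0 ≤ w' i * (c₀ - f (p i)) := by
      intro i _
      refine mul_nonneg (hw' i) ?_
      by_cases hi : i ∈ (F : Set ι)
      · rw [hf1 i hi, sub_self]
      · exact (sub_pos.2 (hf2 i hi)).le
    have e3 : 0 ≤ ∑ i, w' i * (c₀ - f (p i)) := sum_nonneg hnn
    have e4 : μ' * (c₀ - f c) ≤ μ * (c₀ - f c) := by linarith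
    refine ⟨le_of_mul_le_mul_right e4 gc, fun heq i hi => ?_⟩
    have e5 : ∑ i, w' i * (c₀ - f (p i)) = 0 := by rw [heq] at e2; linarith
    rw [sum_eq_zero_iff_of_nonneg hnn] at e5
    rcases mul_eq_zero.1 (e5 i (mem_univ i)) with h | h
    · exact h
    · exact absurd h (sub_pos.2 (hf2 i (by simpa using hi))).ne'
  have c1 := comp F F' μ μ' w w' hF hFu hμ' hw' hwF hw1 hwx hw1' hwx'
  have c2 := comp F' F μ' μ w' w hF' hFu' hμ hw hwF' hw1' hwx' hw1 hwx
  have hμμ : μ' = μ := le_antisymm c1.1 c2.1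
  have hz : ∀ i ∉ ((F ∩ F' : Finset ι) : Set ι), w' i = 0 := by
    intro i hi
    simp only [coe_inter, Set.mem_inter_iff, mem_coe, not_and] at hi
    by_cases h : i ∈ F
    · exact hwF' i (hi h)
    · exact c1.2 hμμ i h
  refine convexHull_subset_affineSpan _ ?_
  rw [mem_cone_iff]
  exact ⟨μ', w', hμ', hw', hz, hw1', hwx'⟩

/-- Volume of a simplicial polytope as the sum of the volumes of the pyramids over its facets
with apex the centroid of the vertices. -/
theorem volume_eq_sum [Nonempty ι] [DecidableEq ι] (p : ι → E)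
    (hint : (interior (convexHull ℝ (Set.range p))).Nonempty) (μ : Measure E)
    [μ.IsAddHaarMeasure] (hd : 0 < Module.finrank ℝ E) (𝓕 : Finset (Finset ι))
    (h1 : ∀ F ∈ 𝓕, IsFaceSet p (F : Set ι) ∧ F ≠ univ ∧ F.card = Module.finrank ℝ E)
    (h2 : ∀ S : Finset ι, IsFaceSet p (S : Set ι) → S ≠ univ → Module.finrank ℝ E ≤ S.card →
      S ∈ 𝓕) :
    μ (convexHull ℝ (Set.range p)) = ∑ F ∈ 𝓕, μ (pyr p (F : Set ι)) := by
  have hdisj : ((𝓕 : Set (Finset ι))).Pairwise
      (Function.onFun (AEDisjoint μ) fun F => pyr p (F : Set ι)) := by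
    intro F hF F' hF' hne
    obtain ⟨a1, a2, a3⟩ := h1 F hF
    obtain ⟨b1, b2, b3⟩ := h1 F' hF'
    have hlt : (F ∩ F').card < Module.finrank ℝ E := by
      rw [← a3]
      refine card_lt_card (Finset.ssubset_iff_subset_ne.2 ⟨inter_subset_left, fun heq => hne ?_⟩)
      have hsub : F ⊆ F' := by rw [← heq]; exact inter_subset_right
      exact eq_of_subset_of_card_le hsub (by rw [a3, b3])
    exact measure_mono_null (pyr_inter p F F' a1 b1 a2 b2)
      (volume_affineSpan_zero p _ _ hlt μ)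
  have hmeas : ∀ F ∈ 𝓕, NullMeasurableSet (pyr p (F : Set ι)) μ := fun F _ =>
    (pyr_measurable p _).nullMeasurableSet
  rw [← measure_biUnion_finset₀ hdisj hmeas]
  apply le_antisymm
  · set N : Set E := ⋃ S ∈ (univ : Finset (Finset ι)).filter (fun S => S.card < Module.finrank ℝ E),
      (affineSpan ℝ (insert (centroid' p) (p '' (S : Set ι))) : Set E) with hN
    have hN0 : μ N = 0 := by
      refine (measure_biUnion_null_iff (Finset.countable_toSet _)).2 fun S hS => ?_
      exact volume_affineSpan_zero p _ S (mem_filter.1 hS).2 μ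
    have hsub : convexHull ℝ (Set.range p) ⊆ N ∪ ⋃ F ∈ 𝓕, pyr p (F : Set ι) := by
      intro x hx
      by_cases hxc : x = centroid' p
      · left
        refine Set.mem_biUnion (x := ∅) (mem_coe.2 (mem_filter.2 ⟨mem_univ _, by simpa using hd⟩)) ?_
        rw [hxc]
        exact subset_affineSpan ℝ _ (Set.mem_insert _ _)
      obtain ⟨S, hS1, hS2, hS3⟩ := exists_pyr p hint hx hxc
      classical
      set T : Finset ι := univ.filter (· ∈ S) with hT
      have hTS : (T : Set ι) = S := by ext i; simp [hT]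
      rw [← hTS] at hS1 hS2 hS3
      have hTu : T ≠ univ := by
        rintro h; rw [h] at hS2; simp at hS2
      rcases lt_or_ge T.card (Module.finrank ℝ E) with hlt | hge
      · left
        refine Set.mem_biUnion (x := T) (mem_coe.2 (mem_filter.2 ⟨mem_univ _, hlt⟩)) ?_
        exact convexHull_subset_affineSpan _ hS3
      · right
        exact Set.mem_biUnion (x := T) (h2 T hS1 hTu hge) hS3
    calc μ (convexHull ℝ (Set.range p)) ≤ μ (N ∪ ⋃ F ∈ 𝓕, pyr p (F : Set ι)) := measure_mono hsub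
      _ ≤ μ N + μ (⋃ F ∈ 𝓕, pyr p (F : Set ι)) := measure_union_le _ _
      _ = _ := by rw [hN0, zero_add]
  · exact measure_mono (Set.iUnion₂_subset fun F _ => pyr_subset p _)

end volume

end Pool.Agent.Lib.MP_57d9fc_co
end

section

section

open Finset

namespace Pool.Agent.Lib.MP_57d9fc_co

/-- `exp (2 π i k / n)` -/
noncomputable def om (n : ℕ) (k : ℤ) : ℂ := Complex.exp (((2 * Real.pi * k / n : ℝ) : ℂ) * Complex.I)

lemma om_add (n : ℕ) (a b : ℤ) : om n (a + b) = om n a * om n b := by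
  unfold om
  rw [← Complex.exp_add]
  congr 1
  push_cast
  ring

lemma om_zero (n : ℕ) : om n 0 = 1 := by simp [om]

lemma om_neg (n : ℕ) (a : ℤ) : om n (-a) = (starRingEnd ℂ) (om n a) := by
  unfold om
  rw [← Complex.exp_conj]
  congr 1
  rw [map_mul, Complex.conj_ofReal, Complex.conj_I]
  push_cast
  ring

lemma normSq_om (n : ℕ) (a : ℤ) : Complex.normSq (om n a) = 1 := by
  unfold om
  rw [Complex.normSq_eq_norm_sq, Complex.norm_exp_ofReal_mul_I]; norm_num

lemma om_re (n : ℕ) (a : ℤ) : (om n a).re = Real.cos (2 * Real.pi * a / n) := by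
  unfold om
  rw [Complex.exp_ofReal_mul_I_re]

lemma om_im (n : ℕ) (a : ℤ) : (om n a).im = Real.sin (2 * Real.pi * a / n) := by
  unfold om
  rw [Complex.exp_ofReal_mul_I_im]

lemma om_mul_nat (n : ℕ) (a : ℤ) (r : ℕ) : om n (a * r) = om n a ^ r := by
  unfold om
  rw [← Complex.exp_nat_mul]
  congr 1
  push_cast
  ring

/-- Orthogonality of characters. -/
lemma sum_om {n : ℕ} (hn : 0 < n) {k : ℤ} (hk : |k| < n) :
    ∑ r ∈ range n, om n (k * r) = if k = 0 then (n : ℂ) else 0 := by
  split_ifs with h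
  · subst h; simp [om_zero]
  · simp only [om_mul_nat]
    have hz : om n k ^ n = 1 := by
      rw [← om_mul_nat]
      unfold om
      rw [Complex.exp_eq_one_iff]
      refine ⟨k, ?_⟩
      have : (n : ℂ) ≠ 0 := by exact_mod_cast hn.ne'
      push_cast
      field_simp
    have hne : om n k ≠ 1 := by
      intro h1
      unfold om at h1
      rw [Complex.exp_eq_one_iff] at h1
      obtain ⟨m, hm⟩ := h1
      have hn0 : (n : ℂ) ≠ 0 := by exact_mod_cast hn.ne'
      have h2 : (k : ℂ) = n * m := by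
        have h3 : (2 * (Real.pi : ℂ) * Complex.I) ≠ 0 := Complex.two_pi_I_ne_zero
        push_cast at hm
        field_simp at hm
        linear_combination hm
      have h3 : k = n * m := by exact_mod_cast h2
      rcases eq_or_ne m 0 with h4 | h4
      · rw [h4, mul_zero] at h3; exact h h3
      · have h5 : (1 : ℤ) ≤ |m| := Int.one_le_abs h4
        rw [h3, abs_mul, Nat.abs_cast] at hk
        nlinarith
    have := geom_sum_mul (om n k) n
    rw [hz, sub_self] at this
    rcases mul_eq_zero.1 this with h1 | h1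
    · exact h1
    · exact absurd (sub_eq_zero.1 h1) hne

/-- discrete Fourier coefficient -/
noncomputable def ft {n : ℕ} (z : Fin n → ℂ) (r : ℤ) : ℂ := ∑ x : Fin n, z x * om n (-(r * x))

lemma fin_sub_lt {n : ℕ} (x y : Fin n) : |((x : ℕ) : ℤ) - ((y : ℕ) : ℤ)| < n := by
  have hx := x.isLt
  have hy := y.isLt
  rw [abs_lt]; constructor <;> omega

/-- Parseval. -/
lemma parseval {n : ℕ} (hn : 0 < n) (z : Fin n → ℂ) :
    ∑ r ∈ range n, Complex.normSq (ft z r) = n * ∑ x, Complex.normSq (z x) := by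
  have h : ∀ r : ℕ, (Complex.normSq (ft z r) : ℂ) =
      ∑ x : Fin n, ∑ y : Fin n, z x * (starRingEnd ℂ) (z y) *
        om n ((((y : ℕ) : ℤ) - ((x : ℕ) : ℤ)) * r) := by
    intro r
    rw [Complex.normSq_eq_conj_mul_self, mul_comm]
    unfold ft
    rw [map_sum, sum_mul_sum]
    refine sum_congr rfl fun x _ => sum_congr rfl fun y _ => ?_
    rw [map_mul, ← om_neg, neg_neg]
    have : om n ((((y : ℕ) : ℤ) - ((x : ℕ) : ℤ)) * r) = om n (-((r : ℤ) * x)) * om n ((r : ℤ) * y) := by
      rw [← om_add]; congr 1; push_cast; ring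
    rw [this]; ring
  have h2 : ((∑ r ∈ range n, Complex.normSq (ft z r) : ℝ) : ℂ) =
      ((n * ∑ x, Complex.normSq (z x) : ℝ) : ℂ) := by
    rw [Complex.ofReal_sum]
    simp only [h]
    rw [sum_comm]
    have h3 : ∀ x : Fin n, ∑ r ∈ range n, ∑ y : Fin n, z x * (starRingEnd ℂ) (z y) *
        om n ((((y : ℕ) : ℤ) - ((x : ℕ) : ℤ)) * r) = n * Complex.normSq (z x) := by
      intro x
      rw [sum_comm]
      simp only [← mul_sum]
      rw [sum_eq_single x]
      · rw [sum_om hn (fin_sub_lt _ _), if_pos (by ring), Complex.mul_conj]; ring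
      · intro y _ hy
        rw [sum_om hn (fin_sub_lt _ _), if_neg, mul_zero]
        intro h0
        apply hy
        exact Fin.ext (by omega)
      · intro h0; exact absurd (mem_univ x) h0
    rw [sum_congr rfl fun x _ => h3 x, ← mul_sum]
    push_cast; rfl
  exact_mod_cast h2

/-- Inversion. -/
lemma inversion {n : ℕ} (hn : 0 < n) (z : Fin n → ℂ) (y : Fin n) :
    ∑ r ∈ range n, ft z r * om n ((r : ℤ) * y) = n * z y := by
  unfold ft
  simp only [sum_mul]
  rw [sum_comm]
  rw [sum_eq_single y]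
  · have : ∀ r ∈ range n, z y * om n (-((r : ℤ) * y)) * om n ((r : ℤ) * y) = z y := by
      intro r _
      rw [mul_assoc, ← om_add, neg_add_cancel, om_zero, mul_one]
    rw [sum_congr rfl this, sum_const, card_range, nsmul_eq_mul]
  · intro x _ hx
    have : ∀ r ∈ range n, z x * om n (-((r : ℤ) * x)) * om n ((r : ℤ) * y) =
        z x * om n ((((y : ℕ) : ℤ) - ((x : ℕ) : ℤ)) * r) := by
      intro r _
      rw [mul_assoc, ← om_add]; congr 2; push_cast; ring
    rw [sum_congr rfl this, ← mul_sum, sum_om hn (fin_sub_lt _ _), if_neg, mul_zero]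
    intro h0
    apply hx
    exact Fin.ext (by omega)
  · intro h0; exact absurd (mem_univ y) h0

end Pool.Agent.Lib.MP_57d9fc_co
end

section

open Finset

namespace Pool.Agent.Lib.MP_57d9fc_co

/-- the kernel -/
noncomputable def mk (n s : ℕ) : ℝ := if Odd s then ((n : ℝ) - s) / 2 else -((s : ℝ) / 2)

/-- the multiplier -/
noncomputable def cr (n r : ℕ) : ℝ := 1 / (2 * Real.sin (2 * Real.pi * r / n))

lemma sin_ne_zero {n r : ℕ} (hn : Odd n) (h1 : 1 ≤ r) (h2 : r < n) :
    Real.sin (2 * Real.pi * r / n) ≠ 0 := by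
  intro h
  rw [Real.sin_eq_zero_iff] at h
  obtain ⟨m, hm⟩ := h
  have hn0 : (n : ℝ) ≠ 0 := by exact_mod_cast (by omega : n ≠ 0)
  have hpi := Real.pi_ne_zero
  have h3 : (m : ℝ) * n = 2 * r := by
    field_simp at hm
    linarith
  have h4 : m * n = 2 * r := by exact_mod_cast h3
  have hm0 : 0 < m := by
    by_contra hcon
    push Not at hcon
    have : m * n ≤ 0 := mul_nonpos_of_nonpos_of_nonneg hcon (by positivity)
    omega
  have hm2 : m < 2 := by
    by_contra hcon
    push Not at hcon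
    have : 2 * (n : ℤ) ≤ m * n := mul_le_mul_of_nonneg_right hcon (by positivity)
    omega
  have hm1 : m = 1 := by omega
  rw [hm1, one_mul] at h4
  obtain ⟨k, hk⟩ := hn
  omega

/-- Dirichlet-type kernel. -/
lemma two_sin_mul_sum (θ : ℝ) (s : ℕ) :
    Real.sin θ * ∑ j ∈ range s, Real.cos (((s : ℝ) - 1 - 2 * j) * θ) = Real.sin (s * θ) := by
  have h : ∀ j : ℕ, 2 * (Real.sin θ * Real.cos (((s : ℝ) - 1 - 2 * j) * θ)) =
      Real.sin (((s : ℝ) - 2 * j) * θ) - Real.sin (((s : ℝ) - 2 * ((j + 1 : ℕ) : ℝ)) * θ) := by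
    intro j
    have e1 : ((s : ℝ) - 2 * j) * θ = ((s : ℝ) - 1 - 2 * j) * θ + θ := by ring
    have e2 : ((s : ℝ) - 2 * ((j + 1 : ℕ) : ℝ)) * θ = ((s : ℝ) - 1 - 2 * j) * θ - θ := by
      push_cast; ring
    rw [e1, e2, Real.sin_add, Real.sin_sub]; ring
  have h2 : 2 * (Real.sin θ * ∑ j ∈ range s, Real.cos (((s : ℝ) - 1 - 2 * j) * θ)) =
      2 * Real.sin (s * θ) := by
    rw [mul_sum, mul_sum]
    simp only [h]
    rw [sum_range_sub']
    have e3 : ((s : ℝ) - 2 * (0 : ℕ)) * θ = s * θ := by push_cast; ring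
    have e4 : ((s : ℝ) - 2 * (s : ℕ)) * θ = -(s * θ) := by ring
    rw [e3, e4, Real.sin_neg]; ring
  linarith

lemma sum_cos {n : ℕ} (hn : 0 < n) {k : ℤ} (hk : |k| < n) :
    ∑ r ∈ range n, Real.cos (2 * Real.pi * (k * r) / n) = if k = 0 then (n : ℝ) else 0 := by
  have h := congrArg Complex.re (sum_om hn hk)
  rw [Complex.re_sum] at h
  have : ∀ r ∈ range n, (om n (k * r)).re = Real.cos (2 * Real.pi * (k * r) / n) := by
    intro r _
    rw [om_re]; push_cast; ring_nf
  rw [sum_congr rfl this] at h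
  rw [h]
  split_ifs <;> simp

lemma kernel_eq {n s : ℕ} (hn : Odd n) (h1 : 1 ≤ s) (h2 : s < n) :
    ∑ r ∈ Ico 1 n, cr n r * Real.sin (2 * Real.pi * (s * r) / n) = mk n s := by
  have hn0 : 0 < n := by omega
  have hterm : ∀ r ∈ Ico 1 n, cr n r * Real.sin (2 * Real.pi * (s * r) / n) =
      (∑ j ∈ range s, Real.cos (2 * Real.pi * ((((s : ℤ) - 1 - 2 * j : ℤ) : ℝ) * r) / n)) / 2 := by
    intro r hr
    obtain ⟨hr1, hr2⟩ := mem_Ico.1 hr
    have hs := sin_ne_zero hn hr1 hr2
    have hk := two_sin_mul_sum (2 * Real.pi * r / n) s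
    have e1 : (s : ℝ) * (2 * Real.pi * r / n) = 2 * Real.pi * (s * r) / n := by ring
    have e2 : ∀ j ∈ range s, Real.cos (((s : ℝ) - 1 - 2 * j) * (2 * Real.pi * r / n)) =
        Real.cos (2 * Real.pi * ((((s : ℤ) - 1 - 2 * j : ℤ) : ℝ) * r) / n) := by
      intro j _
      congr 1
      push_cast
      ring
    rw [e1, sum_congr rfl e2] at hk
    rw [← hk, cr]
    field_simp
  rw [sum_congr rfl hterm, ← sum_div, sum_comm]
  have hj : ∀ j ∈ range s, ∑ r ∈ Ico 1 n, Real.cos (2 * Real.pi * ((((s : ℤ) - 1 - 2 * j : ℤ) : ℝ) * r) / n) =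
      (if (s : ℤ) - 1 - 2 * j = 0 then (n : ℝ) else 0) - 1 := by
    intro j hj
    have hj' := mem_range.1 hj
    have h3 := sum_cos hn0 (k := (s : ℤ) - 1 - 2 * j) (by rw [abs_lt]; constructor <;> omega)
    rw [range_eq_Ico, sum_eq_sum_Ico_succ_bot hn0] at h3
    have h4 : Real.cos (2 * Real.pi * ((((s : ℤ) - 1 - 2 * j : ℤ) : ℝ) * ((0 : ℕ) : ℝ)) / n) = 1 := by
      simp
    rw [h4] at h3
    linarith
  rw [sum_congr rfl hj, sum_sub_distrib, sum_const, card_range, nsmul_eq_mul, mul_one]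
  unfold mk
  split_ifs with hodd
  · obtain ⟨t, ht⟩ := hodd
    have : ∑ j ∈ range s, (if (s : ℤ) - 1 - 2 * j = 0 then (n : ℝ) else 0) = n := by
      rw [sum_eq_single t]
      · rw [if_pos (by omega)]
      · intro j _ hj
        rw [if_neg (by omega)]
      · intro ht'
        exact absurd (mem_range.2 (by omega)) ht'
    rw [this]
  · have : ∑ j ∈ range s, (if (s : ℤ) - 1 - 2 * j = 0 then (n : ℝ) else 0) = 0 := by
      refine sum_eq_zero fun j _ => if_neg fun h => hodd ⟨j, by omega⟩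
    rw [this]; ring

/-- planar determinant of two complex numbers -/
def dc (z w : ℂ) : ℝ := z.re * w.im - z.im * w.re

lemma ft_re {n : ℕ} (z : Fin n → ℂ) (r : ℤ) : (ft z r).re =
    ∑ x : Fin n, ((z x).re * Real.cos (2 * Real.pi * (r * x) / n) +
      (z x).im * Real.sin (2 * Real.pi * (r * x) / n)) := by
  unfold ft
  rw [Complex.re_sum]
  refine sum_congr rfl fun x _ => ?_
  rw [Complex.mul_re, om_re, om_im]
  have e : 2 * Real.pi * ((-(r * ((x : ℕ) : ℤ)) : ℤ) : ℝ) / n = -(2 * Real.pi * (r * ((x : ℕ) : ℝ)) / n) := by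
    push_cast; ring
  rw [e, Real.cos_neg, Real.sin_neg]; ring

lemma ft_im {n : ℕ} (z : Fin n → ℂ) (r : ℤ) : (ft z r).im =
    ∑ x : Fin n, ((z x).im * Real.cos (2 * Real.pi * (r * x) / n) -
      (z x).re * Real.sin (2 * Real.pi * (r * x) / n)) := by
  unfold ft
  rw [Complex.im_sum]
  refine sum_congr rfl fun x _ => ?_
  rw [Complex.mul_im, om_re, om_im]
  have e : 2 * Real.pi * ((-(r * ((x : ℕ) : ℤ)) : ℤ) : ℝ) / n = -(2 * Real.pi * (r * ((x : ℕ) : ℝ)) / n) := by
    push_cast; ring
  rw [e, Real.cos_neg, Real.sin_neg]; ring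

/-- Polarisation. -/
lemma normSq_sub {n : ℕ} (z : Fin n → ℂ) (r : ℤ) :
    Complex.normSq (ft z r) - Complex.normSq (ft z (-r)) =
      2 * ∑ x : Fin n, ∑ y : Fin n, Real.sin (2 * Real.pi * (r * (((y : ℕ) : ℝ) - ((x : ℕ) : ℝ))) / n) *
        dc (z x) (z y) := by
  rw [Complex.normSq_apply, Complex.normSq_apply, ft_re, ft_im, ft_re, ft_im]
  have e : ∀ x : Fin n, 2 * Real.pi * (((-r : ℤ) : ℝ) * ((x : ℕ) : ℝ)) / n = -(2 * Real.pi * (r * ((x : ℕ) : ℝ)) / n) := by
    intro x; push_cast; ring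
  simp only [e, Real.cos_neg, Real.sin_neg]
  set C : Fin n → ℝ := fun x => Real.cos (2 * Real.pi * (r * ((x : ℕ) : ℝ)) / n) with hC
  set S : Fin n → ℝ := fun x => Real.sin (2 * Real.pi * (r * ((x : ℕ) : ℝ)) / n) with hS
  have e2 : ∀ x y : Fin n, Real.sin (2 * Real.pi * (r * (((y : ℕ) : ℝ) - ((x : ℕ) : ℝ))) / n) =
      S y * C x - C y * S x := by
    intro x y
    have : 2 * Real.pi * (r * (((y : ℕ) : ℝ) - ((x : ℕ) : ℝ))) / n =
        2 * Real.pi * (r * ((y : ℕ) : ℝ)) / n - 2 * Real.pi * (r * ((x : ℕ) : ℝ)) / n := by ring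
    rw [this, Real.sin_sub]
  simp only [e2]
  have h1 : ∑ x : Fin n, ∑ y : Fin n, (S y * C x - C y * S x) * dc (z x) (z y) =
      2 * ((∑ x, (z x).re * C x) * (∑ y, (z y).im * S y) -
        (∑ x, (z x).im * C x) * (∑ y, (z y).re * S y)) := by
    have h2 : ∑ x : Fin n, ∑ y : Fin n, (S y * C x - C y * S x) * dc (z x) (z y) =
        ∑ x : Fin n, ∑ y : Fin n, (((z x).re * C x) * ((z y).im * S y) -
          ((z x).im * C x) * ((z y).re * S y)) +
        ∑ x : Fin n, ∑ y : Fin n, (((z y).re * C y) * ((z x).im * S x) -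
          ((z y).im * C y) * ((z x).re * S x)) := by
      rw [← sum_add_distrib]
      refine sum_congr rfl fun x _ => ?_
      rw [← sum_add_distrib]
      refine sum_congr rfl fun y _ => ?_
      simp only [dc]; ring
    rw [h2, sum_comm (f := fun x y => (((z y).re * C y) * ((z x).im * S x) -
          ((z y).im * C y) * ((z x).re * S x)))]
    simp only [sum_sub_distrib, ← mul_sum, ← sum_mul]
    ring
  rw [h1]
  simp only [sum_add_distrib, sum_sub_distrib, mul_neg, sum_neg_distrib]
  change (∑ x, (z x).re * C x + ∑ x, (z x).im * S x) * (∑ x, (z x).re * C x + ∑ x, (z x).im * S x) +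
    (∑ x, (z x).im * C x - ∑ x, (z x).re * S x) * (∑ x, (z x).im * C x - ∑ x, (z x).re * S x) -
    ((∑ x, (z x).re * C x + -∑ x, (z x).im * S x) * (∑ x, (z x).re * C x + -∑ x, (z x).im * S x) +
    (∑ x, (z x).im * C x - -∑ x, (z x).re * S x) * (∑ x, (z x).im * C x - -∑ x, (z x).re * S x)) = _
  ring

end Pool.Agent.Lib.MP_57d9fc_co
end

section

open Finset

namespace Pool.Agent.Lib.MP_57d9fc_co

/-- The quadratic form. -/
noncomputable def TT {n : ℕ} (z : Fin n → ℂ) : ℝ :=
  ∑ x : Fin n, ∑ y : Fin n, if x < y then mk n ((y : ℕ) - (x : ℕ)) * dc (z x) (z y) else 0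

lemma dc_symm (z w : ℂ) : dc w z = - dc z w := by simp only [dc]; ring

lemma half_sum {n : ℕ} (z : Fin n → ℂ) (r : ℤ) :
    ∑ x : Fin n, ∑ y : Fin n, (if x < y then
      Real.sin (2 * Real.pi * (r * (((y : ℕ) : ℝ) - ((x : ℕ) : ℝ))) / n) * dc (z x) (z y) else 0) =
    (Complex.normSq (ft z r) - Complex.normSq (ft z (-r))) / 4 := by
  rw [normSq_sub]
  set f : Fin n → Fin n → ℝ := fun x y =>
    Real.sin (2 * Real.pi * (r * (((y : ℕ) : ℝ) - ((x : ℕ) : ℝ))) / n) * dc (z x) (z y) with hf
  have hsymm : ∀ x y, f x y = f y x := by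
    intro x y
    simp only [hf]
    rw [dc_symm (z x) (z y)]
    have : 2 * Real.pi * (r * (((x : ℕ) : ℝ) - ((y : ℕ) : ℝ))) / n =
      -(2 * Real.pi * (r * (((y : ℕ) : ℝ) - ((x : ℕ) : ℝ))) / n) := by ring
    rw [this, Real.sin_neg]; ring
  have hdiag : ∀ x, f x x = 0 := by intro x; simp [hf]
  have h1 : ∑ x : Fin n, ∑ y : Fin n, f x y = 2 * ∑ x : Fin n, ∑ y : Fin n, (if x < y then f x y else 0) := by
    have h2 : ∀ x y : Fin n, f x y = (if x < y then f x y else 0) + (if y < x then f y x else 0) := by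
      intro x y
      rcases lt_trichotomy x y with h | h | h
      · rw [if_pos h, if_neg (not_lt.2 h.le), add_zero]
      · subst h; simp [hdiag]
      · rw [if_neg (not_lt.2 h.le), if_pos h, zero_add, hsymm]
    have h3 : ∑ x : Fin n, ∑ y : Fin n, f x y =
        ∑ x : Fin n, ∑ y : Fin n, (if x < y then f x y else 0) +
        ∑ x : Fin n, ∑ y : Fin n, (if y < x then f y x else 0) := by
      rw [← sum_add_distrib]
      refine sum_congr rfl fun x _ => ?_
      rw [← sum_add_distrib]
      exact sum_congr rfl fun y _ => h2 x y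
    rw [h3, sum_comm (f := fun x y => if y < x then f y x else 0)]
    ring
  change ∑ x : Fin n, ∑ y : Fin n, (if x < y then f x y else 0) = 2 * (∑ x : Fin n, ∑ y : Fin n, f x y) / 4
  rw [h1]; ring

lemma ft_reflect {n r : ℕ} (hn : 0 < n) (h2 : r ≤ n) (z : Fin n → ℂ) :
    ft z (-(r : ℤ)) = ft z ((n - r : ℕ) : ℤ) := by
  unfold ft
  refine sum_congr rfl fun x _ => ?_
  congr 1
  have h : om n (-((n : ℤ) * x)) = 1 := by
    unfold om
    rw [Complex.exp_eq_one_iff]
    refine ⟨-(x : ℕ), ?_⟩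
    have : (n : ℂ) ≠ 0 := by exact_mod_cast hn.ne'
    push_cast
    field_simp
  have e : -(((n - r : ℕ) : ℤ) * ((x : ℕ) : ℤ)) = -(-(r : ℤ) * ((x : ℕ) : ℤ)) + -((n : ℤ) * x) := by
    push_cast [Nat.cast_sub h2]; ring
  rw [e, om_add, h, mul_one]

lemma cr_reflect {n r : ℕ} (hn : 0 < n) (h2 : r ≤ n) : cr n (n - r) = - cr n r := by
  unfold cr
  have hn0 : (n : ℝ) ≠ 0 := by exact_mod_cast hn.ne'
  have e : 2 * Real.pi * ((n - r : ℕ) : ℝ) / n = 2 * Real.pi - 2 * Real.pi * r / n := by
    rw [Nat.cast_sub h2]; field_simp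
  rw [e, Real.sin_two_pi_sub]
  rw [mul_neg, one_div, one_div, inv_neg]

/-- Diagonalisation of the quadratic form. -/
lemma TT_eq {n : ℕ} (hn : Odd n) (z : Fin n → ℂ) :
    TT z = (∑ r ∈ Ico 1 n, cr n r * Complex.normSq (ft z r)) / 2 := by
  have hn0 : 0 < n := hn.pos
  have h1 : TT z = ∑ r ∈ Ico 1 n, cr n r *
      ((Complex.normSq (ft z r) - Complex.normSq (ft z (-(r : ℤ)))) / 4) := by
    have h2 : ∀ r ∈ Ico 1 n, cr n r *
        ((Complex.normSq (ft z r) - Complex.normSq (ft z (-(r : ℤ)))) / 4) =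
        ∑ x : Fin n, ∑ y : Fin n, (if x < y then
          cr n r * Real.sin (2 * Real.pi * (r * (((y : ℕ) : ℝ) - ((x : ℕ) : ℝ))) / n) *
            dc (z x) (z y) else 0) := by
      intro r _
      have := half_sum z r
      push_cast at this ⊢
      rw [← this, mul_sum]
      refine sum_congr rfl fun x _ => ?_
      rw [mul_sum]
      refine sum_congr rfl fun y _ => ?_
      split_ifs
      · ring
      · ring
    rw [sum_congr rfl h2, sum_comm]
    unfold TT
    refine sum_congr rfl fun x _ => ?_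
    rw [sum_comm]
    refine sum_congr rfl fun y _ => ?_
    split_ifs with hxy
    · have hxy' : (x : ℕ) < (y : ℕ) := hxy
      rw [← sum_mul, ← kernel_eq hn (s := (y : ℕ) - (x : ℕ)) (by omega) (by have := y.isLt; omega)]
      congr 1
      refine sum_congr rfl fun r _ => ?_
      rw [Nat.cast_sub hxy'.le]
      congr 2
      ring
    · simp
  have h3 : ∑ r ∈ Ico 1 n, cr n r * Complex.normSq (ft z (-(r : ℤ))) =
      - ∑ r ∈ Ico 1 n, cr n r * Complex.normSq (ft z r) := by
    have h4 := sum_Ico_reflect (fun r : ℕ => cr n r * Complex.normSq (ft z r)) 1 (m := n) (n := n)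
      (by omega)
    have e1 : n + 1 - n = 1 := by omega
    have e2 : n + 1 - 1 = n := by omega
    rw [e1, e2] at h4
    rw [← h4, ← sum_neg_distrib]
    refine sum_congr rfl fun r hr => ?_
    obtain ⟨hr1, hr2⟩ := mem_Ico.1 hr
    rw [cr_reflect hn0 hr2.le, ft_reflect hn0 hr2.le]
    ring
  rw [h1]
  have h5 : ∀ r ∈ Ico 1 n, cr n r *
      ((Complex.normSq (ft z r) - Complex.normSq (ft z (-(r : ℤ)))) / 4) =
      (cr n r * Complex.normSq (ft z r)) / 4 - (cr n r * Complex.normSq (ft z (-(r : ℤ)))) / 4 := by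
    intro r _; ring
  rw [sum_congr rfl h5, sum_sub_distrib, ← sum_div, ← sum_div, h3]
  ring

/-- Bound of the multiplier. -/
lemma cr_le {n r : ℕ} (hn : Odd n) (h1 : 1 ≤ r) (h2 : r < n) :
    cr n r ≤ 1 / (2 * Real.sin (Real.pi / n)) ∧
    (2 * r + 1 ≠ n → cr n r < 1 / (2 * Real.sin (Real.pi / n))) ∧
    (2 * r + 1 = n → cr n r = 1 / (2 * Real.sin (Real.pi / n))) := by
  have hn3 : 3 ≤ n := by obtain ⟨k, hk⟩ := hn; omega
  have hnr : (3 : ℝ) ≤ n := by exact_mod_cast hn3
  have hn0 : (0 : ℝ) < n := by linarith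
  have hpi := Real.pi_pos
  have hsp : 0 < Real.sin (Real.pi / n) := by
    refine Real.sin_pos_of_pos_of_lt_pi (by positivity) ?_
    rw [div_lt_iff₀ hn0]; nlinarith
  have heq : 2 * r + 1 = n → cr n r = 1 / (2 * Real.sin (Real.pi / n)) := by
    intro h
    unfold cr
    have e : 2 * Real.pi * r / n = Real.pi - Real.pi / n := by
      have : (n : ℝ) = 2 * r + 1 := by exact_mod_cast h.symm
      field_simp
      rw [this]; ring
    rw [e, Real.sin_pi_sub]
  have hlt : 2 * r + 1 ≠ n → cr n r < 1 / (2 * Real.sin (Real.pi / n)) := by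
    intro hne
    by_cases hbig : n < 2 * r
    · -- negative multiplier
      have hs : Real.sin (2 * Real.pi * r / n) < 0 := by
        have e : 2 * Real.pi * r / n = (2 * Real.pi * r / n - 2 * Real.pi) + 2 * Real.pi := by ring
        rw [e, Real.sin_add_two_pi]
        refine Real.sin_neg_of_neg_of_neg_pi_lt ?_ ?_
        · have : (r : ℝ) < n := by exact_mod_cast h2
          rw [sub_neg, div_lt_iff₀ hn0]; nlinarith
        · have : (n : ℝ) < 2 * r := by exact_mod_cast hbig
          have h3 : Real.pi < 2 * Real.pi * r / n := by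
            rw [lt_div_iff₀ hn0]; nlinarith
          linarith
      have h4 : cr n r < 0 := by
        unfold cr
        exact div_neg_of_pos_of_neg one_pos (by linarith)
      have h5 : 0 < 1 / (2 * Real.sin (Real.pi / n)) := by positivity
      linarith
    · have h2r : 2 * r + 3 ≤ n := by obtain ⟨k, hk⟩ := hn; omega
      have hr2 : (2 * r + 3 : ℝ) ≤ n := by exact_mod_cast h2r
      have hr1 : (1 : ℝ) ≤ r := by exact_mod_cast h1
      have hs : Real.sin (Real.pi / n) < Real.sin (2 * Real.pi * r / n) := by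
        rcases le_or_gt (2 * Real.pi * r / n) (Real.pi / 2) with hc | hc
        · refine Real.sin_lt_sin_of_lt_of_le_pi_div_two ?_ hc ?_
          · have : 0 < Real.pi / n := by positivity
            linarith
          · rw [div_lt_div_iff_of_pos_right hn0]; nlinarith
        · rw [← Real.sin_pi_sub (2 * Real.pi * r / n)]
          refine Real.sin_lt_sin_of_lt_of_le_pi_div_two ?_ ?_ ?_
          · have : 0 < Real.pi / n := by positivity
            linarith
          · linarith
          · have h6 : Real.pi / n + 2 * Real.pi * r / n < Real.pi := by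
              rw [← add_div, div_lt_iff₀ hn0]; nlinarith
            linarith
      unfold cr
      exact one_div_lt_one_div_of_lt (by positivity) (by linarith)
  refine ⟨?_, hlt, heq⟩
  by_cases h : 2 * r + 1 = n
  · exact (heq h).le
  · exact (hlt h).le

end Pool.Agent.Lib.MP_57d9fc_co
end
end
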