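import Mathlib
import Pool.Agent.Lib.MP_57d9fc_co.Spectral

open Finset

namespace Pool.Agent.Lib.MP_57d9fc_co

lemma isFaceSet_empty {ι E : Type*} [AddCommGroup E] [Module ℝ E] (p : ι → E) : IsFaceSet p ∅ :=
  ⟨0, 1, by simp, by simp⟩

set_option linter.unusedSectionVars false

section faces
variable {ι E : Type*} [Fintype ι] [NormedAddCommGroup E] [InnerProductSpace ℝ E]
  [FiniteDimensional ℝ E]


lemma le_of_mem_hull {p : ι → E} {f : E →ₗ[ℝ] ℝ} {c : ℝ} (h : ∀ i, f (p i) ≤ c) {x : E}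
    (hx : x ∈ convexHull ℝ (Set.range p)) : f x ≤ c := by
  have h1 : convexHull ℝ (Set.range p) ⊆ {x | f x ≤ c} := by
    refine convexHull_min ?_ (convex_halfSpace_le f.isLinear c)
    rintro _ ⟨i, rfl⟩; exact h i
  exact h1 hx

lemma eq_of_mem_hull {p : ι → E} {f : E →ₗ[ℝ] ℝ} {c : ℝ} {S : Set ι} (h : ∀ i ∈ S, f (p i) = c) {x : E}
    (hx : x ∈ convexHull ℝ (p '' S)) : f x = c := by
  have h1 : convexHull ℝ (p '' S) ⊆ {x | f x = c} := by
    refine convexHull_min ?_ (convex_hyperplane f.isLinear c)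
    rintro _ ⟨i, hi, rfl⟩; exact h i hi
  exact h1 hx

/-- a point of the polytope where the functional attains the bound lies in the hull of the face -/
lemma mem_face {p : ι → E} {f : E →ₗ[ℝ] ℝ} {c : ℝ} (h : ∀ i, f (p i) ≤ c) {x : E}
    (hx : x ∈ convexHull ℝ (Set.range p)) (hfx : f x = c) :
    x ∈ convexHull ℝ (p '' {i | f (p i) = c}) := by
  rw [← Set.image_univ, mem_hull_iff] at hx
  obtain ⟨w, hw0, -, hw1, hwx⟩ := hx
  rw [mem_hull_iff]
  refine ⟨w, hw0, fun i hi => ?_, hw1, hwx⟩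
  have h3 : ∑ i, w i * (c - f (p i)) = 0 := by
    have : f x = ∑ i, w i * f (p i) := by
      conv_lhs => rw [← hwx]
      rw [map_sum]; simp
    simp only [mul_sub, sum_sub_distrib, ← sum_mul, hw1, one_mul]
    linarith
  rw [sum_eq_zero_iff_of_nonneg fun j _ => mul_nonneg (hw0 j) (sub_nonneg.2 (h j))] at h3
  rcases mul_eq_zero.1 (h3 i (mem_univ i)) with h5 | h5
  · exact h5
  · exact absurd (by show f (p i) = c; linarith) hi

lemma exposed_spec {p : ι → E} {F : Set E} (hF : IsExposed ℝ (convexHull ℝ (Set.range p)) F) :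
    F = convexHull ℝ (p '' {i | p i ∈ F}) ∧ IsFaceSet p {i | p i ∈ F} := by
  have hpP : ∀ i, p i ∈ convexHull ℝ (Set.range p) := fun i => subset_convexHull ℝ _ ⟨i, rfl⟩
  rcases F.eq_empty_or_nonempty with rfl | hne
  · simpa using isFaceSet_empty p
  · obtain ⟨l, hl⟩ := hF hne
    obtain ⟨y, hy⟩ := hne
    have hy' := hy
    rw [hl] at hy'
    obtain ⟨hyP, hymax⟩ := hy'
    have hmem : ∀ x, x ∈ F ↔ x ∈ convexHull ℝ (Set.range p) ∧ l x = l y := by
      intro x
      constructor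
      · intro hx
        rw [hl] at hx
        exact ⟨hx.1, le_antisymm (hymax x hx.1) (hx.2 y hyP)⟩
      · rintro ⟨h1, h2⟩
        rw [hl]
        exact ⟨h1, fun z hz => by rw [h2]; exact hymax z hz⟩
    have hset : {i | p i ∈ F} = {i | l.toLinearMap (p i) = l y} := by
      ext i
      rw [Set.mem_ofPred_eq, Set.mem_ofPred_eq, hmem]
      exact ⟨fun h => h.2, fun h => ⟨hpP i, h⟩⟩
    have hle : ∀ i, l.toLinearMap (p i) ≤ l y := fun i => hymax _ (hpP i)
    rw [hset]
    constructor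
    · ext x
      rw [hmem]
      constructor
      · rintro ⟨h1, h2⟩
        exact mem_face hle h1 h2
      · intro hx
        exact ⟨convexHull_mono (Set.image_subset_range _ _) hx,
          eq_of_mem_hull (f := l.toLinearMap) (fun i hi => hi) hx⟩
    · exact ⟨l.toLinearMap, l y, fun i hi => hi, fun i hi => lt_of_le_of_ne (hle i) hi⟩

lemma faceSet_spec {p : ι → E} {S : Set ι} (hS : IsFaceSet p S) :
    IsExposed ℝ (convexHull ℝ (Set.range p)) (convexHull ℝ (p '' S)) ∧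
      {i | p i ∈ convexHull ℝ (p '' S)} = S := by
  obtain ⟨f, c, h1, h2⟩ := hS
  have hle : ∀ i, f (p i) ≤ c := by
    intro i
    by_cases hi : i ∈ S
    · exact (h1 i hi).le
    · exact (h2 i hi).le
  have hset : S = {i | f (p i) = c} := by
    ext i
    exact ⟨fun h => h1 i h, fun h => by
      by_contra hcon
      exact (h2 i hcon).ne h⟩
  constructor
  · intro hne
    obtain ⟨y, hy⟩ := hne
    refine ⟨LinearMap.toContinuousLinearMap f, ?_⟩
    have hfy : f y = c := eq_of_mem_hull h1 hy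
    ext x
    constructor
    · intro hx
      refine ⟨convexHull_mono (Set.image_subset_range _ _) hx, fun z hz => ?_⟩
      show f z ≤ f x
      rw [eq_of_mem_hull h1 hx]
      exact le_of_mem_hull hle hz
    · rintro ⟨hx1, hx2⟩
      rw [hset]
      refine mem_face hle hx1 (le_antisymm (le_of_mem_hull hle hx1) ?_)
      rw [← hfy]
      exact hx2 y (convexHull_mono (Set.image_subset_range _ _) hy)
  · ext i
    constructor
    · intro hi
      rw [hset]
      exact eq_of_mem_hull h1 hi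
    · intro hi
      exact subset_convexHull ℝ _ ⟨i, hi, rfl⟩

/-- The face lattice of a polytope in terms of face sets of labels. -/
noncomputable def faceIso (p : ι → E) :
    {F : Set E // IsExposed ℝ (convexHull ℝ (Set.range p)) F} ≃o {S : Set ι // IsFaceSet p S} where
  toFun F := ⟨{i | p i ∈ F.1}, (exposed_spec F.2).2⟩
  invFun S := ⟨convexHull ℝ (p '' S.1), (faceSet_spec S.2).1⟩
  left_inv F := Subtype.ext (exposed_spec F.2).1.symm
  right_inv S := Subtype.ext (faceSet_spec S.2).2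
  map_rel_iff' := by
    rintro ⟨F, hF⟩ ⟨F', hF'⟩
    constructor
    · intro h
      show F ⊆ F'
      rw [(exposed_spec hF).1, (exposed_spec hF').1]
      exact convexHull_mono (Set.image_mono h)
    · intro h i hi
      exact h hi

/-- A vertex which is not in the hull of the other labelled points is a face set. -/
lemma isFaceSet_singleton {p : ι → E} {i : ι} (h : p i ∉ convexHull ℝ (p '' {i}ᶜ)) :
    IsFaceSet p {i} := by
  have hcl : IsClosed (convexHull ℝ (p '' {i}ᶜ)) :=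
    ((Set.toFinite _).isCompact_convexHull ℝ).isClosed
  obtain ⟨f, u, hf1, hf2⟩ := geometric_hahn_banach_closed_point (convex_convexHull ℝ _) hcl h
  refine ⟨f.toLinearMap, f (p i), ?_, ?_⟩
  · rintro j rfl; rfl
  · intro j hj
    exact (hf1 _ (subset_convexHull ℝ _ ⟨j, hj, rfl⟩)).trans hf2

end faces

section relabel
variable {ι κ E E' : Type*} [AddCommGroup E] [Module ℝ E] [AddCommGroup E'] [Module ℝ E']

lemma atom_image {p : ι → E} {q : κ → E'} (hp : ∀ i, IsFaceSet p {i})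
    (hq : ∀ j, IsFaceSet q {j})
    (Φ : {S : Set ι // IsFaceSet p S} ≃o {S : Set κ // IsFaceSet q S}) (i : ι) :
    ∃ j, Φ ⟨{i}, hp i⟩ = ⟨{j}, hq j⟩ := by
  have hne : (Φ ⟨{i}, hp i⟩).1.Nonempty := by
    rw [Set.nonempty_iff_ne_empty]
    intro h0
    have h1 : Φ ⟨{i}, hp i⟩ ≤ Φ ⟨∅, isFaceSet_empty p⟩ := by
      show (Φ ⟨{i}, hp i⟩).1 ⊆ _
      rw [h0]; exact Set.empty_subset _
    have h2 := Φ.le_iff_le.1 h1
    have h3 : ({i} : Set ι) ⊆ ∅ := h2
    exact h3 rfl
  obtain ⟨j, hj⟩ := hne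
  refine ⟨j, ?_⟩
  have h1 : (⟨{j}, hq j⟩ : {S : Set κ // IsFaceSet q S}) ≤ Φ ⟨{i}, hp i⟩ := by
    show ({j} : Set κ) ⊆ _
    exact Set.singleton_subset_iff.2 hj
  have h2 : Φ.symm ⟨{j}, hq j⟩ ≤ ⟨{i}, hp i⟩ := by
    rw [← Φ.le_iff_le]; simpa using h1
  have h3 : (Φ.symm ⟨{j}, hq j⟩).1 ⊆ {i} := h2
  have hne' : (Φ.symm ⟨{j}, hq j⟩).1.Nonempty := by
    rw [Set.nonempty_iff_ne_empty]
    intro h0
    have h1 : Φ.symm ⟨{j}, hq j⟩ ≤ Φ.symm ⟨∅, isFaceSet_empty q⟩ := by
      show (Φ.symm ⟨{j}, hq j⟩).1 ⊆ _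
      rw [h0]; exact Set.empty_subset _
    have h2 := Φ.symm.le_iff_le.1 h1
    have h3 : ({j} : Set κ) ⊆ ∅ := h2
    exact h3 rfl
  have h4 : (Φ.symm ⟨{j}, hq j⟩).1 = {i} := (Set.Nonempty.subset_singleton_iff hne').1 h3
  have h5 : Φ.symm ⟨{j}, hq j⟩ = ⟨{i}, hp i⟩ := Subtype.ext h4
  rw [← h5]; simp

/-- Isomorphic face lattices come from a relabelling. -/
lemma exists_relabel {p : ι → E} {q : κ → E'} (hp : ∀ i, IsFaceSet p {i})
    (hq : ∀ j, IsFaceSet q {j})
    (Φ : {S : Set ι // IsFaceSet p S} ≃o {S : Set κ // IsFaceSet q S}) :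
    ∃ π : ι ≃ κ, ∀ S : Set ι, IsFaceSet p S ↔ IsFaceSet q (π '' S) := by
  choose π hπ using fun i => atom_image hp hq Φ i
  choose ψ hψ using fun j => atom_image hq hp Φ.symm j
  have hinj : ∀ {i i' : ι}, (⟨{i}, hp i⟩ : {S : Set ι // IsFaceSet p S}) = ⟨{i'}, hp i'⟩ → i = i' := by
    intro i i' h
    have : ({i} : Set ι) = {i'} := congrArg Subtype.val h
    exact Set.singleton_injective this
  have hinj' : ∀ {i i' : κ}, (⟨{i}, hq i⟩ : {S : Set κ // IsFaceSet q S}) = ⟨{i'}, hq i'⟩ → i = i' := by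
    intro i i' h
    have : ({i} : Set κ) = {i'} := congrArg Subtype.val h
    exact Set.singleton_injective this
  have hl : ∀ i, ψ (π i) = i := by
    intro i
    apply hinj
    rw [← hψ, ← hπ]; simp
  have hr : ∀ j, π (ψ j) = j := by
    intro j
    apply hinj'
    rw [← hπ, ← hψ]; simp
  refine ⟨⟨π, ψ, hl, hr⟩, fun S => ⟨fun hS => ?_, fun hS => ?_⟩⟩
  · have : (Φ ⟨S, hS⟩).1 = π '' S := by
      ext j
      have h1 : j ∈ (Φ ⟨S, hS⟩).1 ↔ (⟨{j}, hq j⟩ : {S : Set κ // IsFaceSet q S}) ≤ Φ ⟨S, hS⟩ := by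
        show _ ↔ ({j} : Set κ) ⊆ _
        rw [Set.singleton_subset_iff]
      rw [h1, ← Φ.symm.le_iff_le, hψ]
      simp only [OrderIso.symm_apply_apply]
      show ({ψ j} : Set ι) ⊆ S ↔ _
      rw [Set.singleton_subset_iff]
      constructor
      · intro h; exact ⟨ψ j, h, hr j⟩
      · rintro ⟨i, hi, rfl⟩; rw [hl]; exact hi
    show IsFaceSet q (π '' S)
    rw [← this]; exact (Φ ⟨S, hS⟩).2
  · change IsFaceSet q (π '' S) at hS
    have : (Φ.symm ⟨π '' S, hS⟩).1 = S := by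
      ext i
      have h1 : i ∈ (Φ.symm ⟨π '' S, hS⟩).1 ↔
          (⟨{i}, hp i⟩ : {S : Set ι // IsFaceSet p S}) ≤ Φ.symm ⟨π '' S, hS⟩ := by
        show _ ↔ ({i} : Set ι) ⊆ _
        rw [Set.singleton_subset_iff]
      rw [h1, ← Φ.le_iff_le, hπ]
      simp only [OrderIso.apply_symm_apply]
      show ({π i} : Set κ) ⊆ π '' S ↔ _
      rw [Set.singleton_subset_iff]
      constructor
      · rintro ⟨i', hi', heq⟩
        have := congrArg ψ heq
        rw [hl, hl] at this
        rwa [← this]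
      · intro h; exact ⟨i, h, rfl⟩
    rw [← this]; exact (Φ.symm ⟨π '' S, hS⟩).2

end relabel

end Pool.Agent.Lib.MP_57d9fc_co
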