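import Mathlib
import Pool.Agent.Lib.MP_57d9fc_co.Spectral

open Finset

namespace Pool.Agent.Lib.MP_57d9fc_co

/-- the extremal value `n / (2 sin (π / n))` -/
noncomputable def Tmax (n : ℕ) : ℝ := n / (2 * Real.sin (Real.pi / n))

lemma sin_pi_div_pos {n : ℕ} (hn : 2 ≤ n) : 0 < Real.sin (Real.pi / n) := by
  have hnr : (2 : ℝ) ≤ n := by exact_mod_cast hn
  have hpi := Real.pi_pos
  refine Real.sin_pos_of_pos_of_lt_pi (by positivity) ?_
  rw [div_lt_iff₀ (by linarith)]; nlinarith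

lemma Tmax_pos {n : ℕ} (hn : 2 ≤ n) : 0 < Tmax n := by
  have h1 := sin_pi_div_pos hn
  have h2 : (0 : ℝ) < n := by exact_mod_cast (by omega : 0 < n)
  unfold Tmax; positivity

lemma TT_le {n : ℕ} (hn : Odd n) (hn3 : 3 ≤ n) (z : Fin n → ℂ)
    (hz : ∑ x, Complex.normSq (z x) = 2) : TT z ≤ Tmax n ∧
    (TT z = Tmax n → ∀ x y : Fin n, (z x).re * (z y).re + (z x).im * (z y).im =
      2 / n * Real.cos (2 * Real.pi * (((n - 1) / 2 : ℕ) * (((y : ℕ) : ℝ) - ((x : ℕ) : ℝ))) / n)) := by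
  have hn0 : 0 < n := by omega
  have hnr : (0 : ℝ) < n := by exact_mod_cast hn0
  have hs := sin_pi_div_pos (n := n) (by omega)
  set c : ℝ := 1 / (2 * Real.sin (Real.pi / n)) with hc
  have hcpos : 0 < c := by positivity
  set A : ℕ → ℝ := fun r => Complex.normSq (ft z r) with hA
  have hAnn : ∀ r, 0 ≤ A r := fun r => Complex.normSq_nonneg _
  have hpars : ∑ r ∈ range n, A r = n * 2 := by
    have := parseval hn0 z
    rw [hz] at this; exact this
  have hTT : TT z = (∑ r ∈ Ico 1 n, cr n r * A r) / 2 := TT_eq hn z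
  have hTm : Tmax n = c * n := by unfold Tmax; rw [hc]; ring
  have hsplit : A 0 + ∑ r ∈ Ico 1 n, A r = n * 2 := by
    rw [← hpars, range_eq_Ico, sum_eq_sum_Ico_succ_bot hn0]
  have hdef : Tmax n - TT z = (c * A 0 + ∑ r ∈ Ico 1 n, (c - cr n r) * A r) / 2 := by
    rw [hTT, hTm]
    have : ∑ r ∈ Ico 1 n, (c - cr n r) * A r = c * ∑ r ∈ Ico 1 n, A r - ∑ r ∈ Ico 1 n, cr n r * A r := by
      rw [mul_sum, ← sum_sub_distrib]
      exact sum_congr rfl fun r _ => by ring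
    rw [this]
    have h2 : c * (A 0 + ∑ r ∈ Ico 1 n, A r) = c * (n * 2) := by rw [hsplit]
    linarith
  have hterm : ∀ r ∈ Ico 1 n, 0 ≤ (c - cr n r) * A r := by
    intro r hr
    obtain ⟨h1, h2⟩ := mem_Ico.1 hr
    exact mul_nonneg (sub_nonneg.2 (cr_le hn h1 h2).1) (hAnn r)
  have hsum0 : 0 ≤ ∑ r ∈ Ico 1 n, (c - cr n r) * A r := sum_nonneg hterm
  have hA0 : 0 ≤ c * A 0 := mul_nonneg hcpos.le (hAnn 0)
  refine ⟨by linarith, fun heq => ?_⟩
  rw [heq, sub_self] at hdef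
  have hz0 : c * A 0 = 0 := by linarith
  have hzs : ∑ r ∈ Ico 1 n, (c - cr n r) * A r = 0 := by linarith
  have hA00 : A 0 = 0 := by
    rcases mul_eq_zero.1 hz0 with h | h
    · exact absurd h hcpos.ne'
    · exact h
  rw [sum_eq_zero_iff_of_nonneg hterm] at hzs
  set r₀ := (n - 1) / 2 with hr₀
  have hr₀n : r₀ < n := by omega
  have hAz : ∀ r ∈ range n, r ≠ r₀ → A r = 0 := by
    intro r hr hne
    rcases Nat.eq_zero_or_pos r with h0 | h0
    · rw [h0]; exact hA00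
    · have hr' : r ∈ Ico 1 n := mem_Ico.2 ⟨h0, mem_range.1 hr⟩
      have h1 : 2 * r + 1 ≠ n := by
        intro h; apply hne; omega
      have h2 := (cr_le hn h0 (mem_range.1 hr)).2.1 h1
      rcases mul_eq_zero.1 (hzs r hr') with h | h
      · exact absurd h (sub_pos.2 h2).ne'
      · exact h
  have hAr₀ : A r₀ = n * 2 := by
    rw [← hpars, sum_eq_single r₀ hAz]
    intro h; exact absurd (mem_range.2 hr₀n) h
  have hzy : ∀ y : Fin n, (n : ℂ) * z y = ft z r₀ * om n ((r₀ : ℤ) * y) := by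
    intro y
    rw [← inversion hn0 z y, sum_eq_single r₀]
    · intro r hr hne
      have := hAz r hr hne
      simp only [hA] at this
      rw [Complex.normSq_eq_zero.1 this, zero_mul]
    · intro h; exact absurd (mem_range.2 hr₀n) h
  intro x y
  have h1 : ((n : ℂ) * z y) * (starRingEnd ℂ) ((n : ℂ) * z x) =
      (A r₀ : ℂ) * om n ((r₀ : ℤ) * ((y : ℕ) : ℤ) + -((r₀ : ℤ) * ((x : ℕ) : ℤ))) := by
    rw [hzy y, hzy x, map_mul, om_add, om_neg]
    simp only [hA]
    rw [Complex.normSq_eq_conj_mul_self]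
    ring
  have h2 := congrArg Complex.re h1
  rw [hAr₀, Complex.re_ofReal_mul, om_re] at h2
  have h3 : (((n : ℂ) * z y) * (starRingEnd ℂ) ((n : ℂ) * z x)).re =
      n * n * ((z x).re * (z y).re + (z x).im * (z y).im) := by
    simp only [map_mul, Complex.mul_re, Complex.mul_im, Complex.conj_re, Complex.conj_im,
      Complex.natCast_re, Complex.natCast_im, map_natCast]
    ring
  rw [h3] at h2
  have h4 : 2 * Real.pi * (((r₀ : ℤ) * ((y : ℕ) : ℤ) + -((r₀ : ℤ) * ((x : ℕ) : ℤ)) : ℤ) : ℝ) / n =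
      2 * Real.pi * ((r₀ : ℝ) * (((y : ℕ) : ℝ) - ((x : ℕ) : ℝ))) / n := by
    push_cast; ring
  rw [h4] at h2
  have h5 : (n : ℝ) * n ≠ 0 := by positivity
  apply mul_left_cancel₀ h5
  rw [h2]
  field_simp

lemma TT_conj {n : ℕ} (z : Fin n → ℂ) : TT (fun x => (starRingEnd ℂ) (z x)) = - TT z := by
  unfold TT
  rw [← sum_neg_distrib]
  refine sum_congr rfl fun x _ => ?_
  rw [← sum_neg_distrib]
  refine sum_congr rfl fun y _ => ?_
  split_ifs
  · simp only [dc, Complex.conj_re, Complex.conj_im]; ring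
  · simp

lemma abs_TT_le {n : ℕ} (hn : Odd n) (hn3 : 3 ≤ n) (z : Fin n → ℂ)
    (hz : ∑ x, Complex.normSq (z x) = 2) : |TT z| ≤ Tmax n ∧
    (|TT z| = Tmax n → ∀ x y : Fin n, (z x).re * (z y).re + (z x).im * (z y).im =
      2 / n * Real.cos (2 * Real.pi * (((n - 1) / 2 : ℕ) * (((y : ℕ) : ℝ) - ((x : ℕ) : ℝ))) / n)) := by
  have h1 := TT_le hn hn3 z hz
  have h2 := TT_le hn hn3 (fun x => (starRingEnd ℂ) (z x)) (by simpa [Complex.normSq_conj] using hz)
  rw [TT_conj] at h2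
  refine ⟨abs_le.2 ⟨by linarith [h2.1], h1.1⟩, fun h => ?_⟩
  rcases abs_choice (TT z) with h3 | h3
  · exact h1.2 (by rw [← h, h3])
  · have := h2.2 (by rw [← h, h3])
    intro x y
    rw [← this x y]
    simp only [Complex.conj_re, Complex.conj_im]; ring

end Pool.Agent.Lib.MP_57d9fc_co
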