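import Mathlib
import Pool.Agent.Lib.MP_57d9fc_co.Spectral

open Finset MeasureTheory

namespace Pool.Agent.Lib.MP_57d9fc_co

/-- The standard simplex in `EuclideanSpace ℝ (Fin d)`. -/
noncomputable def stdSimp (d : ℕ) : Set (EuclideanSpace ℝ (Fin d)) :=
  convexHull ℝ (insert 0 (Set.range fun b : Fin d => EuclideanSpace.single b (1 : ℝ)))

lemma volume_stdSimp_ne_top (d : ℕ) : volume (stdSimp d) ≠ ⊤ := by
  have : (insert 0 (Set.range fun b : Fin d => EuclideanSpace.single b (1 : ℝ))).Finite :=
    (Set.finite_range _).insert _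
  exact (this.isCompact_convexHull ℝ).measure_lt_top.ne

lemma volume_stdSimp_pos (d : ℕ) : 0 < volume (stdSimp d) := by
  have hint : (interior (stdSimp d)).Nonempty := by
    unfold stdSimp
    rw [interior_convexHull_nonempty_iff_affineSpan_eq_top]
    rw [← AffineSubspace.direction_eq_top_iff_of_nonempty
      (⟨0, subset_affineSpan ℝ _ (Set.mem_insert _ _)⟩)]
    rw [direction_affineSpan, eq_top_iff]
    intro x _
    have hx : x = ∑ b : Fin d, x b • EuclideanSpace.single b (1 : ℝ) := by
      ext a
      simp [Finset.sum_apply, Pi.single_apply]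
    rw [hx]
    refine Submodule.sum_mem _ fun b _ => Submodule.smul_mem _ _ ?_
    have := vsub_mem_vectorSpan ℝ (s := insert 0 (Set.range fun b : Fin d =>
      EuclideanSpace.single b (1 : ℝ))) (p₁ := EuclideanSpace.single b (1 : ℝ)) (p₂ := 0)
      (Set.mem_insert_of_mem _ ⟨b, rfl⟩) (Set.mem_insert _ _)
    simpa using this
  exact lt_of_lt_of_le (isOpen_interior.measure_pos _ hint) (measure_mono interior_subset)

/-- Volume of a simplex with one vertex `c` and the other vertices `v b`. -/
lemma volume_simplex {d : ℕ} (c : EuclideanSpace ℝ (Fin d))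
    (v : Fin d → EuclideanSpace ℝ (Fin d)) :
    volume (convexHull ℝ (insert c (Set.range v))) =
      ENNReal.ofReal |(Matrix.of fun a b => (v b - c) a).det| * volume (stdSimp d) := by
  set M : Matrix (Fin d) (Fin d) ℝ := Matrix.of fun a b => (v b - c) a with hM
  set B := (EuclideanSpace.basisFun (Fin d) ℝ).toBasis with hB
  set L : EuclideanSpace ℝ (Fin d) →ₗ[ℝ] EuclideanSpace ℝ (Fin d) := Matrix.toLin B B M with hL
  have hLb : ∀ b, L (EuclideanSpace.single b (1 : ℝ)) = v b - c := by
    intro b
    have h1 : EuclideanSpace.single b (1 : ℝ) = B b := by simp [hB]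
    rw [h1, hL, Matrix.toLin_self]
    ext a
    simp [hB, hM, Finset.sum_apply, Pi.single_apply]
  have hdet : LinearMap.det L = M.det := by rw [hL, LinearMap.det_toLin]
  have himg : convexHull ℝ (insert c (Set.range v)) = (fun x => c + x) '' (L '' stdSimp d) := by
    unfold stdSimp
    rw [L.image_convexHull]
    have e2 : (fun x => c + x) = ⇑(AffineEquiv.constVAdd ℝ (EuclideanSpace ℝ (Fin d)) c).toAffineMap := by
      ext x; simp
    rw [e2, AffineMap.image_convexHull]
    congr 1
    rw [Set.image_insert_eq, Set.image_insert_eq, ← Set.range_comp, ← Set.range_comp]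
    congr 1
    · simp
    · congr 1
      ext1 b
      simp [hLb b]
  rw [himg, Set.image_add_left, measure_preimage_add, Measure.addHaar_image_linearMap, hdet]

end Pool.Agent.Lib.MP_57d9fc_co
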