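import Mathlib
import Pool.Agent.Lib.MP_57d9fc_co.Simplex
import Pool.Agent.Lib.MP_57d9fc_co.Extremal
import Pool.Agent.Lib.MP_57d9fc_co.Spectral

section

open Finset

namespace Pool.Agent.Lib.MP_57d9fc_co

lemma det_le_one_of_trace {n : Type*} [Fintype n] [DecidableEq n] (A : Matrix n n ℝ)
    (hA : A.PosSemidef) (htr : A.trace = Fintype.card n) : A.det ≤ 1 ∧ (A.det = 1 → A = 1) := by
  have hH := hA.isHermitian
  have hd : A.det = ∏ i, hH.eigenvalues i := by
    have := hH.det_eq_prod_eigenvalues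
    simpa using this
  have ht : ∑ i, (hH.eigenvalues i - 1) = 0 := by
    have := hH.trace_eq_sum_eigenvalues
    rw [sum_sub_distrib, sum_const, card_univ, nsmul_eq_mul, mul_one, ← htr, this]
    simp
  have hnn : ∀ i, 0 ≤ hH.eigenvalues i := hA.eigenvalues_nonneg
  have hle : ∀ i, hH.eigenvalues i ≤ Real.exp (hH.eigenvalues i - 1) := by
    intro i
    have := Real.add_one_le_exp (hH.eigenvalues i - 1)
    linarith
  have hexp : ∏ i, Real.exp (hH.eigenvalues i - 1) = 1 := by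
    rw [← Real.exp_sum, ht, Real.exp_zero]
  have h1 : A.det ≤ 1 := by
    rw [hd, ← hexp]
    exact prod_le_prod (fun i _ => hnn i) (fun i _ => hle i)
  refine ⟨h1, fun heq => ?_⟩
  have hall : ∀ i, hH.eigenvalues i = 1 := by
    by_contra hcon
    push Not at hcon
    obtain ⟨i, hi⟩ := hcon
    have hpos : ∀ j, 0 < hH.eigenvalues j := by
      intro j
      refine lt_of_le_of_ne (hnn j) fun h0 => ?_
      have : ∏ i, hH.eigenvalues i = 0 := prod_eq_zero (mem_univ j) h0.symm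
      rw [← hd, heq] at this
      exact one_ne_zero this
    have hlt : ∏ i, hH.eigenvalues i < ∏ i, Real.exp (hH.eigenvalues i - 1) := by
      refine prod_lt_prod (fun j _ => hpos j) (fun j _ => hle j) ⟨i, mem_univ i, ?_⟩
      have := Real.add_one_lt_exp (sub_ne_zero.2 hi)
      linarith
    rw [hexp, ← hd, heq] at hlt
    exact lt_irrefl _ hlt
  have hs := hH.spectral_theorem
  have : (RCLike.ofReal ∘ hH.eigenvalues : n → ℝ) = fun _ => 1 := by
    ext i; simp [hall i]
  rw [this] at hs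
  have h2 : (Matrix.diagonal fun _ : n => (1 : ℝ)) = 1 := by ext i j; simp [Matrix.diagonal, Matrix.one_apply]
  rw [h2, map_one] at hs
  exact hs

/-- Hadamard-type inequality: an `n × n` matrix whose squared entries sum to `n` has determinant
of absolute value at most `1`, with equality only for orthogonal matrices. -/
lemma abs_det_le_one {n : Type*} [Fintype n] [DecidableEq n] (W : Matrix n n ℝ)
    (htr : ∑ i, ∑ j, W i j ^ 2 = Fintype.card n) :
    |W.det| ≤ 1 ∧ (|W.det| = 1 → W * W.transpose = 1) := by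
  have hps : (W * W.transpose).PosSemidef := by
    have := Matrix.posSemidef_self_mul_conjTranspose W
    rwa [Matrix.conjTranspose_eq_transpose_of_trivial] at this
  have ht : (W * W.transpose).trace = Fintype.card n := by
    rw [← htr]
    simp only [Matrix.trace, Matrix.diag_apply, Matrix.mul_apply, Matrix.transpose_apply]
    refine sum_congr rfl fun i _ => sum_congr rfl fun j _ => by ring
  have hdet : (W * W.transpose).det = W.det ^ 2 := by
    rw [Matrix.det_mul, Matrix.det_transpose]; ring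
  obtain ⟨h1, h2⟩ := det_le_one_of_trace _ hps ht
  rw [hdet] at h1 h2
  refine ⟨(sq_le_one_iff_abs_le_one _).1 h1, fun h => h2 ?_⟩
  rw [← sq_abs, h]; norm_num

end Pool.Agent.Lib.MP_57d9fc_co
end

section

open Finset Matrix

set_option linter.unusedSectionVars false

namespace Pool.Agent.Lib.MP_57d9fc_co

variable {d : ℕ} {I : Type*} [Fintype I] [DecidableEq I]

/-- The rows `α (1,…,1)` and `β (coordinates of the points)`. -/
noncomputable def Vm (α β : ℝ) (p : I → EuclideanSpace ℝ (Fin d)) : Matrix (Fin d ⊕ Unit) I ℝ :=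
  Matrix.of fun r l => Sum.elim (fun a => β * p l a) (fun _ => α) r

/-- The determinant with two extra rows. -/
noncomputable def Om (e : (Fin d ⊕ Unit) ⊕ Fin 2 ≃ I) (α β : ℝ)
    (p : I → EuclideanSpace ℝ (Fin d)) (U : Matrix (Fin 2) I ℝ) : ℝ :=
  ((fromRows (Vm α β p) U).submatrix id e).det

lemma Om_mul (e : (Fin d ⊕ Unit) ⊕ Fin 2 ≃ I) (α β : ℝ) (p : I → EuclideanSpace ℝ (Fin d))
    (U G : Matrix (Fin 2) I ℝ) (hG : Vm α β p * Gᵀ = 0) :
    Om e α β p U * Om e α β p G = (Vm α β p * (Vm α β p)ᵀ).det * (U * Gᵀ).det := by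
  unfold Om
  rw [← det_transpose ((fromRows (Vm α β p) G).submatrix id e), ← det_mul, transpose_submatrix,
    submatrix_mul_equiv, submatrix_id_id, transpose_fromRows, fromRows_mul_fromCols, hG]
  exact det_fromBlocks_zero₁₂ _ _ _

lemma Om_sq (e : (Fin d ⊕ Unit) ⊕ Fin 2 ≃ I) (α β : ℝ) (p : I → EuclideanSpace ℝ (Fin d))
    (G : Matrix (Fin 2) I ℝ) (hG : Vm α β p * Gᵀ = 0) (hG1 : G * Gᵀ = 1) :
    Om e α β p G ^ 2 = (Vm α β p * (Vm α β p)ᵀ).det := by
  have := Om_mul e α β p G G hG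
  rw [hG1, det_one, mul_one] at this
  rw [← this]; ring

lemma Om_zero_of_zero (e : (Fin d ⊕ Unit) ⊕ Fin 2 ≃ I) (α β : ℝ)
    (p : I → EuclideanSpace ℝ (Fin d)) (h : (Vm α β p * (Vm α β p)ᵀ).det = 0)
    (U : Matrix (Fin 2) I ℝ) : Om e α β p U = 0 := by
  obtain ⟨w, hw0, hw⟩ := exists_vecMul_eq_zero_iff.2 h
  have h1 : w ᵥ* Vm α β p = 0 := by
    have : (w ᵥ* Vm α β p) ⬝ᵥ (w ᵥ* Vm α β p) = 0 := by
      have h2 : (w ᵥ* (Vm α β p * (Vm α β p)ᵀ)) ⬝ᵥ w = 0 := by rw [hw, zero_dotProduct]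
      rw [← vecMul_vecMul, ← dotProduct_mulVec, mulVec_transpose] at h2
      exact h2
    exact dotProduct_self_eq_zero.1 this
  unfold Om
  rw [← exists_vecMul_eq_zero_iff]
  refine ⟨Sum.elim w 0, ?_, ?_⟩
  · intro h0
    apply hw0
    ext i
    have := congrFun h0 (Sum.inl i)
    simpa using this
  · ext j
    have := congrFun h1 (e j)
    simp only [vecMul, dotProduct, Pi.zero_apply, submatrix_apply, id] at this ⊢
    rw [Fintype.sum_sum_type]
    simp only [Sum.elim_inl, Sum.elim_inr, fromRows_apply_inl, Pi.zero_apply, zero_mul,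
      sum_const_zero, add_zero]
    exact this

/-- The main consequence: the determinant depends on `U` only through its products with `G`. -/
lemma Om_eq (e : (Fin d ⊕ Unit) ⊕ Fin 2 ≃ I) (α β : ℝ) (p : I → EuclideanSpace ℝ (Fin d))
    (G : Matrix (Fin 2) I ℝ) (hG : Vm α β p * Gᵀ = 0) (hG1 : G * Gᵀ = 1)
    (U : Matrix (Fin 2) I ℝ) : Om e α β p U = Om e α β p G * (U * Gᵀ).det := by
  by_cases h0 : Om e α β p G = 0
  · have := Om_sq e α β p G hG hG1
    rw [h0, zero_pow two_ne_zero] at this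
    rw [h0, zero_mul, Om_zero_of_zero e α β p this.symm U]
  · have h1 := Om_mul e α β p U G hG
    rw [← Om_sq e α β p G hG hG1] at h1
    apply mul_right_cancel₀ h0
    rw [h1]; ring

/-- Existence of an orthonormal basis of the space of affine dependences. -/
lemma exists_gale (α β : ℝ) (p : I → EuclideanSpace ℝ (Fin d)) (hI : Fintype.card I = d + 3) :
    ∃ G : Matrix (Fin 2) I ℝ, Vm α β p * Gᵀ = 0 ∧ G * Gᵀ = 1 := by
  set L : EuclideanSpace ℝ I →ₗ[ℝ] ((Fin d ⊕ Unit) → ℝ) :=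
    (Vm α β p).mulVecLin ∘ₗ (WithLp.linearEquiv 2 ℝ (I → ℝ)).toLinearMap with hL
  have hk : 2 ≤ Module.finrank ℝ (LinearMap.ker L) := by
    have h1 := LinearMap.finrank_range_add_finrank_ker L
    have h2 : Module.finrank ℝ (LinearMap.range L) ≤ d + 1 := by
      refine (Submodule.finrank_le _).trans ?_
      rw [Module.finrank_fintype_fun_eq_card]; simp
    rw [finrank_euclideanSpace, hI] at h1
    omega
  set b := stdOrthonormalBasis ℝ (LinearMap.ker L) with hb
  set i0 : Fin (Module.finrank ℝ (LinearMap.ker L)) := ⟨0, by omega⟩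
  set i1 : Fin (Module.finrank ℝ (LinearMap.ker L)) := ⟨1, by omega⟩
  have hne : i0 ≠ i1 := by intro h; have := congrArg Fin.val h; simp [i0, i1] at this
  set g : Fin 2 → EuclideanSpace ℝ I := ![(b i0 : EuclideanSpace ℝ I), (b i1 : EuclideanSpace ℝ I)]
    with hg
  have hgk : ∀ t, L (g t) = 0 := by
    intro t; fin_cases t
    · exact (b i0).2
    · exact (b i1).2
  have hgo : ∀ s t, inner ℝ (g s) (g t) = if s = t then (1 : ℝ) else 0 := by
    have ho := b.orthonormal
    have h00 : inner ℝ (b i0 : EuclideanSpace ℝ I) (b i0 : EuclideanSpace ℝ I) = (1 : ℝ) := by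
      have := orthonormal_iff_ite.1 ho i0 i0; rw [if_pos rfl] at this; exact this
    have h11 : inner ℝ (b i1 : EuclideanSpace ℝ I) (b i1 : EuclideanSpace ℝ I) = (1 : ℝ) := by
      have := orthonormal_iff_ite.1 ho i1 i1; rw [if_pos rfl] at this; exact this
    have h01 : inner ℝ (b i0 : EuclideanSpace ℝ I) (b i1 : EuclideanSpace ℝ I) = (0 : ℝ) := by
      have := orthonormal_iff_ite.1 ho i0 i1; rw [if_neg hne] at this; exact this
    have h10 : inner ℝ (b i1 : EuclideanSpace ℝ I) (b i0 : EuclideanSpace ℝ I) = (0 : ℝ) := by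
      have := orthonormal_iff_ite.1 ho i1 i0; rw [if_neg hne.symm] at this; exact this
    intro s t
    fin_cases s <;> fin_cases t
    · exact h00
    · exact h01
    · exact h10
    · exact h11
  refine ⟨Matrix.of fun t l => g t l, ?_, ?_⟩
  · ext r t
    have := congrFun (hgk t) r
    simpa [hL, mul_apply, mulVec, dotProduct] using this
  · ext s t
    have := hgo s t
    rw [PiLp.inner_apply] at this
    simp only [mul_apply, of_apply, transpose_apply, one_apply]
    rw [← this]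
    refine sum_congr rfl fun l _ => ?_
    simp only [RCLike.inner_apply, conj_trivial]
    exact mul_comm _ _

end Pool.Agent.Lib.MP_57d9fc_co
end

section

open Finset Matrix

set_option linter.unusedSectionVars false

namespace Pool.Agent.Lib.MP_57d9fc_co

variable {d : ℕ} {I : Type*} [Fintype I] [DecidableEq I]

/-- The two extra rows `e_i - e_k`, `e_j - e_k`. -/
def Utri (i j k : I) : Matrix (Fin 2) I ℝ :=
  Matrix.of fun t l => if t = 0 then (if l = i then 1 else 0) - (if l = k then 1 else 0)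
    else (if l = j then 1 else 0) - (if l = k then 1 else 0)

/-- matrix of the rows in a different order -/
noncomputable def Nm (α β : ℝ) (p : I → EuclideanSpace ℝ (Fin d)) (i j k : I) :
    Matrix (Fin d ⊕ Fin 3) I ℝ :=
  fromRows (Matrix.of fun a l => β * p l a) (fromRows (Utri i j k) (Matrix.of fun _ _ => α) |>.submatrix
    (finSumFinEquiv (m := 2) (n := 1)).symm id)

/-- the bijection between the two row types -/
def rho : (Fin d ⊕ Unit) ⊕ Fin 2 ≃ Fin d ⊕ Fin 3 :=
  (Equiv.sumAssoc (Fin d) Unit (Fin 2)).trans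
    (Equiv.sumCongr (Equiv.refl _) ((Equiv.sumComm Unit (Fin 2)).trans
      ((Equiv.sumCongr (Equiv.refl _) (Equiv.equivPUnit (Fin 1)).symm).trans finSumFinEquiv)))

lemma fromRows_eq (α β : ℝ) (p : I → EuclideanSpace ℝ (Fin d)) (i j k : I) :
    fromRows (Vm α β p) (Utri i j k) = (Nm α β p i j k).submatrix rho id := by
  ext r l
  rcases r with (a | u) | t
  · simp [Nm, rho, Vm]
  · simp [Nm, rho, Vm]
  · simp [Nm, rho]

lemma abs_Om_eq (e : (Fin d ⊕ Unit) ⊕ Fin 2 ≃ I) (σ : Fin d ⊕ Fin 3 ≃ I) (α β : ℝ)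
    (p : I → EuclideanSpace ℝ (Fin d)) (i j k : I) :
    |Om e α β p (Utri i j k)| = |((Nm α β p i j k).submatrix id σ).det| := by
  unfold Om
  rw [fromRows_eq, submatrix_submatrix, Function.comp_id, Function.id_comp]
  have h : (Nm α β p i j k).submatrix rho e =
      ((Nm α β p i j k).submatrix id σ).submatrix rho (e.trans σ.symm) := by
    ext a b; simp
  rw [h, abs_det_submatrix_equiv_equiv]

lemma Nm_blocks (σ : Fin d ⊕ Fin 3 ≃ I) (α β : ℝ) (p : I → EuclideanSpace ℝ (Fin d)) :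
    (Nm α β p (σ (Sum.inr 0)) (σ (Sum.inr 1)) (σ (Sum.inr 2))).submatrix id σ =
      fromBlocks (Matrix.of fun a b => β * p (σ (Sum.inl b)) a)
        (Matrix.of fun a t => β * p (σ (Sum.inr t)) a)
        (Matrix.of fun (t : Fin 3) (_ : Fin d) => if t = 2 then α else 0)
        !![1, 0, -1; 0, 1, -1; α, α, α] := by
  have e0 : (finSumFinEquiv (m := 2) (n := 1)).symm 0 = Sum.inl 0 := rfl
  have e1 : (finSumFinEquiv (m := 2) (n := 1)).symm 1 = Sum.inl 1 := rfl
  have e2 : (finSumFinEquiv (m := 2) (n := 1)).symm 2 = Sum.inr 0 := rfl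
  ext r c
  rcases r with a | t <;> rcases c with b | t'
  · simp [Nm]
  · simp [Nm]
  · fin_cases t
    · simp [Nm, e0, Utri]
    · simp [Nm, e1, Utri]
    · simp [Nm, e2]
  · fin_cases t
    · fin_cases t' <;> simp [Nm, e0, Utri]
    · fin_cases t' <;> simp [Nm, e1, Utri]
    · fin_cases t' <;> simp [Nm, e2]

lemma det_Nm (σ : Fin d ⊕ Fin 3 ≃ I) (α β : ℝ) (p : I → EuclideanSpace ℝ (Fin d)) (c : EuclideanSpace ℝ (Fin d))
    (hc : c = (Fintype.card I : ℝ)⁻¹ • ∑ l, p l) :
    ((Nm α β p (σ (Sum.inr 0)) (σ (Sum.inr 1)) (σ (Sum.inr 2))).submatrix id σ).det =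
      α * β ^ d * ((d : ℝ) + 3) * (Matrix.of fun a b => (p (σ (Sum.inl b)) - c) a).det := by
  rw [Nm_blocks]
  set A : Matrix (Fin d) (Fin d) ℝ := Matrix.of fun a b => β * p (σ (Sum.inl b)) a with hA
  set B : Matrix (Fin d) (Fin 3) ℝ := Matrix.of fun a t => β * p (σ (Sum.inr t)) a with hB
  set C : Matrix (Fin 3) (Fin d) ℝ := Matrix.of fun (t : Fin 3) (_ : Fin d) => if t = 2 then α else 0
    with hC
  set D : Matrix (Fin 3) (Fin 3) ℝ := !![1, 0, -1; 0, 1, -1; α, α, α] with hD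
  set X : Matrix (Fin 3) (Fin d) ℝ := Matrix.of fun _ _ => 1 / 3 with hX
  have hmul : fromBlocks A B C D * fromBlocks 1 0 (-X) 1 = fromBlocks (A - B * X) B 0 D := by
    rw [fromBlocks_multiply]
    congr 1
    · simp [sub_eq_add_neg]
    · simp
    · rw [Matrix.mul_one, Matrix.mul_neg]
      ext t b
      simp only [hC, hD, hX, Matrix.add_apply, Matrix.neg_apply, mul_apply,
        Fin.sum_univ_three, of_apply, Matrix.zero_apply]
      fin_cases t <;> simp <;> ring
    · simp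
  have hdet : (fromBlocks A B C D).det = (A - B * X).det * D.det := by
    have := congrArg det hmul
    rw [det_mul, det_fromBlocks_zero₁₂, det_one, det_one, mul_one, mul_one,
      det_fromBlocks_zero₂₁] at this
    exact this
  rw [hdet]
  have hDdet : D.det = 3 * α := by
    rw [hD, det_fin_three]; simp; ring
  rw [hDdet]
  set Q : Matrix (Fin d) (Fin d) ℝ := Matrix.of fun a b => (p (σ (Sum.inl b)) - c) a with hQ
  have hcard : (Fintype.card I : ℝ) = (d : ℝ) + 3 := by
    have := Fintype.card_congr σ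
    rw [Fintype.card_sum, Fintype.card_fin, Fintype.card_fin] at this
    rw [← this]; push_cast; ring
  have hsum : ∀ a, ∑ b, p (σ (Sum.inl b)) a + ∑ t, p (σ (Sum.inr t)) a = ((d : ℝ) + 3) * c a := by
    intro a
    have h3 : ((d : ℝ) + 3) ≠ 0 := by positivity
    have h1 : ∑ l, p l a = ((d : ℝ) + 3) * c a := by
      rw [hc, hcard]
      simp only [PiLp.smul_apply, smul_eq_mul, WithLp.ofLp_sum, Finset.sum_apply]
      field_simp
    rw [← h1, ← Equiv.sum_comp σ, Fintype.sum_sum_type]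
  have hAB : A - B * X = β • (Q * (1 + replicateCol Unit (fun _ : Fin d => (1 / 3 : ℝ)) *
      replicateRow Unit (fun _ : Fin d => (1 : ℝ)))) := by
    ext a b
    simp only [Matrix.sub_apply, Matrix.smul_apply, smul_eq_mul, mul_add, mul_one, Matrix.add_apply,
      mul_apply, hA, hB, hX, hQ, of_apply, replicateCol_apply, replicateRow_apply, univ_unique,
      sum_const, card_singleton, one_smul, PiLp.sub_apply]
    rw [← sum_mul, ← mul_sum, ← sum_mul, sum_sub_distrib, sum_const, card_univ, Fintype.card_fin,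
      nsmul_eq_mul]
    have := hsum a
    have h4 : ∑ t, p (σ (Sum.inr t)) a = ((d : ℝ) + 3) * c a - ∑ b, p (σ (Sum.inl b)) a := by
      linarith
    rw [h4]; ring
  rw [hAB, det_smul, det_mul, det_one_add_replicateCol_mul_replicateRow, Fintype.card_fin]
  have h5 : (1 : ℝ) + (fun _ : Fin d => (1 : ℝ)) ⬝ᵥ (fun _ : Fin d => (1 / 3 : ℝ)) =
      ((d : ℝ) + 3) / 3 := by
    simp [dotProduct]; ring
  rw [h5]; ring

/-- The planar determinant `δ(z, w)`. -/
def dl (z w : ℝ × ℝ) : ℝ := z.1 * w.2 - z.2 * w.1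

lemma det_Utri (G : Matrix (Fin 2) I ℝ) (i j k : I) :
    (Utri i j k * Gᵀ).det = dl (G 0 i - G 0 k, G 1 i - G 1 k) (G 0 j - G 0 k, G 1 j - G 1 k) := by
  have h0 : ∀ t, (Utri i j k * Gᵀ) 0 t = G t i - G t k := by
    intro t; simp [mul_apply, Utri, sub_mul, sum_sub_distrib]
  have h1 : ∀ t, (Utri i j k * Gᵀ) 1 t = G t j - G t k := by
    intro t; simp [mul_apply, Utri, sub_mul, sum_sub_distrib]
  rw [det_fin_two, h0, h1, h0, h1]
  simp only [dl]

/-- Facet identity. -/
lemma facet_identity (e : (Fin d ⊕ Unit) ⊕ Fin 2 ≃ I) (σ : Fin d ⊕ Fin 3 ≃ I) {α β : ℝ}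
    (hα : 0 ≤ α) (hβ : 0 ≤ β) (p : I → EuclideanSpace ℝ (Fin d))
    (G : Matrix (Fin 2) I ℝ) (hG : Vm α β p * Gᵀ = 0) (hG1 : G * Gᵀ = 1)
    (i j k : I) (hi : σ (Sum.inr 0) = i) (hj : σ (Sum.inr 1) = j) (hk : σ (Sum.inr 2) = k) :
    α * β ^ d * ((d : ℝ) + 3) *
      |(Matrix.of fun a b => (p (σ (Sum.inl b)) - centroid' p) a).det| =
    |Om e α β p G| *
      |dl (G 0 i - G 0 k, G 1 i - G 1 k) (G 0 j - G 0 k, G 1 j - G 1 k)| := by
  subst hi hj hk
  have hpos : 0 ≤ α * β ^ d * ((d : ℝ) + 3) := by positivity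
  rw [← det_Utri, ← abs_mul, ← Om_eq e α β p G hG hG1, abs_Om_eq e σ,
    det_Nm σ α β p (centroid' p) rfl, abs_mul (α * β ^ d * ((d : ℝ) + 3)), abs_of_nonneg hpos]

end Pool.Agent.Lib.MP_57d9fc_co
end

section

open Finset

namespace Pool.Agent.Lib.MP_57d9fc_co

/-- cofacet triples -/
def good {n : ℕ} (t : Fin n × Fin n × Fin n) : Prop :=
  t.1 < t.2.1 ∧ t.2.1 < t.2.2 ∧ Odd ((t.2.1 : ℕ) - (t.1 : ℕ)) ∧ Odd ((t.2.2 : ℕ) - (t.2.1 : ℕ))

instance {n : ℕ} : DecidablePred (good (n := n)) := fun t => by unfold good; infer_instance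

lemma card_odd_range (N : ℕ) : ((range N).filter Odd).card = N / 2 := by
  induction N with
  | zero => simp
  | succ N ih =>
    rw [range_add_one, filter_insert]
    split_ifs with h
    · rw [card_insert_of_notMem (by simp), ih]
      obtain ⟨k, rfl⟩ := h; omega
    · rw [ih]
      rw [Nat.not_odd_iff_even] at h
      obtain ⟨k, rfl⟩ := h; omega

lemma cnt1 {n : ℕ} (j : Fin n) :
    (univ.filter fun k : Fin n => j < k ∧ Odd ((k : ℕ) - (j : ℕ))).card = (n - (j : ℕ)) / 2 := by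
  rw [← card_odd_range]
  refine card_bij (fun k _ => (k : ℕ) - j) ?_ ?_ ?_
  · intro k hk
    obtain ⟨-, h1, h2⟩ := mem_filter.1 hk
    have := k.isLt
    have h1' : (j : ℕ) < k := h1
    exact mem_filter.2 ⟨mem_range.2 (by omega), h2⟩
  · intro a ha b hb hab
    obtain ⟨-, h1, -⟩ := mem_filter.1 ha
    obtain ⟨-, h2, -⟩ := mem_filter.1 hb
    have h1' : (j : ℕ) < a := h1
    have h2' : (j : ℕ) < b := h2
    exact Fin.ext (by omega)
  · intro t ht
    obtain ⟨h1, h2⟩ := mem_filter.1 ht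
    have h1' := mem_range.1 h1
    have h3 : 0 < t := h2.pos
    refine ⟨⟨j + t, by omega⟩, mem_filter.2 ⟨mem_univ _, ?_, ?_⟩, ?_⟩
    · show (j : ℕ) < j + t
      omega
    · simpa using h2
    · simp

lemma cnt2 {n : ℕ} (j : Fin n) :
    (univ.filter fun i : Fin n => i < j ∧ Odd ((j : ℕ) - (i : ℕ))).card = ((j : ℕ) + 1) / 2 := by
  rw [← card_odd_range]
  refine card_bij (fun i _ => (j : ℕ) - i) ?_ ?_ ?_
  · intro k hk
    obtain ⟨-, h1, h2⟩ := mem_filter.1 hk
    exact mem_filter.2 ⟨mem_range.2 (by omega), h2⟩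
  · intro a ha b hb hab
    obtain ⟨-, h1, -⟩ := mem_filter.1 ha
    obtain ⟨-, h2, -⟩ := mem_filter.1 hb
    have h1' : (a : ℕ) < j := h1
    have h2' : (b : ℕ) < j := h2
    exact Fin.ext (by omega)
  · intro t ht
    obtain ⟨h1, h2⟩ := mem_filter.1 ht
    have h1' := mem_range.1 h1
    have h3 : 0 < t := h2.pos
    have hj := j.isLt
    refine ⟨⟨j - t, by omega⟩, mem_filter.2 ⟨mem_univ _, ?_, ?_⟩, ?_⟩
    · show (j : ℕ) - t < j
      omega
    · have : (j : ℕ) - (j - t) = t := by omega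
      simpa [this] using h2
    · show (j : ℕ) - (j - t) = t
      omega

lemma cnt3 {n : ℕ} (i k : Fin n) (hik : i < k) (he : ¬ Odd ((k : ℕ) - (i : ℕ))) :
    (univ.filter fun j : Fin n => i < j ∧ j < k ∧ Odd ((j : ℕ) - (i : ℕ)) ∧ Odd ((k : ℕ) - (j : ℕ))).card =
      ((k : ℕ) - (i : ℕ)) / 2 := by
  rw [← card_odd_range]
  have hik' : (i : ℕ) < k := hik
  rw [Nat.not_odd_iff_even] at he
  refine card_bij (fun j _ => (j : ℕ) - i) ?_ ?_ ?_
  · intro j hj
    obtain ⟨-, h1, h2, h3, -⟩ := mem_filter.1 hj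
    have h1' : (i : ℕ) < j := h1
    have h2' : (j : ℕ) < k := h2
    exact mem_filter.2 ⟨mem_range.2 (by omega), h3⟩
  · intro a ha b hb hab
    obtain ⟨-, h1, -⟩ := mem_filter.1 ha
    obtain ⟨-, h2, -⟩ := mem_filter.1 hb
    have h1' : (i : ℕ) < a := h1
    have h2' : (i : ℕ) < b := h2
    exact Fin.ext (by omega)
  · intro t ht
    obtain ⟨h1, h2⟩ := mem_filter.1 ht
    have h1' := mem_range.1 h1
    have h3 : 0 < t := h2.pos
    have hk := k.isLt
    refine ⟨⟨i + t, by omega⟩, mem_filter.2 ⟨mem_univ _, ?_, ?_, ?_, ?_⟩, ?_⟩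
    · show (i : ℕ) < i + t
      omega
    · show (i : ℕ) + t < k
      omega
    · simpa using h2
    · show Odd ((k : ℕ) - (i + t))
      obtain ⟨a, ha⟩ := he
      obtain ⟨b, hb⟩ := h2
      refine ⟨a - b - 1, ?_⟩
      omega
    · simp

lemma sum_good {n : ℕ} (hn : Odd n) (D : Fin n → Fin n → ℝ) :
    ∑ t ∈ univ.filter (good (n := n)), (D t.1 t.2.1 + D t.2.1 t.2.2 - D t.1 t.2.2) =
      ∑ x : Fin n, ∑ y : Fin n, if x < y then mk n ((y : ℕ) - (x : ℕ)) * D x y else 0 := by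
  rw [sum_sub_distrib, sum_add_distrib]
  have key : ∀ (P : Prop) [Decidable P] (c : ℝ), (if P then c else 0) = (if P then (1 : ℝ) else 0) * c := by
    intro P _ c
    by_cases h : P
    · rw [if_pos h, if_pos h, one_mul]
    · rw [if_neg h, if_neg h, zero_mul]
  have e1 : ∑ t ∈ univ.filter (good (n := n)), D t.1 t.2.1 =
      ∑ x : Fin n, ∑ y : Fin n, if x < y ∧ Odd ((y : ℕ) - (x : ℕ)) then
        (((n - (y : ℕ)) / 2 : ℕ) : ℝ) * D x y else 0 := by
    rw [sum_filter, Fintype.sum_prod_type]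
    refine sum_congr rfl fun x _ => ?_
    rw [Fintype.sum_prod_type]
    refine sum_congr rfl fun y _ => ?_
    by_cases h : x < y ∧ Odd ((y : ℕ) - (x : ℕ))
    · rw [if_pos h, ← cnt1 y, card_filter, Nat.cast_sum, sum_mul]
      refine sum_congr rfl fun k _ => ?_
      by_cases hk : y < k ∧ Odd ((k : ℕ) - (y : ℕ))
      · have hg : good (x, y, k) := ⟨h.1, hk.1, h.2, hk.2⟩
        simp [hg, hk]
      · have hg : ¬ good (x, y, k) := fun hh => hk ⟨hh.2.1, hh.2.2.2⟩
        simp [hg, hk]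
    · rw [if_neg h]
      refine sum_eq_zero fun k _ => ?_
      have hg : ¬ good (x, y, k) := fun hh => h ⟨hh.1, hh.2.2.1⟩
      simp [hg]
  have e2 : ∑ t ∈ univ.filter (good (n := n)), D t.2.1 t.2.2 =
      ∑ x : Fin n, ∑ y : Fin n, if x < y ∧ Odd ((y : ℕ) - (x : ℕ)) then
        ((((x : ℕ) + 1) / 2 : ℕ) : ℝ) * D x y else 0 := by
    rw [sum_filter, Fintype.sum_prod_type, Finset.sum_comm, Fintype.sum_prod_type]
    refine sum_congr rfl fun x _ => ?_
    refine sum_congr rfl fun y _ => ?_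
    by_cases h : x < y ∧ Odd ((y : ℕ) - (x : ℕ))
    · rw [if_pos h, ← cnt2 x, card_filter, Nat.cast_sum, sum_mul]
      refine sum_congr rfl fun k _ => ?_
      by_cases hk : k < x ∧ Odd ((x : ℕ) - (k : ℕ))
      · have hg : good (k, x, y) := ⟨hk.1, h.1, hk.2, h.2⟩
        simp [hg, hk]
      · have hg : ¬ good (k, x, y) := fun hh => hk ⟨hh.1, hh.2.2.1⟩
        simp [hg, hk]
    · rw [if_neg h]
      refine sum_eq_zero fun k _ => ?_
      have hg : ¬ good (k, x, y) := fun hh => h ⟨hh.2.1, hh.2.2.2⟩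
      simp [hg]
  have e3 : ∑ t ∈ univ.filter (good (n := n)), D t.1 t.2.2 =
      ∑ x : Fin n, ∑ y : Fin n, if x < y ∧ ¬ Odd ((y : ℕ) - (x : ℕ)) then
        ((((y : ℕ) - (x : ℕ)) / 2 : ℕ) : ℝ) * D x y else 0 := by
    rw [sum_filter, Fintype.sum_prod_type]
    refine sum_congr rfl fun x _ => ?_
    rw [Fintype.sum_prod_type, sum_comm]
    refine sum_congr rfl fun y _ => ?_
    by_cases h : x < y ∧ ¬ Odd ((y : ℕ) - (x : ℕ))
    · rw [if_pos h, ← cnt3 x y h.1 h.2, card_filter, Nat.cast_sum, sum_mul]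
      refine sum_congr rfl fun k _ => ?_
      by_cases hk : x < k ∧ k < y ∧ Odd ((k : ℕ) - (x : ℕ)) ∧ Odd ((y : ℕ) - (k : ℕ))
      · have hg : good (x, k, y) := hk
        simp [hg, hk]
      · have hg : ¬ good (x, k, y) := hk
        simp only [hg, hk, if_false, Nat.cast_zero, zero_mul]
    · rw [if_neg h]
      refine sum_eq_zero fun k _ => ?_
      have hg : ¬ good (x, k, y) := fun hh => h ⟨hh.1.trans hh.2.1, by
        have h1 : (x : ℕ) < k := hh.1
        have h2 : (k : ℕ) < y := hh.2.1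
        have := hh.2.2.1.add_odd hh.2.2.2
        rw [Nat.not_odd_iff_even]
        have e : (k : ℕ) - (x : ℕ) + ((y : ℕ) - (k : ℕ)) = (y : ℕ) - (x : ℕ) := by omega
        rwa [e] at this⟩
      simp [hg]
  rw [e1, e2, e3, ← sum_add_distrib, ← sum_sub_distrib]
  refine sum_congr rfl fun x _ => ?_
  rw [← sum_add_distrib, ← sum_sub_distrib]
  refine sum_congr rfl fun y _ => ?_
  by_cases hxy : x < y
  · have hxy' : (x : ℕ) < y := hxy
    have hy := y.isLt
    by_cases hodd : Odd ((y : ℕ) - (x : ℕ))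
    · rw [if_pos ⟨hxy, hodd⟩, if_pos ⟨hxy, hodd⟩, if_neg (fun h => h.2 hodd), if_pos hxy, mk,
        if_pos hodd]
      have h2 : ((n - (y : ℕ)) / 2 + ((x : ℕ) + 1) / 2) * 2 + ((y : ℕ) - (x : ℕ)) = n := by
        obtain ⟨a, ha⟩ := hn
        obtain ⟨b, hb⟩ := hodd
        omega
      have h3 : ((((n - (y : ℕ)) / 2 : ℕ) : ℝ) + ((((x : ℕ) + 1) / 2 : ℕ) : ℝ)) * 2 +
          (((y : ℕ) - (x : ℕ) : ℕ) : ℝ) = n := by exact_mod_cast h2
      have h4 : (((n - (y : ℕ)) / 2 : ℕ) : ℝ) + ((((x : ℕ) + 1) / 2 : ℕ) : ℝ) =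
          ((n : ℝ) - (((y : ℕ) - (x : ℕ) : ℕ) : ℝ)) / 2 := by linarith
      rw [← h4]; ring
    · rw [if_neg (fun h => hodd h.2), if_neg (fun h => hodd h.2), if_pos ⟨hxy, hodd⟩, if_pos hxy, mk,
        if_neg hodd]
      rw [Nat.not_odd_iff_even] at hodd
      have h2 : (((y : ℕ) - (x : ℕ)) / 2) * 2 = (y : ℕ) - (x : ℕ) := by
        obtain ⟨b, hb⟩ := hodd
        omega
      have h3 : ((((y : ℕ) - (x : ℕ)) / 2 : ℕ) : ℝ) * 2 = (((y : ℕ) - (x : ℕ) : ℕ) : ℝ) := by
        exact_mod_cast h2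
      rw [← h3]; ring
  · rw [if_neg (fun h => hxy h.1), if_neg (fun h => hxy h.1), if_neg (fun h => hxy h.1), if_neg hxy]
    ring

end Pool.Agent.Lib.MP_57d9fc_co
end

section

open Finset Matrix

set_option linter.unusedSectionVars false

namespace Pool.Agent.Lib.MP_57d9fc_co

variable {d : ℕ} {I : Type*} [Fintype I] [DecidableEq I]

lemma Om_le_one (e : (Fin d ⊕ Unit) ⊕ Fin 2 ≃ I) (p : I → EuclideanSpace ℝ (Fin d))
    (hp : ∀ l, ‖p l‖ = 1) (G : Matrix (Fin 2) I ℝ) (hG1 : G * Gᵀ = 1) :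
    |Om e √(1 / ((d : ℝ) + 3)) √((d : ℝ) / ((d : ℝ) + 3)) p G| ≤ 1 ∧
    (|Om e √(1 / ((d : ℝ) + 3)) √((d : ℝ) / ((d : ℝ) + 3)) p G| = 1 → ∀ x y : I,
      (d : ℝ) / ((d : ℝ) + 3) * inner ℝ (p x) (p y) + 1 / ((d : ℝ) + 3) + G 0 x * G 0 y +
        G 1 x * G 1 y = if x = y then 1 else 0) := by
  set α := √(1 / ((d : ℝ) + 3)) with hα
  set β := √((d : ℝ) / ((d : ℝ) + 3)) with hβ
  have hα2 : α ^ 2 = 1 / ((d : ℝ) + 3) := Real.sq_sqrt (by positivity)
  have hβ2 : β ^ 2 = (d : ℝ) / ((d : ℝ) + 3) := Real.sq_sqrt (by positivity)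
  have hcardI : (Fintype.card I : ℝ) = (d : ℝ) + 3 := by
    have := Fintype.card_congr e
    simp only [Fintype.card_sum, Fintype.card_fin, Fintype.card_unit] at this
    rw [← this]; push_cast; ring
  set W : Matrix ((Fin d ⊕ Unit) ⊕ Fin 2) ((Fin d ⊕ Unit) ⊕ Fin 2) ℝ :=
    (fromRows (Vm α β p) G).submatrix id e with hW
  have hp2 : ∀ l, ∑ a, p l a ^ 2 = 1 := by
    intro l
    have := EuclideanSpace.norm_sq_eq (p l)
    rw [hp l] at this
    simpa using this.symm
  have hGG : ∀ t, ∑ l, G t l ^ 2 = 1 := by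
    intro t
    have := congrFun (congrFun hG1 t) t
    rw [mul_apply, one_apply_eq] at this
    rw [← this]
    refine sum_congr rfl fun l _ => ?_
    rw [transpose_apply]; ring
  have htr : ∑ i, ∑ j, W i j ^ 2 = Fintype.card ((Fin d ⊕ Unit) ⊕ Fin 2) := by
    have h1 : ∀ i, ∑ j, W i j ^ 2 = ∑ l, fromRows (Vm α β p) G i l ^ 2 := by
      intro i
      rw [← Equiv.sum_comp e]
      rfl
    simp only [h1]
    rw [Fintype.sum_sum_type, Fintype.sum_sum_type]
    simp only [fromRows_apply_inl, fromRows_apply_inr, hGG]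
    have h2 : ∑ a : Fin d, ∑ l, Vm α β p (Sum.inl a) l ^ 2 = d := by
      simp only [Vm, of_apply, Sum.elim_inl, mul_pow]
      rw [sum_comm]
      simp only [← mul_sum, hp2, mul_one, sum_const, card_univ, nsmul_eq_mul, hcardI, hβ2]
      field_simp
    have h3 : ∑ u : Unit, ∑ l, Vm α β p (Sum.inr u) l ^ 2 = 1 := by
      simp only [Vm, of_apply, Sum.elim_inr, sum_const, card_univ, nsmul_eq_mul, hcardI, hα2]
      simp
      field_simp
    rw [h2, h3]
    simp
  obtain ⟨h1, h2⟩ := abs_det_le_one W htr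
  refine ⟨h1, fun h => ?_⟩
  have h3 := h2 h
  have h4 : Wᵀ * W = 1 := mul_eq_one_comm.1 h3
  intro x y
  have h5 := congrFun (congrFun h4 (e.symm x)) (e.symm y)
  rw [mul_apply, one_apply] at h5
  simp only [transpose_apply, hW, submatrix_apply, id, Equiv.apply_symm_apply] at h5
  rw [Fintype.sum_sum_type, Fintype.sum_sum_type] at h5
  simp only [fromRows_apply_inl, fromRows_apply_inr, Vm, of_apply, Sum.elim_inl, Sum.elim_inr,
    Fin.sum_univ_two, univ_unique, sum_const, card_singleton, one_smul,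
    EmbeddingLike.apply_eq_iff_eq] at h5
  rw [← h5, PiLp.inner_apply]
  have h6 : ∑ a, β * p x a * (β * p y a) = β ^ 2 * ∑ a, inner ℝ (p x a) (p y a) := by
    rw [mul_sum]
    refine sum_congr rfl fun a _ => ?_
    simp only [RCLike.inner_apply, conj_trivial]; ring
  rw [h6, hβ2]
  have h7 : α * α = 1 / ((d : ℝ) + 3) := by rw [← hα2]; ring
  rw [h7]; ring

end Pool.Agent.Lib.MP_57d9fc_co
end

section

open Finset Matrix MeasureTheory

namespace Pool.Agent.Lib.MP_57d9fc_co

lemma sign_mul_eq {a c x y : ℝ} (ha : 0 < a) (hc : 0 < c) (h : a * x = c * y) :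
    SignType.sign x = SignType.sign y := by
  have := congrArg SignType.sign h
  rwa [sign_mul, sign_mul, sign_pos ha, sign_pos hc, one_mul, one_mul] at this

/-- positive relations on all good triples -/
def Rel {n : ℕ} (z : Fin n → ℂ) : Prop :=
  ∀ i j k : Fin n, good (i, j, k) → ∃ a b c : ℝ, 0 < a ∧ 0 < b ∧ 0 < c ∧
    (a : ℂ) * z i + b * z j + c * z k = 0

lemma rel_sign {n : ℕ} {z : Fin n → ℂ} (h : Rel z) {i j k : Fin n} (hg : good (i, j, k)) :
    SignType.sign (dc (z j) (z k)) = SignType.sign (dc (z i) (z j)) ∧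
    SignType.sign (dc (z i) (z k)) = - SignType.sign (dc (z i) (z j)) := by
  obtain ⟨a, b, c, ha, hb, hc, h0⟩ := h i j k hg
  have hr := congrArg Complex.re h0
  have hi := congrArg Complex.im h0
  simp at hr hi
  constructor
  · refine sign_mul_eq hc ha ?_
    simp only [dc]
    linear_combination (z j).re * hi - (z j).im * hr
  · rw [← Left.sign_neg]
    refine sign_mul_eq hc hb ?_
    simp only [dc]
    linear_combination (z i).re * hi - (z i).im * hr

lemma sign_all {n : ℕ} (hn : Odd n) (hn3 : 3 ≤ n) {z : Fin n → ℂ} (h : Rel z) :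
    ∃ ε : SignType, ∀ x y : Fin n, x < y →
      SignType.sign (dc (z x) (z y)) = if Odd ((y : ℕ) - (x : ℕ)) then ε else -ε := by
  set s : ℕ → SignType := fun a => if ha : a + 1 < n then
    SignType.sign (dc (z ⟨a, by omega⟩) (z ⟨a + 1, ha⟩)) else 0 with hs
  have hcons : ∀ a, a + 1 < n → s a = s 0 := by
    intro a
    induction a with
    | zero => intro _; rfl
    | succ a ih =>
      intro ha
      rw [← ih (by omega)]
      have hg : good ((⟨a, by omega⟩, ⟨a + 1, by omega⟩, ⟨a + 1 + 1, ha⟩) : Fin n × Fin n × Fin n) := by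
        refine ⟨?_, ?_, ?_, ?_⟩
        · show a < a + 1; omega
        · show a + 1 < a + 1 + 1; omega
        · show Odd (a + 1 - a); simp
        · show Odd (a + 1 + 1 - (a + 1)); simp
      have := (rel_sign h hg).1
      simp only [hs, dif_pos ha, dif_pos (show a + 1 < n by omega)]
      exact this
  have hodd : ∀ x y : Fin n, x < y → Odd ((y : ℕ) - (x : ℕ)) →
      SignType.sign (dc (z x) (z y)) = s 0 := by
    intro x y hxy ho
    have hxy' : (x : ℕ) < y := hxy
    by_cases hy : (y : ℕ) + 1 < n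
    · have hg : good ((x, y, ⟨(y : ℕ) + 1, hy⟩) : Fin n × Fin n × Fin n) := by
        refine ⟨hxy, ?_, ho, ?_⟩
        · show (y : ℕ) < (y : ℕ) + 1; omega
        · show Odd ((y : ℕ) + 1 - (y : ℕ)); simp
      rw [← (rel_sign h hg).1, ← hcons y hy]
      simp only [hs, dif_pos hy]
    · have hyl := y.isLt
      have hx0 : 0 < (x : ℕ) := by
        rcases Nat.eq_zero_or_pos (x : ℕ) with h0 | h0
        · exfalso
          obtain ⟨a, ha⟩ := hn
          obtain ⟨b, hb⟩ := ho
          omega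
        · exact h0
      have hx1 : (x : ℕ) - 1 + 1 < n := by omega
      have hg : good ((⟨(x : ℕ) - 1, by omega⟩, x, y) : Fin n × Fin n × Fin n) := by
        refine ⟨?_, hxy, ?_, ho⟩
        · show (x : ℕ) - 1 < (x : ℕ); omega
        · show Odd ((x : ℕ) - ((x : ℕ) - 1))
          have : (x : ℕ) - ((x : ℕ) - 1) = 1 := by omega
          rw [this]; exact odd_one
      rw [(rel_sign h hg).1, ← hcons ((x : ℕ) - 1) hx1]
      simp only [hs, dif_pos hx1]
      have e : (⟨(x : ℕ) - 1 + 1, hx1⟩ : Fin n) = x := Fin.ext (by simp; omega)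
      rw [e]
  refine ⟨s 0, fun x y hxy => ?_⟩
  have hxy' : (x : ℕ) < y := hxy
  split_ifs with ho
  · exact hodd x y hxy ho
  · rw [Nat.not_odd_iff_even] at ho
    have hyl := y.isLt
    have h1 : (x : ℕ) + 1 < y := by
      obtain ⟨b, hb⟩ := ho
      omega
    have hg : good ((x, ⟨(x : ℕ) + 1, by omega⟩, y) : Fin n × Fin n × Fin n) := by
      refine ⟨?_, ?_, ?_, ?_⟩
      · show (x : ℕ) < (x : ℕ) + 1; omega
      · show (x : ℕ) + 1 < y; exact h1
      · show Odd ((x : ℕ) + 1 - (x : ℕ)); simp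
      · show Odd ((y : ℕ) - ((x : ℕ) + 1))
        obtain ⟨b, hb⟩ := ho
        exact ⟨b - 1, by omega⟩
    rw [(rel_sign h hg).2, hodd _ _ hg.1 hg.2.2.1]

lemma sum_abs_eq {n : ℕ} (hn : Odd n) (hn3 : 3 ≤ n) {z : Fin n → ℂ} (h : Rel z) :
    ∑ t ∈ univ.filter (good (n := n)),
      |dc (z t.1) (z t.2.1) + dc (z t.2.1) (z t.2.2) - dc (z t.1) (z t.2.2)| = |TT z| := by
  obtain ⟨ε, hε⟩ := sign_all hn hn3 h
  have hTT := sum_good hn (fun x y => dc (z x) (z y))
  change _ = TT z at hTT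
  have hsg : ∀ t ∈ univ.filter (good (n := n)),
      |dc (z t.1) (z t.2.1) + dc (z t.2.1) (z t.2.2) - dc (z t.1) (z t.2.2)| =
      (ε : ℝ) * (dc (z t.1) (z t.2.1) + dc (z t.2.1) (z t.2.2) - dc (z t.1) (z t.2.2)) := by
    rintro ⟨i, j, k⟩ ht
    have hg : good (i, j, k) := (mem_filter.1 ht).2
    have h1 := hε i j hg.1
    have h2 := hε j k hg.2.1
    have h3 := hε i k (hg.1.trans hg.2.1)
    have hg1 : (i : ℕ) < j := hg.1
    have hg2 : (j : ℕ) < k := hg.2.1
    have hev : ¬ Odd ((k : ℕ) - (i : ℕ)) := by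
      rw [Nat.not_odd_iff_even]
      have := hg.2.2.1.add_odd hg.2.2.2
      have e : (j : ℕ) - (i : ℕ) + ((k : ℕ) - (j : ℕ)) = (k : ℕ) - (i : ℕ) := by omega
      rwa [e] at this
    have ho1 : Odd ((j : ℕ) - (i : ℕ)) := hg.2.2.1
    have ho2 : Odd ((k : ℕ) - (j : ℕ)) := hg.2.2.2
    rw [if_pos ho1] at h1
    rw [if_pos ho2] at h2
    rw [if_neg hev] at h3
    show |dc (z i) (z j) + dc (z j) (z k) - dc (z i) (z k)| =
      (ε : ℝ) * (dc (z i) (z j) + dc (z j) (z k) - dc (z i) (z k))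
    cases ε with
    | zero =>
      have h1' := sign_eq_zero_iff.1 h1
      have h2' := sign_eq_zero_iff.1 h2
      have h3' := sign_eq_zero_iff.1 (h3.trans (by decide))
      rw [h1', h2', h3']; simp
    | pos =>
      have h1' := sign_eq_one_iff.1 h1
      have h2' := sign_eq_one_iff.1 h2
      have h3' := sign_eq_neg_one_iff.1 (h3.trans (by decide))
      rw [abs_of_pos (by linarith)]; simp
    | neg =>
      have h1' := sign_eq_neg_one_iff.1 h1
      have h2' := sign_eq_neg_one_iff.1 h2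
      have h3' := sign_eq_one_iff.1 (h3.trans (by decide))
      rw [abs_of_neg (by linarith)]; simp
  have hS := sum_congr rfl hsg
  rw [← mul_sum, hTT] at hS
  rw [hS]
  have hnn : 0 ≤ (ε : ℝ) * TT z := by rw [← hS]; exact sum_nonneg fun _ _ => abs_nonneg _
  cases ε with
  | zero =>
    have : TT z = 0 := by
      unfold TT
      refine sum_eq_zero fun x _ => sum_eq_zero fun y _ => ?_
      by_cases hxy : x < y
      · have h0 : SignType.sign (dc (z x) (z y)) = 0 := by
          rw [hε x y hxy]; split_ifs <;> decide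
        rw [if_pos hxy, sign_eq_zero_iff.1 h0, mul_zero]
      · rw [if_neg hxy]
    rw [this]; simp
  | pos => 
    simp at hnn ⊢
    rw [abs_of_nonneg hnn]
  | neg =>
    simp at hnn ⊢
    rw [abs_of_nonpos hnn]

end Pool.Agent.Lib.MP_57d9fc_co
end
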