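import Mathlib
import Pool.Agent.Lib.MP_57d9fc_co.Signs

open Finset Matrix MeasureTheory

namespace Pool.Agent.Lib.MP_57d9fc_co

/-- complement of a triple -/
def coT {n : ℕ} (t : Fin n × Fin n × Fin n) : Finset (Fin n) := {t.1, t.2.1, t.2.2}ᶜ

/-- combinatorial type hypothesis: the face sets of cardinality at least `n - 3` are the
complements of the good triples (and the whole set). -/
def Cyc {n : ℕ} {E : Type*} [AddCommGroup E] [Module ℝ E] (p : Fin n → E) : Prop :=
  (∀ t : Fin n × Fin n × Fin n, good t → IsFaceSet p (coT t : Set (Fin n))) ∧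
  ∀ S : Finset (Fin n), IsFaceSet p (S : Set (Fin n)) → S ≠ univ → n ≤ S.card + 3 →
    ∃ t, good t ∧ coT t = S

lemma coT_inj {n : ℕ} {t t' : Fin n × Fin n × Fin n} (h : good t) (h' : good t')
    (heq : coT t = coT t') : t = t' := by
  unfold coT at heq
  rw [compl_inj_iff] at heq
  obtain ⟨i, j, k⟩ := t
  obtain ⟨i', j', k'⟩ := t'
  obtain ⟨h1, h2, -, -⟩ := h
  obtain ⟨h1', h2', -, -⟩ := h'
  simp only at h1 h2 h1' h2' heq
  have hmem : ∀ x, x ∈ ({i, j, k} : Finset (Fin n)) ↔ x ∈ ({i', j', k'} : Finset (Fin n)) := by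
    intro x; rw [heq]
  simp only [mem_insert, mem_singleton] at hmem
  have a1 := (hmem i).1 (by simp)
  have a2 := (hmem j).1 (by simp)
  have a3 := (hmem k).1 (by simp)
  have b1 := (hmem i').2 (by simp)
  have b2 := (hmem j').2 (by simp)
  have b3 := (hmem k').2 (by simp)
  simp only [Prod.mk.injEq, Fin.ext_iff] at *
  have c1 : (i : ℕ) < j := h1
  have c2 : (j : ℕ) < k := h2
  have c1' : (i' : ℕ) < j' := h1'
  have c2' : (j' : ℕ) < k' := h2'
  omega

lemma coT_card {n : ℕ} {t : Fin n × Fin n × Fin n} (h : good t) : (coT t).card + 3 = n := by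
  obtain ⟨i, j, k⟩ := t
  obtain ⟨h1, h2, -, -⟩ := h
  simp only at h1 h2
  have : ({i, j, k} : Finset (Fin n)).card = 3 := by
    rw [card_eq_three]
    exact ⟨i, j, k, h1.ne, (h1.trans h2).ne, h2.ne, rfl⟩
  have h3 := card_compl_add_card ({i, j, k} : Finset (Fin n))
  rw [this, Fintype.card_fin] at h3
  exact h3

lemma exists_sigma {d : ℕ} {t : Fin (d + 3) × Fin (d + 3) × Fin (d + 3)} (h : good t) :
    ∃ σ : Fin d ⊕ Fin 3 ≃ Fin (d + 3), σ (Sum.inr 0) = t.1 ∧ σ (Sum.inr 1) = t.2.1 ∧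
      σ (Sum.inr 2) = t.2.2 ∧ Set.range (fun b => σ (Sum.inl b)) = (coT t : Set (Fin (d + 3))) := by
  obtain ⟨i, j, k⟩ := t
  obtain ⟨h1, h2, -, -⟩ := h
  simp only at h1 h2
  have h3 := h1.trans h2
  set f : Fin d ⊕ Fin 3 → Fin (d + 3) := Sum.elim (fun _ => i) ![i, j, k] with hf
  obtain ⟨g, hg⟩ := Set.MapsTo.exists_equiv_extend_of_card_eq (α := Fin d ⊕ Fin 3)
    (t := (univ : Finset (Fin (d + 3)))) (by simp) (s := Set.range Sum.inr) (f := f)
    (fun _ _ => by simp) (by
      rintro _ ⟨a, rfl⟩ _ ⟨b, rfl⟩ hab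
      simp only [hf, Sum.elim_inr] at hab
      fin_cases a <;> fin_cases b <;> first | rfl | (exfalso; simp at hab; first
        | exact h1.ne hab | exact h1.ne hab.symm | exact h2.ne hab | exact h2.ne hab.symm
        | exact h3.ne hab | exact h3.ne hab.symm))
  set σ : Fin d ⊕ Fin 3 ≃ Fin (d + 3) := g.trans (Equiv.subtypeUnivEquiv (by simp)) with hσ
  have e : ∀ a, σ (Sum.inr a) = ![i, j, k] a := by
    intro a
    have := hg (Sum.inr a) ⟨a, rfl⟩
    simpa [hσ, hf] using this
  refine ⟨σ, e 0, e 1, e 2, ?_⟩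
  ext x
  simp only [coT, coe_compl, Set.mem_range, Set.mem_compl_iff, mem_coe, mem_insert,
    mem_singleton, not_or]
  constructor
  · rintro ⟨b, rfl⟩
    refine ⟨?_, ?_, ?_⟩
    · have := e 0
      simp only [cons_val_zero] at this
      rw [← this]; intro h; have := σ.injective h; cases this
    · have := e 1
      simp only [cons_val_one, cons_val_zero] at this
      rw [← this]; intro h; have := σ.injective h; cases this
    · have := e 2
      simp at this
      rw [← this]; intro h; have := σ.injective h; cases this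
  · rintro ⟨hx1, hx2, hx3⟩
    rcases hb : σ.symm x with b | a
    · exact ⟨b, by rw [← hb]; simp⟩
    · exfalso
      have hx : x = σ (Sum.inr a) := by rw [← hb]; simp
      rw [e a] at hx
      fin_cases a
      · exact hx1 hx
      · exact hx2 hx
      · exact hx3 hx

/-- normalisation constants -/
noncomputable def al (d : ℕ) : ℝ := √(1 / ((d : ℝ) + 3))
noncomputable def be (d : ℕ) : ℝ := √((d : ℝ) / ((d : ℝ) + 3))
noncomputable def nrm (d : ℕ) : ℝ := al d * be d ^ d * ((d : ℝ) + 3)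

lemma al_pos (d : ℕ) : 0 < al d := Real.sqrt_pos.2 (by positivity)
lemma be_pos {d : ℕ} (hd : 0 < d) : 0 < be d := Real.sqrt_pos.2 (by positivity)
lemma nrm_pos {d : ℕ} (hd : 0 < d) : 0 < nrm d := by
  have := al_pos d; have := be_pos hd; unfold nrm; positivity

/-- an arbitrary bijection of index sets -/
def e0 (d : ℕ) : (Fin d ⊕ Unit) ⊕ Fin 2 ≃ Fin (d + 3) :=
  ((Equiv.sumAssoc _ _ _).trans (Equiv.sumCongr (Equiv.refl _)
    ((Equiv.sumCongr (Equiv.equivPUnit (Fin 1)).symm (Equiv.refl _)).trans finSumFinEquiv))).trans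
    (finSumFinEquiv (m := d) (n := 3))

lemma rel_of_cyc {d : ℕ} (hd : 0 < d) {p : Fin (d + 3) → EuclideanSpace ℝ (Fin d)} (hc : Cyc p)
    {G : Matrix (Fin 2) (Fin (d + 3)) ℝ} (hG : Vm (al d) (be d) p * Gᵀ = 0) :
    Rel (fun x => (⟨G 0 x, G 1 x⟩ : ℂ)) := by
  intro i j k hg
  obtain ⟨f, c, hf1, hf2⟩ := hc.1 _ hg
  have hmem : ∀ x, x ∈ (coT (i, j, k) : Set (Fin (d + 3))) ↔ x ≠ i ∧ x ≠ j ∧ x ≠ k := by
    intro x; simp [coT]; tauto
  have h1 : i ≠ j := hg.1.ne
  have h2 : j ≠ k := hg.2.1.ne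
  have h3 : i ≠ k := (hg.1.trans hg.2.1).ne
  have hsum : ∀ t, ∑ x, G t x = 0 := by
    intro t
    have := congrFun (congrFun hG (Sum.inr ())) t
    simp only [mul_apply, Vm, of_apply, Sum.elim_inr, transpose_apply, Matrix.zero_apply,
      ← mul_sum] at this
    exact (mul_eq_zero.1 this).resolve_left (al_pos d).ne'
  have hsum2 : ∀ t, ∑ x, G t x • p x = 0 := by
    intro t
    ext a
    have := congrFun (congrFun hG (Sum.inl a)) t
    simp only [mul_apply, Vm, of_apply, Sum.elim_inl, transpose_apply, Matrix.zero_apply,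
      mul_assoc, ← mul_sum] at this
    have h := (mul_eq_zero.1 this).resolve_left (be_pos hd).ne'
    simp only [WithLp.ofLp_sum, Finset.sum_apply, PiLp.smul_apply, smul_eq_mul, PiLp.zero_apply]
    rw [← h]
    exact sum_congr rfl fun _ _ => mul_comm _ _
  have hrel : ∀ t, ∑ x, (c - f (p x)) * G t x = 0 := by
    intro t
    simp only [sub_mul, sum_sub_distrib, ← mul_sum, hsum, mul_zero, zero_sub, neg_eq_zero]
    have := congrArg f (hsum2 t)
    rw [map_sum, map_zero] at this
    rw [← this]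
    refine sum_congr rfl fun x _ => ?_
    rw [map_smul, smul_eq_mul, mul_comm]
  have hrel3 : ∀ t, (c - f (p i)) * G t i + (c - f (p j)) * G t j + (c - f (p k)) * G t k = 0 := by
    intro t
    rw [← hrel t]
    have hsub : ({i, j, k} : Finset (Fin (d + 3))) ⊆ univ := subset_univ _
    rw [← sum_subset hsub]
    · rw [sum_insert (by simp [h1, h3]), sum_insert (by simp [h2]), sum_singleton]; ring
    · intro x _ hx
      have : x ∈ (coT (i, j, k) : Set (Fin (d + 3))) := by
        rw [hmem]; simpa using hx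
      rw [hf1 x this]; ring
  refine ⟨c - f (p i), c - f (p j), c - f (p k), ?_, ?_, ?_, ?_⟩
  · exact sub_pos.2 (hf2 i (by rw [hmem]; simp))
  · exact sub_pos.2 (hf2 j (by rw [hmem]; simp))
  · exact sub_pos.2 (hf2 k (by rw [hmem]; simp))
  · apply Complex.ext
    · simpa using hrel3 0
    · simpa using hrel3 1

theorem volume_formula {d : ℕ} (hd : 0 < d) (hodd : Odd (d + 3))
    {p : Fin (d + 3) → EuclideanSpace ℝ (Fin d)}
    (hint : (interior (convexHull ℝ (Set.range p))).Nonempty) (hc : Cyc p)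
    {G : Matrix (Fin 2) (Fin (d + 3)) ℝ} (hG : Vm (al d) (be d) p * Gᵀ = 0) (hG1 : G * Gᵀ = 1) :
    volume (convexHull ℝ (Set.range p)) =
      ENNReal.ofReal (|Om (e0 d) (al d) (be d) p G| / nrm d *
        |TT (fun x => (⟨G 0 x, G 1 x⟩ : ℂ))|) * volume (stdSimp d) := by
  classical
  have hfr : Module.finrank ℝ (EuclideanSpace ℝ (Fin d)) = d := by simp
  rw [volume_eq_sum p hint volume (by rw [hfr]; exact hd)
    ((univ.filter (good (n := d + 3))).image coT) ?_ ?_]
  · rw [sum_image (fun t ht t' ht' heq => coT_inj (mem_filter.1 ht).2 (mem_filter.1 ht').2 heq)]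
    rw [← sum_abs_eq hodd (by omega) (rel_of_cyc hd hc hG), mul_sum,
      ENNReal.ofReal_sum_of_nonneg (fun _ _ => by have := nrm_pos hd; positivity), sum_mul]
    refine sum_congr rfl fun t ht => ?_
    have hg := (mem_filter.1 ht).2
    obtain ⟨σ, h0, h1, h2, hr⟩ := exists_sigma hg
    have hfi := facet_identity (e0 d) σ (al_pos d).le (be_pos hd).le p G hG hG1 _ _ _ h0 h1 h2
    have hpyr : pyr p (coT t : Set (Fin (d + 3))) =
        convexHull ℝ (insert (centroid' p) (Set.range fun b => p (σ (Sum.inl b)))) := by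
      unfold pyr
      rw [← hr, ← Set.range_comp]; rfl
    rw [hpyr, volume_simplex]
    congr 2
    have hn := nrm_pos hd
    rw [div_mul_eq_mul_div, eq_div_iff hn.ne', mul_comm, nrm, hfi]
    congr 2
    simp only [dl, dc]; ring
  · intro F hF
    obtain ⟨t, ht, rfl⟩ := mem_image.1 hF
    have hg := (mem_filter.1 ht).2
    refine ⟨hc.1 t hg, ?_, ?_⟩
    · intro h
      have := coT_card hg
      rw [h, card_univ, Fintype.card_fin] at this
      omega
    · rw [hfr]; have := coT_card hg; omega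
  · intro S hS hS' hcard
    rw [hfr] at hcard
    obtain ⟨t, ht, rfl⟩ := hc.2 S hS hS' (by omega)
    exact mem_image.2 ⟨t, mem_filter.2 ⟨mem_univ _, ht⟩, rfl⟩

end Pool.Agent.Lib.MP_57d9fc_co
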