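import Mathlib
import Pool.Agent.Lib.MP_57d9fc_co.Extremal
import Pool.Agent.Lib.MP_57d9fc_co.Formula

open Finset Matrix

namespace Pool.Agent.Lib.MP_57d9fc_co

/-- angles in `(-π, π)` -/
noncomputable def ang (n : ℕ) (x : Fin n) : ℝ := 2 * Real.pi * ((x : ℕ) - ((n : ℝ) - 1) / 2) / n

lemma sum_cos_ang {n : ℕ} (hn : 0 < n) {j : ℤ} (hj : |j| < n) (φ : ℝ) :
    ∑ x : Fin n, Real.cos (j * ang n x + φ) = if j = 0 then n * Real.cos φ else 0 := by
  set ψ : ℝ := φ - 2 * Real.pi * (j * (((n : ℝ) - 1) / 2)) / n with hψ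
  have h1 : ∀ x : Fin n, Real.cos (j * ang n x + φ) =
      (om n (j * (x : ℕ)) * Complex.exp ((ψ : ℂ) * Complex.I)).re := by
    intro x
    unfold om
    rw [← Complex.exp_add, ← add_mul, ← Complex.ofReal_add, Complex.exp_ofReal_mul_I_re]
    congr 1
    rw [hψ, ang]
    push_cast
    ring
  simp only [h1]
  rw [← Complex.re_sum, ← sum_mul, Fin.sum_univ_eq_sum_range (fun x => om n (j * (x : ℕ))),
    sum_om hn hj]
  split_ifs with h
  · subst h
    have : ψ = φ := by rw [hψ]; simp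
    rw [this, ← Complex.ofReal_natCast, Complex.re_ofReal_mul, Complex.exp_ofReal_mul_I_re]
  · simp

/-- cosines (`s = 0`) and sines (`s = 1`) -/
noncomputable def tr (k : ℕ) (s : Fin 2) (θ : ℝ) : ℝ := Real.cos (k * θ - (s : ℕ) * (Real.pi / 2))

lemma tr_zero (k : ℕ) (θ : ℝ) : tr k 0 θ = Real.cos (k * θ) := by simp [tr]
lemma tr_one (k : ℕ) (θ : ℝ) : tr k 1 θ = Real.sin (k * θ) := by
  simp [tr, Real.cos_sub_pi_div_two]

lemma tr_sq (k : ℕ) (θ : ℝ) : ∑ s : Fin 2, tr k s θ ^ 2 = 1 := by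
  rw [Fin.sum_univ_two, tr_zero, tr_one]; exact Real.cos_sq_add_sin_sq _

lemma sum_tr {n k : ℕ} (h1 : 1 ≤ k) (h2 : k < n) (s : Fin 2) : ∑ x : Fin n, tr k s (ang n x) = 0 := by
  have := sum_cos_ang (n := n) (by omega) (j := (k : ℤ)) (by rw [abs_of_nonneg (by omega)]; omega)
    (-((s : ℕ) * (Real.pi / 2)))
  rw [if_neg (by omega)] at this
  rw [← this]
  refine sum_congr rfl fun x _ => ?_
  unfold tr
  push_cast
  ring_nf

lemma sum_tr_mul {n k l : ℕ} (h1 : 1 ≤ k) (h2 : 1 ≤ l) (h3 : k + l < n) (s s' : Fin 2) :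
    ∑ x : Fin n, tr k s (ang n x) * tr l s' (ang n x) = if k = l ∧ s = s' then (n : ℝ) / 2 else 0 := by
  have hprod : ∀ x : Fin n, tr k s (ang n x) * tr l s' (ang n x) =
      (Real.cos ((((k : ℤ) - l : ℤ) : ℝ) * ang n x + (-(((s : ℕ) : ℝ) - ((s' : ℕ) : ℝ)) * (Real.pi / 2))) +
      Real.cos ((((k : ℤ) + l : ℤ) : ℝ) * ang n x + (-(((s : ℕ) : ℝ) + ((s' : ℕ) : ℝ)) * (Real.pi / 2)))) / 2 := by
    intro x
    unfold tr
    have e1 : ((((k : ℤ) - l : ℤ) : ℝ) * ang n x + (-(((s : ℕ) : ℝ) - ((s' : ℕ) : ℝ)) * (Real.pi / 2))) =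
        ((k : ℝ) * ang n x - (s : ℕ) * (Real.pi / 2)) - ((l : ℝ) * ang n x - (s' : ℕ) * (Real.pi / 2)) := by
      push_cast; ring
    have e2 : ((((k : ℤ) + l : ℤ) : ℝ) * ang n x + (-(((s : ℕ) : ℝ) + ((s' : ℕ) : ℝ)) * (Real.pi / 2))) =
        ((k : ℝ) * ang n x - (s : ℕ) * (Real.pi / 2)) + ((l : ℝ) * ang n x - (s' : ℕ) * (Real.pi / 2)) := by
      push_cast; ring
    rw [e1, e2]
    set A := (k : ℝ) * ang n x - (s : ℕ) * (Real.pi / 2)
    set B := (l : ℝ) * ang n x - (s' : ℕ) * (Real.pi / 2)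
    have hA : ∀ A B : ℝ, Real.cos A * Real.cos B = (Real.cos (A - B) + Real.cos (A + B)) / 2 := by
      intro A B; rw [Real.cos_sub, Real.cos_add]; ring
    exact hA A B
  simp only [hprod]
  rw [← sum_div, sum_add_distrib, sum_cos_ang (by omega) (by rw [abs_lt]; constructor <;> omega),
    sum_cos_ang (by omega) (by rw [abs_lt]; constructor <;> omega), if_neg (by omega : ¬ ((k : ℤ) + l = 0)),
    add_zero]
  by_cases hkl : k = l
  · subst hkl
    rw [if_pos (by simp)]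
    fin_cases s <;> fin_cases s' <;> simp
  · rw [if_neg (by omega), if_neg (by simp [hkl]), zero_div]

section
variable {d m : ℕ} (h : Fin d ≃ Fin m × Fin 2)

/-- the vertices of the regular polytope -/
noncomputable def q (x : Fin (d + 3)) : EuclideanSpace ℝ (Fin d) :=
  WithLp.toLp 2 fun a => √(1 / (m : ℝ)) * tr ((h a).1 + 1) (h a).2 (ang (d + 3) x)

include h in
lemma card_eq : d = m * 2 := by
  have := Fintype.card_congr h
  simpa using this

lemma norm_q (hm : 0 < m) (x : Fin (d + 3)) : ‖q h x‖ = 1 := by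
  have h1 : ‖q h x‖ ^ 2 = 1 := by
    rw [EuclideanSpace.norm_sq_eq]
    have : ∀ a, ‖(q h x) a‖ ^ 2 = 1 / (m : ℝ) * tr ((h a).1 + 1) (h a).2 (ang (d + 3) x) ^ 2 := by
      intro a
      have e : (q h x) a = √(1 / (m : ℝ)) * tr ((h a).1 + 1) (h a).2 (ang (d + 3) x) := rfl
      rw [e, Real.norm_eq_abs, sq_abs, mul_pow, Real.sq_sqrt (by positivity)]
    simp only [this]
    rw [← mul_sum, Equiv.sum_comp h (fun b => tr (b.1 + 1) b.2 (ang (d + 3) x) ^ 2),
      Fintype.sum_prod_type]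
    simp only [tr_sq, sum_const, card_univ, Fintype.card_fin, nsmul_eq_mul, mul_one]
    have : (m : ℝ) ≠ 0 := by exact_mod_cast hm.ne'
    field_simp
  have h2 : 0 ≤ ‖q h x‖ := norm_nonneg _
  nlinarith

lemma sum_q (a : Fin d) : ∑ x, q h x a = 0 := by
  have hd := card_eq h
  have : ∀ x, q h x a = √(1 / (m : ℝ)) * tr ((h a).1 + 1) (h a).2 (ang (d + 3) x) := fun _ => rfl
  simp only [this]
  rw [← mul_sum, sum_tr (by omega) (by have := (h a).1.isLt; omega), mul_zero]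

lemma sum_q_mul (a b : Fin d) : ∑ x, q h x a * q h x b =
    if a = b then ((d : ℝ) + 3) / d else 0 := by
  have hd := card_eq h
  have hm : 0 < m := by have := a.isLt; omega
  have h1 : ∀ x, q h x a * q h x b = 1 / (m : ℝ) * (tr ((h a).1 + 1) (h a).2 (ang (d + 3) x) *
      tr ((h b).1 + 1) (h b).2 (ang (d + 3) x)) := by
    intro x
    have e : ∀ a, q h x a = √(1 / (m : ℝ)) * tr ((h a).1 + 1) (h a).2 (ang (d + 3) x) := fun _ => rfl
    rw [e, e]
    have := Real.mul_self_sqrt (show 0 ≤ 1 / (m : ℝ) by positivity)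
    linear_combination (tr ((h a).1 + 1) (h a).2 (ang (d + 3) x) *
      tr ((h b).1 + 1) (h b).2 (ang (d + 3) x)) * this
  simp only [h1]
  rw [← mul_sum, sum_tr_mul (by omega) (by omega)
    (by have := (h a).1.isLt; have := (h b).1.isLt; omega)]
  have hiff : (((h a).1 : ℕ) + 1 = ((h b).1 : ℕ) + 1 ∧ (h a).2 = (h b).2) ↔ a = b := by
    constructor
    · rintro ⟨h2, h3⟩
      apply h.injective
      exact Prod.ext (Fin.ext (by omega)) h3
    · rintro rfl; exact ⟨rfl, rfl⟩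
  by_cases hab : a = b
  · rw [if_pos (hiff.2 hab), if_pos hab]
    have : (d : ℝ) = m * 2 := by exact_mod_cast hd
    have hm' : (m : ℝ) ≠ 0 := by exact_mod_cast hm.ne'
    push_cast
    rw [this]; field_simp
  · rw [if_neg (fun hh => hab (hiff.1 hh)), if_neg hab, mul_zero]

/-- the Gale dual -/
noncomputable def Gq (d m : ℕ) : Matrix (Fin 2) (Fin (d + 3)) ℝ :=
  Matrix.of fun s x => √(2 / ((d : ℝ) + 3)) * tr (m + 1) s (ang (d + 3) x)

include h in
lemma Gq_orth : Gq d m * (Gq d m)ᵀ = 1 := by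
  have hd := card_eq h
  ext s s'
  simp only [mul_apply, transpose_apply, Gq, of_apply, one_apply]
  have h1 : ∀ x, √(2 / ((d : ℝ) + 3)) * tr (m + 1) s (ang (d + 3) x) *
      (√(2 / ((d : ℝ) + 3)) * tr (m + 1) s' (ang (d + 3) x)) =
      2 / ((d : ℝ) + 3) * (tr (m + 1) s (ang (d + 3) x) * tr (m + 1) s' (ang (d + 3) x)) := by
    intro x
    have := Real.mul_self_sqrt (show 0 ≤ 2 / ((d : ℝ) + 3) by positivity)
    linear_combination (tr (m + 1) s (ang (d + 3) x) * tr (m + 1) s' (ang (d + 3) x)) * this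
  simp only [h1]
  rw [← mul_sum, sum_tr_mul (by omega) (by omega) (by omega)]
  have hpos : (d : ℝ) + 3 ≠ 0 := by positivity
  by_cases hs : s = s'
  · rw [if_pos ⟨rfl, hs⟩, if_pos hs]; push_cast; field_simp
  · rw [if_neg (fun hh => hs hh.2), if_neg hs, mul_zero]

lemma Vm_Gq : Vm (al d) (be d) (q h) * (Gq d m)ᵀ = 0 := by
  have hd := card_eq h
  ext r s
  simp only [mul_apply, transpose_apply, Matrix.zero_apply]
  rcases r with a | u
  · simp only [Vm, of_apply, Sum.elim_inl, Gq]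
    have h1 : ∀ x, be d * (q h x) a * (√(2 / ((d : ℝ) + 3)) * tr (m + 1) s (ang (d + 3) x)) =
        be d * √(1 / (m : ℝ)) * √(2 / ((d : ℝ) + 3)) *
        (tr ((h a).1 + 1) (h a).2 (ang (d + 3) x) * tr (m + 1) s (ang (d + 3) x)) := by
      intro x
      have e : ∀ a, q h x a = √(1 / (m : ℝ)) * tr ((h a).1 + 1) (h a).2 (ang (d + 3) x) := fun _ => rfl
      rw [e]; ring
    simp only [h1]
    rw [← mul_sum, sum_tr_mul (by omega) (by omega) (by have := (h a).1.isLt; omega), if_neg,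
      mul_zero]
    rintro ⟨h2, -⟩
    have := (h a).1.isLt
    omega
  · simp only [Vm, of_apply, Sum.elim_inr, Gq]
    rw [← mul_sum, ← mul_sum, sum_tr (by omega) (by omega), mul_zero, mul_zero]

lemma Vm_orth (hm : 0 < m) : Vm (al d) (be d) (q h) * (Vm (al d) (be d) (q h))ᵀ = 1 := by
  have hd := card_eq h
  have hd0 : (d : ℝ) ≠ 0 := by
    have : d ≠ 0 := by omega
    exact_mod_cast this
  have hpos : (d : ℝ) + 3 ≠ 0 := by positivity
  have hbe : be d * be d = (d : ℝ) / ((d : ℝ) + 3) := Real.mul_self_sqrt (by positivity)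
  have hal : al d * al d = 1 / ((d : ℝ) + 3) := Real.mul_self_sqrt (by positivity)
  ext r s
  simp only [mul_apply, transpose_apply, one_apply]
  rcases r with a | u <;> rcases s with b | v
  · simp only [Vm, of_apply, Sum.elim_inl, Sum.inl.injEq]
    have h1 : ∀ x, be d * (q h x) a * (be d * (q h x) b) = be d * be d * ((q h x) a * (q h x) b) := by
      intro x; ring
    simp only [h1]
    rw [← mul_sum, sum_q_mul, hbe]
    split_ifs
    · field_simp
    · simp
  · simp only [Vm, of_apply, Sum.elim_inl, Sum.elim_inr, reduceCtorEq, if_false]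
    rw [← sum_mul, ← mul_sum, sum_q]; simp
  · simp only [Vm, of_apply, Sum.elim_inl, Sum.elim_inr, reduceCtorEq, if_false]
    rw [← mul_sum, ← mul_sum, sum_q]; simp
  · simp only [Vm, of_apply, Sum.elim_inr]
    rw [sum_const, card_univ, Fintype.card_fin, nsmul_eq_mul, hal]
    push_cast
    simp
    field_simp

lemma abs_Om_q (hm : 0 < m) : |Om (e0 d) (al d) (be d) (q h) (Gq d m)| = 1 := by
  have := Om_sq (e0 d) (al d) (be d) (q h) (Gq d m) (Vm_Gq h) (Gq_orth h)
  rw [Vm_orth h hm, det_one] at this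
  rw [← Real.sqrt_sq_eq_abs, this, Real.sqrt_one]

end

end Pool.Agent.Lib.MP_57d9fc_co
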