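import Mathlib
import Pool.Agent.Lib.MP_57d9fc_co.Formula
import Pool.Agent.Lib.MP_57d9fc_co.Regular

section

open Finset Polynomial

namespace Pool.Agent.Lib.MP_57d9fc_co

/-- moment curve -/
noncomputable def mom (d : ℕ) (t : ℝ) : EuclideanSpace ℝ (Fin d) := WithLp.toLp 2 fun a => t ^ ((a : ℕ) + 1)

lemma exists_poly {d : ℕ} (f : EuclideanSpace ℝ (Fin d) →ₗ[ℝ] ℝ) (c : ℝ) :
    ∃ Q : ℝ[X], Q.natDegree ≤ d ∧ ∀ x, Q.eval x = c - f (mom d x) := by
  refine ⟨C c - ∑ a : Fin d, C (f (EuclideanSpace.single a 1)) * X ^ ((a : ℕ) + 1), ?_, ?_⟩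
  · refine (natDegree_sub_le _ _).trans (max_le (by simp) ?_)
    refine natDegree_sum_le_of_forall_le _ _ fun a _ => ?_
    refine (natDegree_C_mul_X_pow_le _ _).trans ?_
    have := a.isLt
    omega
  · intro x
    simp only [eval_sub, eval_C, eval_finsetSum, eval_mul, eval_pow, eval_X]
    congr 1
    have hx : mom d x = ∑ a : Fin d, (x ^ ((a : ℕ) + 1)) • EuclideanSpace.single a (1 : ℝ) := by
      ext b
      simp [mom, Finset.sum_apply, Pi.single_apply]
    rw [hx, map_sum]
    refine sum_congr rfl fun a _ => ?_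
    rw [map_smul, smul_eq_mul, mul_comm]

lemma exists_functional {d : ℕ} (Q : ℝ[X]) (hQ : Q.natDegree ≤ d) :
    ∃ (f : EuclideanSpace ℝ (Fin d) →ₗ[ℝ] ℝ) (c : ℝ), ∀ x, Q.eval x = c - f (mom d x) := by
  refine ⟨-∑ a : Fin d, Q.coeff ((a : ℕ) + 1) • (EuclideanSpace.proj a :
    EuclideanSpace ℝ (Fin d) →L[ℝ] ℝ).toLinearMap, Q.coeff 0, fun x => ?_⟩
  rw [eval_eq_sum_range' (show Q.natDegree < d + 1 by omega), sum_range_succ']
  simp only [LinearMap.neg_apply, LinearMap.sum_apply, LinearMap.smul_apply, sub_neg_eq_add,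
    pow_zero, mul_one]
  rw [add_comm, ← Fin.sum_univ_eq_sum_range (fun i => Q.coeff (i + 1) * x ^ (i + 1))]
  congr 1

/-- the sign of the product -/
lemma sign_prod_eq {n : ℕ} {t : Fin n → ℝ} (ht : StrictMono t) (S : Finset (Fin n)) {x : Fin n}
    (hx : x ∉ S) : SignType.sign (∏ l ∈ S, (t x - t l)) =
      (-1 : SignType) ^ ((S.filter (x < ·)).card) := by
  have h1 : SignType.sign (∏ l ∈ S, (t x - t l)) = ∏ l ∈ S, SignType.sign (t x - t l) :=
    map_prod (signHom (α := ℝ)) _ _
  rw [h1, ← prod_const, prod_filter]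
  refine prod_congr rfl fun l hl => ?_
  split_ifs with h
  · exact sign_neg (sub_neg.2 (ht h))
  · have hne : l ≠ x := fun h' => hx (h' ▸ hl)
    have hlt : l < x := lt_of_le_of_ne (not_lt.1 h) hne
    exact sign_pos (sub_pos.2 (ht hlt))

lemma card_gt {n : ℕ} (x : Fin n) : (univ.filter (x < ·)).card = n - 1 - x := by
  have : univ.filter (x < ·) = Ioi x := by ext; simp
  rw [this, Fin.card_Ioi]

/-- Number of elements of `coT t` beyond `x`. -/
lemma card_coT_gt {n : ℕ} {i j k : Fin n} (hij : i < j) (hjk : j < k) :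
    ((coT (i, j, k)).filter (k < ·)).card = n - 1 - k ∧
    ((coT (i, j, k)).filter (j < ·)).card + 1 = n - 1 - j ∧
    ((coT (i, j, k)).filter (i < ·)).card + 2 = n - 1 - i := by
  have hik := hij.trans hjk
  have hk : (coT (i, j, k)).filter (k < ·) = univ.filter (k < ·) := by
    ext x
    simp only [coT, mem_filter, mem_compl, mem_insert, mem_singleton, mem_univ, true_and,
      and_iff_right_iff_imp]
    intro h
    push Not
    exact ⟨(hik.trans h).ne', (hjk.trans h).ne', h.ne'⟩
  have hj : univ.filter (j < ·) = insert k ((coT (i, j, k)).filter (j < ·)) := by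
    ext x
    simp only [coT, mem_filter, mem_compl, mem_insert, mem_singleton, mem_univ, true_and]
    constructor
    · intro h
      by_cases hx : x = k
      · exact Or.inl hx
      · right
        refine ⟨?_, h⟩
        push Not
        exact ⟨(hij.trans h).ne', h.ne', hx⟩
    · rintro (rfl | ⟨-, h⟩)
      · exact hjk
      · exact h
  have hi : univ.filter (i < ·) = insert j (insert k ((coT (i, j, k)).filter (i < ·))) := by
    ext x
    simp only [coT, mem_filter, mem_compl, mem_insert, mem_singleton, mem_univ, true_and]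
    constructor
    · intro h
      by_cases hx : x = j
      · exact Or.inl hx
      by_cases hx' : x = k
      · exact Or.inr (Or.inl hx')
      · right; right
        refine ⟨?_, h⟩
        push Not
        exact ⟨h.ne', hx, hx'⟩
    · rintro (rfl | rfl | ⟨-, h⟩)
      · exact hij
      · exact hik
      · exact h
  refine ⟨by rw [hk, card_gt], ?_, ?_⟩
  · rw [← card_gt j, hj, card_insert_of_notMem (by simp [coT])]
  · rw [← card_gt i, hi, card_insert_of_notMem, card_insert_of_notMem (by simp [coT])]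
    simp [coT, hjk.ne]

lemma pow_eq_of_parity {a b : ℕ} (h : a % 2 = b % 2) : (-1 : SignType) ^ a = (-1 : SignType) ^ b := by
  rw [← Nat.div_add_mod a 2, ← Nat.div_add_mod b 2, h, pow_add, pow_mul, pow_add, pow_mul]
  have : ((-1 : SignType)) ^ 2 = 1 := by decide
  rw [this, one_pow, one_pow]

lemma parity_of_pow_eq {a b : ℕ} (h : (-1 : SignType) ^ a = (-1 : SignType) ^ b) : a % 2 = b % 2 := by
  have h2 : ((-1 : SignType)) ^ 2 = 1 := by decide
  rw [← Nat.div_add_mod a 2, ← Nat.div_add_mod b 2, pow_add, pow_mul, pow_add, pow_mul, h2,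
    one_pow, one_pow, one_mul, one_mul] at h
  rcases Nat.mod_two_eq_zero_or_one a with ha | ha <;> rcases Nat.mod_two_eq_zero_or_one b with hb | hb <;>
    rw [ha, hb] at h ⊢ <;> exact absurd h (by decide)

/-- Gale's evenness condition. -/
theorem cyc_moment {d : ℕ} {t : Fin (d + 3) → ℝ} (ht : StrictMono t) :
    Cyc (fun i => mom d (t i)) := by
  constructor
  · rintro ⟨i, j, k⟩ hg
    have hij : i < j := hg.1
    have hjk : j < k := hg.2.1
    obtain ⟨c1, c2, c3⟩ := card_coT_gt hij hjk
    have ho1 : Odd ((j : ℕ) - (i : ℕ)) := hg.2.2.1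
    have ho2 : Odd ((k : ℕ) - (j : ℕ)) := hg.2.2.2
    have hij' : (i : ℕ) < j := hij
    have hjk' : (j : ℕ) < k := hjk
    have hkl := k.isLt
    set N := ((coT (i, j, k)).filter (k < ·)).card with hN
    set Q : ℝ[X] := C ((-1) ^ N) * ∏ l ∈ coT (i, j, k), (X - C (t l)) with hQ
    have hdeg : Q.natDegree ≤ d := by
      refine (natDegree_C_mul_le _ _).trans ?_
      rw [natDegree_prod_of_monic _ _ (fun l _ => monic_X_sub_C _)]
      simp only [natDegree_X_sub_C, sum_const, smul_eq_mul, mul_one]
      have := coT_card hg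
      omega
    obtain ⟨f, c, hfc⟩ := exists_functional Q hdeg
    have heval : ∀ x, Q.eval (t x) = (-1) ^ N * ∏ l ∈ coT (i, j, k), (t x - t l) := by
      intro x
      rw [hQ, eval_mul, eval_C, eval_prod]
      simp
    refine ⟨f, c, fun x hx => ?_, fun x hx => ?_⟩
    · have h1 := hfc (t x)
      rw [heval, prod_eq_zero (i := x) (mem_coe.1 hx) (sub_self _), mul_zero] at h1
      show f (mom d (t x)) = c
      linarith
    · have h1 := hfc (t x)
      show f (mom d (t x)) < c
      rw [heval] at h1
      have hpos : 0 < (-1 : ℝ) ^ N * ∏ l ∈ coT (i, j, k), (t x - t l) := by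
        rw [← sign_eq_one_iff, sign_mul, sign_prod_eq ht _ (by simpa using hx)]
        have hs : SignType.sign ((-1 : ℝ) ^ N) = (-1 : SignType) ^ N := by
          have := map_pow (signHom (α := ℝ)) (-1 : ℝ) N
          have h2 : (signHom (α := ℝ)) (-1 : ℝ) = (-1 : SignType) := sign_neg (by norm_num)
          rw [h2] at this
          exact this
        rw [hs, ← pow_add]
        have hx' : x = i ∨ x = j ∨ x = k := by
          have : x ∉ coT (i, j, k) := by simpa using hx
          unfold coT at this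
          rw [mem_compl, not_not] at this
          simpa using this
        have : (1 : SignType) = (-1) ^ 0 := rfl
        rw [this]
        apply pow_eq_of_parity
        obtain ⟨a, ha⟩ := ho1
        obtain ⟨b, hb⟩ := ho2
        rcases hx' with rfl | rfl | rfl
        · omega
        · omega
        · omega
      linarith
  · intro S hS hSu hcard
    obtain ⟨f, c, hf1, hf2⟩ := hS
    obtain ⟨Q, hdeg, hQ⟩ := exists_poly f c
    have hcomp : ∃ x, x ∉ S := by
      by_contra hcon
      push Not at hcon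
      exact hSu (eq_univ_iff_forall.2 hcon)
    have hne : Q ≠ 0 := by
      rintro rfl
      obtain ⟨x, hx⟩ := hcomp
      have := hf2 x (by simpa using hx)
      have h2 := hQ (t x)
      rw [eval_zero] at h2
      simp only at this
      linarith
    have hroots : (S.image t).val ≤ Q.roots := by
      rw [Multiset.le_iff_subset (S.image t).nodup]
      intro a ha
      obtain ⟨x, hx, rfl⟩ := mem_image.1 (show a ∈ S.image t from ha)
      rw [mem_roots hne, IsRoot.def, hQ]
      have := hf1 x (by simpa using hx)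
      simp only at this
      linarith
    have hcS : Multiset.card (S.image t).val = S.card := by
      rw [← Finset.card_def, card_image_of_injective _ ht.injective]
    have hle1 := Multiset.card_le_card hroots
    have hle2 := Q.card_roots'
    rw [hcS] at hle1
    have hSd : S.card = d := by omega
    have heq : (S.image t).val = Q.roots := Multiset.eq_of_le_of_card_le hroots (by omega)
    have hfac := C_leadingCoeff_mul_prod_multiset_X_sub_C (p := Q) (by omega)
    have hev : ∀ x, Q.eval (t x) = Q.leadingCoeff * ∏ l ∈ S, (t x - t l) := by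
      intro x
      conv_lhs => rw [← hfac, ← heq]
      rw [eval_mul, eval_C, eval_multiset_prod, Multiset.map_map]
      congr 1
      have : (Multiset.map (eval (t x) ∘ fun a => X - C a) (S.image t).val).prod =
        ∏ a ∈ S.image t, (t x - a) := by
        simp only [Finset.prod, Function.comp_def, eval_sub, eval_X, eval_C]
      rw [this, prod_image (fun a _ b _ hab => ht.injective hab)]
    have hsign : ∀ x, x ∉ S → SignType.sign Q.leadingCoeff * (-1 : SignType) ^ ((S.filter (x < ·)).card) = 1 := by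
      intro x hx
      rw [← sign_prod_eq ht S hx, ← sign_mul, ← hev, hQ, sign_eq_one_iff]
      have := hf2 x (by simpa using hx)
      simp only at this
      linarith
    -- the complement has three elements
    have hc3 : (Sᶜ).card = 3 := by rw [card_compl, Fintype.card_fin, hSd]; omega
    obtain ⟨i, j, k, hij, hjk, hSc⟩ : ∃ i j k : Fin (d + 3), i < j ∧ j < k ∧ Sᶜ = {i, j, k} := by
      set g := (Sᶜ).orderEmbOfFin hc3 with hg
      refine ⟨g 0, g 1, g 2, g.strictMono (by decide), g.strictMono (by decide), ?_⟩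
      have h1 : Finset.univ.image g = Sᶜ := by
        rw [← Finset.coe_inj, coe_image, coe_univ, Set.image_univ]
        exact range_orderEmbOfFin _ hc3
      rw [← h1]
      ext x
      simp only [mem_image, mem_univ, true_and, mem_insert, mem_singleton, Fin.exists_fin_succ]
      simp [eq_comm]
    have hScT : coT (i, j, k) = S := by
      unfold coT
      show ({i, j, k} : Finset _)ᶜ = S
      rw [← hSc, compl_compl]
    obtain ⟨c1, c2, c3⟩ := card_coT_gt hij hjk
    have hmem : ∀ x, x ∈ Sᶜ ↔ x = i ∨ x = j ∨ x = k := by intro x; rw [hSc]; simp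
    have hi := hsign i (mem_compl.1 ((hmem i).2 (Or.inl rfl)))
    have hj := hsign j (mem_compl.1 ((hmem j).2 (Or.inr (Or.inl rfl))))
    have hk := hsign k (mem_compl.1 ((hmem k).2 (Or.inr (Or.inr rfl))))
    have cancel : ∀ {a b : ℕ}, SignType.sign Q.leadingCoeff * (-1 : SignType) ^ a = 1 →
        SignType.sign Q.leadingCoeff * (-1 : SignType) ^ b = 1 → a % 2 = b % 2 := by
      intro a b ha hb
      apply parity_of_pow_eq
      have hlc : SignType.sign Q.leadingCoeff ≠ 0 := by
        intro h0; rw [h0, zero_mul] at ha; exact absurd ha (by decide)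
      exact mul_left_cancel₀ hlc (ha.trans hb.symm)
    rw [← hScT] at hi hj hk
    have p1 := cancel hi hj
    have p2 := cancel hj hk
    have hij' : (i : ℕ) < j := hij
    have hjk' : (j : ℕ) < k := hjk
    have hkl := k.isLt
    refine ⟨(i, j, k), ⟨hij, hjk, ?_, ?_⟩, hScT⟩
    · show Odd ((j : ℕ) - (i : ℕ))
      rw [Nat.odd_iff]; omega
    · show Odd ((k : ℕ) - (j : ℕ))
      rw [Nat.odd_iff]; omega

end Pool.Agent.Lib.MP_57d9fc_co
end

section

open Finset Matrix

namespace Pool.Agent.Lib.MP_57d9fc_co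

section
variable {d m : ℕ} (h : Fin d ≃ Fin m × Fin 2)

include h in
lemma TT_q : TT (fun x => (⟨Gq d m 0 x, Gq d m 1 x⟩ : ℂ)) = Tmax (d + 3) := by
  have hd := card_eq h
  set n := d + 3 with hn
  have hodd : Odd n := ⟨m + 1, by omega⟩
  have hn0 : 0 < n := by omega
  have hnr : ((n : ℕ) : ℝ) ≠ 0 := by exact_mod_cast hn0.ne'
  set u : ℂ := Complex.exp (((-(2 * Real.pi * ((m + 1 : ℕ) * (((n : ℝ) - 1) / 2)) / n) : ℝ) : ℂ) * Complex.I)
    with hu
  have hu1 : Complex.normSq u = 1 := by
    rw [hu, Complex.normSq_eq_norm_sq, Complex.norm_exp_ofReal_mul_I]; norm_num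
  set z : Fin n → ℂ := fun x => (⟨Gq d m 0 x, Gq d m 1 x⟩ : ℂ) with hz
  have hzx : ∀ x : Fin n, z x = ((√(2 / (n : ℝ)) : ℝ) : ℂ) * u * om n (((m + 1 : ℕ) : ℤ) * (x : ℕ)) := by
    intro x
    have e1 : u * om n (((m + 1 : ℕ) : ℤ) * (x : ℕ)) =
        Complex.exp ((((m + 1 : ℕ) * ang n x : ℝ) : ℂ) * Complex.I) := by
      rw [hu]; unfold om
      rw [← Complex.exp_add, ← add_mul, ← Complex.ofReal_add]
      congr 3
      unfold ang
      push_cast
      ring
    rw [mul_assoc, e1]
    have hcast : (2 / ((d : ℝ) + 3)) = 2 / (n : ℝ) := by rw [hn]; push_cast; ring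
    apply Complex.ext
    · rw [Complex.re_ofReal_mul, Complex.exp_ofReal_mul_I_re]
      simp only [hz, Gq, of_apply, tr_zero, hcast]
      rfl
    · rw [Complex.im_ofReal_mul, Complex.exp_ofReal_mul_I_im]
      simp only [hz, Gq, of_apply, tr_one, hcast]
      rfl
  have hft : ∀ r : ℕ, 1 ≤ r → r < n → Complex.normSq (ft z r) = if r = m + 1 then 2 * (n : ℝ) else 0 := by
    intro r h1 h2
    have e1 : ft z r = ((√(2 / (n : ℝ)) : ℝ) : ℂ) * u * ∑ x : Fin n, om n ((((m + 1 : ℕ) : ℤ) - r) * (x : ℕ)) := by
      unfold ft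
      rw [mul_sum]
      refine sum_congr rfl fun x _ => ?_
      rw [hzx, mul_assoc, ← om_add]
      congr 2
      ring
    rw [e1, Fin.sum_univ_eq_sum_range (fun x => om n ((((m + 1 : ℕ) : ℤ) - r) * (x : ℕ))),
      sum_om hn0 (by rw [abs_lt]; constructor <;> omega)]
    by_cases hr : r = m + 1
    · rw [if_pos (by rw [hr]; simp), if_pos hr, map_mul, map_mul, hu1, Complex.normSq_ofReal,
        Real.mul_self_sqrt (by positivity), Complex.normSq_natCast]
      field_simp
    · rw [if_neg (by omega), if_neg hr]; simp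
  rw [TT_eq hodd]
  rw [sum_eq_single (m + 1)]
  · rw [hft (m + 1) (by omega) (by omega), if_pos rfl, (cr_le hodd (by omega) (by omega)).2.2 (by omega)]
    unfold Tmax
    ring
  · intro r hr hne
    obtain ⟨h1, h2⟩ := mem_Ico.1 hr
    rw [hft r h1 h2, if_neg hne, mul_zero]
  · intro hcon
    exact absurd (mem_Ico.2 ⟨by omega, by omega⟩) hcon

lemma q_inj {f : EuclideanSpace ℝ (Fin d) →ₗ[ℝ] ℝ} {c : ℝ} (hf : ∀ x, f (q h x) = c) :
    f = 0 ∧ c = 0 := by
  have hsum : ∑ x, q h x = 0 := by
    ext a
    rw [WithLp.ofLp_sum, Finset.sum_apply, sum_q]; rfl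
  have hc : c = 0 := by
    have h1 : f (∑ x, q h x) = ((d : ℝ) + 3) * c := by
      rw [map_sum]; simp only [hf, sum_const, card_univ, Fintype.card_fin, nsmul_eq_mul]
      push_cast; ring
    rw [hsum, map_zero] at h1
    have : (d : ℝ) + 3 ≠ 0 := by positivity
    exact (mul_eq_zero.1 h1.symm).resolve_left this
  refine ⟨?_, hc⟩
  have hrep : ∀ v : EuclideanSpace ℝ (Fin d), f v = ∑ a, f (EuclideanSpace.single a 1) * v a := by
    intro v
    have : v = ∑ a : Fin d, v a • EuclideanSpace.single a (1 : ℝ) := by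
      ext b
      simp [Finset.sum_apply, Pi.single_apply]
    conv_lhs => rw [this, map_sum]
    refine sum_congr rfl fun a _ => ?_
    rw [map_smul, smul_eq_mul, mul_comm]
  have hcoef : ∀ b, f (EuclideanSpace.single b 1) = 0 := by
    intro b
    have hd0 : (d : ℝ) ≠ 0 := by
      have : d ≠ 0 := by have := b.isLt; omega
      exact_mod_cast this
    have h1 : ∑ x, f (q h x) * q h x b = 0 := by
      simp only [hf, hc, zero_mul, sum_const_zero]
    have h2 : ∑ x, f (q h x) * q h x b = f (EuclideanSpace.single b 1) * (((d : ℝ) + 3) / d) := by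
      simp only [hrep (q h _), sum_mul]
      rw [sum_comm]
      have : ∀ a, ∑ x, f (EuclideanSpace.single a 1) * (q h x) a * (q h x) b =
          f (EuclideanSpace.single a 1) * if a = b then ((d : ℝ) + 3) / d else 0 := by
        intro a
        rw [← sum_q_mul h a b, mul_sum]
        exact sum_congr rfl fun x _ => by ring
      simp only [this]
      simp
    rw [h2] at h1
    have hpos : ((d : ℝ) + 3) / d ≠ 0 := by
      have : (d : ℝ) + 3 ≠ 0 := by positivity
      exact div_ne_zero this hd0
    exact (mul_eq_zero.1 h1).resolve_right hpos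
  ext v
  rw [hrep v]
  simp [hcoef]

lemma interior_q : (interior (convexHull ℝ (Set.range (q h)))).Nonempty := by
  rw [interior_convexHull_nonempty_iff_affineSpan_eq_top]
  have hne : (affineSpan ℝ (Set.range (q h)) : Set (EuclideanSpace ℝ (Fin d))).Nonempty :=
    ⟨q h 0, subset_affineSpan ℝ _ ⟨0, rfl⟩⟩
  rw [← AffineSubspace.direction_eq_top_iff_of_nonempty hne]
  rw [direction_affineSpan, ← Submodule.orthogonal_eq_bot_iff, eq_bot_iff]
  intro v hv
  have h1 : ∀ x, (innerSL ℝ v).toLinearMap (q h x) = inner ℝ v (q h 0) := by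
    intro x
    have h2 : q h x - q h 0 ∈ vectorSpan ℝ (Set.range (q h)) :=
      vsub_mem_vectorSpan ℝ ⟨x, rfl⟩ ⟨0, rfl⟩
    have h3 := (Submodule.mem_orthogonal' _ _).1 hv _ h2
    rw [inner_sub_right, sub_eq_zero] at h3
    simpa using h3
  obtain ⟨h2, -⟩ := q_inj h h1
  have h3 := LinearMap.congr_fun h2 v
  simpa using h3

end

end Pool.Agent.Lib.MP_57d9fc_co
end
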