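import Mathlib
import Pool.Agent.Lib.MP_57d9fc_co.Regular2

open Finset Polynomial

namespace Pool.Agent.Lib.MP_57d9fc_co

section proj
variable {ι E E' : Type*} [AddCommGroup E] [Module ℝ E] [AddCommGroup E'] [Module ℝ E']

/-- values of affine functions on the labelled points -/
noncomputable def AA (p : ι → E) : (ℝ × (E →ₗ[ℝ] ℝ)) →ₗ[ℝ] (ι → ℝ) where
  toFun cf := fun i => cf.1 - cf.2 (p i)
  map_add' a b := by ext i; simp; ring
  map_smul' c a := by ext i; simp; ring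

lemma isFaceSet_iff (p : ι → E) (S : Set ι) : IsFaceSet p S ↔
    ∃ φ ∈ LinearMap.range (AA p), (∀ i ∈ S, φ i = 0) ∧ ∀ i ∉ S, 0 < φ i := by
  constructor
  · rintro ⟨f, c, h1, h2⟩
    refine ⟨AA p (c, f), ⟨_, rfl⟩, fun i hi => ?_, fun i hi => ?_⟩
    · show c - f (p i) = 0
      rw [h1 i hi, sub_self]
    · show 0 < c - f (p i)
      exact sub_pos.2 (h2 i hi)
  · rintro ⟨_, ⟨⟨c, f⟩, rfl⟩, h1, h2⟩
    refine ⟨f, c, fun i hi => ?_, fun i hi => ?_⟩
    · have : c - f (p i) = 0 := h1 i hi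
      linarith
    · have : 0 < c - f (p i) := h2 i hi
      linarith

/-- multiplication by a weight -/
noncomputable def WW (w : ι → ℝ) : (ι → ℝ) →ₗ[ℝ] (ι → ℝ) where
  toFun φ := fun i => w i * φ i
  map_add' a b := by ext i; simp; ring
  map_smul' c a := by ext i; simp; ring

/-- Projectively equivalent point configurations have the same face sets. -/
lemma isFaceSet_proj [Finite ι] [FiniteDimensional ℝ E] [FiniteDimensional ℝ E'] {p : ι → E} {p' : ι → E'}
    {w : ι → ℝ} (hw : ∀ i, 0 < w i) (hinj : Function.Injective (AA p))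
    (hdim : Module.finrank ℝ E' ≤ Module.finrank ℝ E)
    (hsub : ∀ (c : ℝ) (f : E →ₗ[ℝ] ℝ), ∃ (c' : ℝ) (f' : E' →ₗ[ℝ] ℝ),
      ∀ i, w i * (c - f (p i)) = c' - f' (p' i)) (S : Set ι) :
    IsFaceSet p S ↔ IsFaceSet p' S := by
  have hWinj : Function.Injective (WW w) := by
    intro φ ψ hφ
    ext i
    have : w i * φ i = w i * ψ i := congrFun hφ i
    exact mul_left_cancel₀ (hw i).ne' this
  have hle : LinearMap.range ((WW w) ∘ₗ (AA p)) ≤ LinearMap.range (AA p') := by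
    rintro _ ⟨⟨c, f⟩, rfl⟩
    obtain ⟨c', f', hcf⟩ := hsub c f
    refine ⟨(c', f'), ?_⟩
    ext i
    exact (hcf i).symm
  have heq : LinearMap.range ((WW w) ∘ₗ (AA p)) = LinearMap.range (AA p') := by
    apply Submodule.eq_of_le_of_finrank_le hle
    have h1 : Module.finrank ℝ (LinearMap.range ((WW w) ∘ₗ (AA p))) = Module.finrank ℝ (ℝ × (E →ₗ[ℝ] ℝ)) :=
      LinearMap.finrank_range_of_inj (hWinj.comp hinj)
    have h2 : Module.finrank ℝ (LinearMap.range (AA p')) ≤ Module.finrank ℝ (ℝ × (E' →ₗ[ℝ] ℝ)) :=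
      LinearMap.finrank_range_le _
    have h3 : Module.finrank ℝ (E →ₗ[ℝ] ℝ) = Module.finrank ℝ E := Subspace.dual_finrank_eq
    have h4 : Module.finrank ℝ (E' →ₗ[ℝ] ℝ) = Module.finrank ℝ E' := Subspace.dual_finrank_eq
    rw [Module.finrank_prod] at h1 h2
    omega
  rw [isFaceSet_iff, isFaceSet_iff]
  constructor
  · rintro ⟨φ, ⟨cf, rfl⟩, h1, h2⟩
    refine ⟨WW w (AA p cf), ?_, fun i hi => ?_, fun i hi => ?_⟩
    · rw [← heq]; exact ⟨cf, rfl⟩
    · show w i * (AA p cf) i = 0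
      rw [h1 i hi, mul_zero]
    · exact mul_pos (hw i) (h2 i hi)
  · rintro ⟨φ, hφ, h1, h2⟩
    rw [← heq] at hφ
    obtain ⟨cf, rfl⟩ := hφ
    refine ⟨AA p cf, ⟨cf, rfl⟩, fun i hi => ?_, fun i hi => ?_⟩
    · have : w i * (AA p cf) i = 0 := h1 i hi
      exact (mul_eq_zero.1 this).resolve_left (hw i).ne'
    · have : 0 < w i * (AA p cf) i := h2 i hi
      exact (mul_pos_iff_of_pos_left (hw i)).1 this

end proj

/-- real part of a complex polynomial on the real line -/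
lemma exists_re_poly (Z : ℂ[X]) (N : ℕ) (hZ : Z.natDegree ≤ N) : ∃ R : ℝ[X], R.natDegree ≤ N ∧
    ∀ x : ℝ, R.eval x = (Z.eval (x : ℂ)).re := by
  refine ⟨∑ j ∈ range (N + 1), C (Z.coeff j).re * X ^ j, ?_, fun x => ?_⟩
  · refine natDegree_sum_le_of_forall_le _ _ fun j hj => ?_
    refine (natDegree_C_mul_X_pow_le _ _).trans ?_
    have := mem_range.1 hj; omega
  · rw [eval_eq_sum_range' (show Z.natDegree < N + 1 by omega), Complex.re_sum, eval_finsetSum]
    refine sum_congr rfl fun j _ => ?_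
    simp only [eval_mul, eval_C, eval_pow, eval_X]
    rw [← Complex.ofReal_pow, mul_comm (Z.coeff j), Complex.re_ofReal_mul, mul_comm]

lemma exists_R {m k : ℕ} (hk : k ≤ m) (s : Fin 2) : ∃ R : ℝ[X], R.natDegree ≤ m * 2 ∧
    ∀ φ : ℝ, Real.cos φ ≠ 0 → R.eval (Real.tan φ) = (1 / Real.cos φ) ^ (m * 2) * tr k s (2 * φ) := by
  set u : ℂ := Complex.exp (((-((s : ℕ) * (Real.pi / 2)) : ℝ) : ℂ) * Complex.I) with hu
  set Z : ℂ[X] := C u * ((1 + C Complex.I * X) ^ (m + k) * (1 - C Complex.I * X) ^ (m - k)) with hZ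
  have hdeg : Z.natDegree ≤ m * 2 := by
    refine (natDegree_C_mul_le _ _).trans (natDegree_mul_le.trans ?_)
    have h1 : (1 + C Complex.I * X : ℂ[X]).natDegree ≤ 1 := by
      refine (natDegree_add_le _ _).trans (max_le (by simp) ?_)
      exact (natDegree_C_mul_le _ _).trans natDegree_X_le
    have h2 : (1 - C Complex.I * X : ℂ[X]).natDegree ≤ 1 := by
      refine (natDegree_sub_le _ _).trans (max_le (by simp) ?_)
      exact (natDegree_C_mul_le _ _).trans natDegree_X_le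
    have h3 := natDegree_pow_le_of_le (m + k) h1
    have h4 := natDegree_pow_le_of_le (m - k) h2
    omega
  obtain ⟨R, hR1, hR2⟩ := exists_re_poly Z _ hdeg
  refine ⟨R, hR1, fun φ hφ => ?_⟩
  rw [hR2]
  have hc : (Real.cos φ : ℂ) ≠ 0 := by exact_mod_cast hφ
  have e1 : (1 : ℂ) + Complex.I * (Real.tan φ : ℝ) = Complex.exp ((φ : ℂ) * Complex.I) / (Real.cos φ : ℝ) := by
    rw [Complex.exp_mul_I, ← Complex.ofReal_cos, ← Complex.ofReal_sin, Real.tan_eq_sin_div_cos,
      Complex.ofReal_div]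
    field_simp
  have e2 : (1 : ℂ) - Complex.I * (Real.tan φ : ℝ) = Complex.exp (((-φ : ℝ) : ℂ) * Complex.I) / (Real.cos φ : ℝ) := by
    rw [Complex.exp_mul_I, ← Complex.ofReal_cos, ← Complex.ofReal_sin, Real.tan_eq_sin_div_cos,
      Real.cos_neg, Real.sin_neg, Complex.ofReal_div, Complex.ofReal_neg]
    field_simp
    ring
  rw [hZ]
  simp only [eval_mul, eval_C, eval_pow, eval_add, eval_sub, eval_one, eval_X]
  rw [e1, e2, div_pow, div_pow, ← Complex.exp_nat_mul, ← Complex.exp_nat_mul, div_mul_div_comm,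
    ← Complex.exp_add, ← pow_add, ← mul_div_assoc, ← Complex.exp_add]
  have e3 : m + k + (m - k) = m * 2 := by omega
  have e4 : (((-((s : ℕ) * (Real.pi / 2)) : ℝ) : ℂ) * Complex.I) + (((m + k : ℕ) : ℂ) * ((φ : ℂ) * Complex.I) +
      ((m - k : ℕ) : ℂ) * (((-φ : ℝ) : ℂ) * Complex.I)) =
      ((k * (2 * φ) - (s : ℕ) * (Real.pi / 2) : ℝ) : ℂ) * Complex.I := by
    rw [Nat.cast_sub hk]; push_cast; ring
  rw [e3, e4]
  have e5 : ((Real.cos φ : ℝ) : ℂ) ^ (m * 2) = ((Real.cos φ ^ (m * 2) : ℝ) : ℂ) := by push_cast; ring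
  rw [e5, Complex.div_ofReal_re, Complex.exp_ofReal_mul_I_re, tr]
  rw [one_div, inv_pow, div_eq_inv_mul]

section
variable {d m : ℕ} (h : Fin d ≃ Fin m × Fin 2)

/-- parameters on the moment curve -/
noncomputable def tq (d : ℕ) (x : Fin (d + 3)) : ℝ := Real.tan (ang (d + 3) x / 2)

lemma ang_half_mem (d : ℕ) (x : Fin (d + 3)) : ang (d + 3) x / 2 ∈ Set.Ioo (-(Real.pi / 2)) (Real.pi / 2) := by
  have hx : ((x : ℕ) : ℝ) ≤ (d : ℝ) + 2 := by
    have := x.isLt
    exact_mod_cast (by omega : (x : ℕ) ≤ d + 2)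
  have hx0 : (0 : ℝ) ≤ ((x : ℕ) : ℝ) := by positivity
  have hpi := Real.pi_pos
  have hd : (0 : ℝ) < (d : ℝ) + 3 := by positivity
  unfold ang
  push_cast
  have e : 2 * Real.pi * (((x : ℕ) : ℝ) - ((d : ℝ) + 3 - 1) / 2) / ((d : ℝ) + 3) / 2 =
      Real.pi / 2 * ((2 * ((x : ℕ) : ℝ) - ((d : ℝ) + 2)) / ((d : ℝ) + 3)) := by
    field_simp; ring
  rw [e]
  have h1 : (2 * ((x : ℕ) : ℝ) - ((d : ℝ) + 2)) / ((d : ℝ) + 3) < 1 := by
    rw [div_lt_one hd]; linarith
  have h2 : -1 < (2 * ((x : ℕ) : ℝ) - ((d : ℝ) + 2)) / ((d : ℝ) + 3) := by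
    rw [lt_div_iff₀ hd]; linarith
  constructor <;> nlinarith

lemma tq_strictMono (d : ℕ) : StrictMono (tq d) := by
  intro x y hxy
  refine Real.strictMonoOn_tan (ang_half_mem d x) (ang_half_mem d y) ?_
  unfold ang
  have hxy' : ((x : ℕ) : ℝ) < (y : ℕ) := by exact_mod_cast hxy
  have hpi := Real.pi_pos
  have hd : (0 : ℝ) < ((d + 3 : ℕ) : ℝ) := by positivity
  gcongr

theorem isFaceSet_q (S : Set (Fin (d + 3))) :
    IsFaceSet (q h) S ↔ IsFaceSet (fun x => mom d (tq d x)) S := by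
  have hd := card_eq h
  have hcos : ∀ x, 0 < Real.cos (ang (d + 3) x / 2) := fun x =>
    Real.cos_pos_of_mem_Ioo (ang_half_mem d x)
  refine isFaceSet_proj (w := fun x => (1 / Real.cos (ang (d + 3) x / 2)) ^ (m * 2))
    (fun x => by have := hcos x; positivity) ?_ le_rfl ?_ S
  · intro a b hab
    obtain ⟨c, f⟩ := a
    obtain ⟨c', f'⟩ := b
    have h1 : ∀ x, (f - f') (q h x) = c - c' := by
      intro x
      have : c - f (q h x) = c' - f' (q h x) := congrFun hab x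
      rw [LinearMap.sub_apply]; linarith
    obtain ⟨h2, h3⟩ := q_inj h h1
    exact Prod.ext (sub_eq_zero.1 h3) (sub_eq_zero.1 h2)
  · intro c f
    choose R hR1 hR2 using fun (k : {k : ℕ // k ≤ m}) (s : Fin 2) => exists_R k.2 s
    set Q : ℝ[X] := C c * R ⟨0, by omega⟩ 0 - ∑ a : Fin d, C (f (EuclideanSpace.single a 1) * √(1 / (m : ℝ))) *
      R ⟨(h a).1 + 1, (h a).1.isLt⟩ (h a).2 with hQ
    have hdeg : Q.natDegree ≤ d := by
      refine (natDegree_sub_le _ _).trans (max_le ?_ ?_)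
      · refine (natDegree_C_mul_le _ _).trans ?_
        have := hR1 ⟨0, by omega⟩ 0
        omega
      · refine natDegree_sum_le_of_forall_le _ _ fun a _ => ?_
        refine (natDegree_C_mul_le _ _).trans ?_
        have := hR1 ⟨(h a).1 + 1, (h a).1.isLt⟩ (h a).2
        omega
    obtain ⟨f', c', hfc⟩ := exists_functional Q hdeg
    refine ⟨c', f', fun x => ?_⟩
    show _ = c' - f' (mom d (tq d x))
    rw [← hfc]
    have hrep : f (q h x) = ∑ a, f (EuclideanSpace.single a 1) * q h x a := by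
      have : q h x = ∑ a : Fin d, q h x a • EuclideanSpace.single a (1 : ℝ) := by
        ext b
        simp [Finset.sum_apply, Pi.single_apply]
      conv_lhs => rw [this, map_sum]
      refine sum_congr rfl fun a _ => ?_
      rw [map_smul, smul_eq_mul, mul_comm]
    rw [hQ, eval_sub, eval_mul, eval_C, eval_finsetSum, tq, hR2 _ _ _ (hcos x).ne', hrep, mul_sub]
    have e2 : 2 * (ang (d + 3) x / 2) = ang (d + 3) x := by ring
    rw [e2, tr_zero, mul_sum]
    congr 1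
    · simp; ring
    · refine sum_congr rfl fun a _ => ?_
      rw [eval_mul, eval_C, hR2 _ _ _ (hcos x).ne', e2]
      have e : q h x a = √(1 / (m : ℝ)) * tr ((h a).1 + 1) (h a).2 (ang (d + 3) x) := rfl
      rw [e]; ring

theorem cyc_q : Cyc (q h) := by
  have := cyc_moment (tq_strictMono d)
  constructor
  · intro t ht
    rw [isFaceSet_q]; exact this.1 t ht
  · intro S hS
    rw [isFaceSet_q] at hS
    exact this.2 S hS

end

end Pool.Agent.Lib.MP_57d9fc_co
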