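import Mathlib
import Pool.Agent.Lib.MP_57d9fc_co.Projective
import Pool.Agent.Lib.MP_57d9fc_co.Faces

open Finset MeasureTheory Matrix

namespace Pool.Agent.Lib.MP_57d9fc_co

/-- the maximal volume -/
noncomputable def vmax (d : ℕ) : ENNReal := ENNReal.ofReal (Tmax (d + 3) / nrm d) * volume (stdSimp d)

/-- The upper bound and the equality case. -/
theorem volume_le {d : ℕ} (hd : 0 < d) (hodd : Odd (d + 3))
    {p : Fin (d + 3) → EuclideanSpace ℝ (Fin d)} (hp : ∀ l, ‖p l‖ = 1)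
    (hint : (interior (convexHull ℝ (Set.range p))).Nonempty) (hc : Cyc p) :
    volume (convexHull ℝ (Set.range p)) ≤ vmax d ∧
    (volume (convexHull ℝ (Set.range p)) = vmax d → ∀ x y,
      (d : ℝ) / ((d : ℝ) + 3) * inner ℝ (p x) (p y) + 1 / ((d : ℝ) + 3) +
        2 / ((d + 3 : ℕ) : ℝ) * Real.cos (2 * Real.pi * (((d + 3 - 1) / 2 : ℕ) *
          (((y : ℕ) : ℝ) - ((x : ℕ) : ℝ))) / (d + 3 : ℕ)) = if x = y then 1 else 0) := by
  obtain ⟨G, hG, hG1⟩ := exists_gale (al d) (be d) p (by simp)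
  have hvol := volume_formula hd hodd hint hc hG hG1
  obtain ⟨hOm, hOmeq⟩ := Om_le_one (e0 d) p hp G hG1
  change |Om (e0 d) (al d) (be d) p G| ≤ 1 at hOm
  change |Om (e0 d) (al d) (be d) p G| = 1 → _ at hOmeq
  set z : Fin (d + 3) → ℂ := fun x => (⟨G 0 x, G 1 x⟩ : ℂ) with hz
  have hz2 : ∑ x, Complex.normSq (z x) = 2 := by
    have h0 := congrFun (congrFun hG1 0) 0
    have h1 := congrFun (congrFun hG1 1) 1
    simp only [mul_apply, transpose_apply, one_apply_eq] at h0 h1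
    simp only [hz, Complex.normSq_mk, sum_add_distrib, h0, h1]
    norm_num
  obtain ⟨hTT, hTTeq⟩ := abs_TT_le hodd (by omega) z hz2
  have hn := nrm_pos hd
  have hT := Tmax_pos (n := d + 3) (by omega)
  have hle : |Om (e0 d) (al d) (be d) p G| / nrm d * |TT z| ≤ Tmax (d + 3) / nrm d := by
    rw [div_mul_eq_mul_div]
    gcongr
    calc |Om (e0 d) (al d) (be d) p G| * |TT z| ≤ 1 * |TT z| := by gcongr
      _ ≤ Tmax (d + 3) := by rw [one_mul]; exact hTT
  refine ⟨?_, fun heq => ?_⟩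
  · rw [hvol, vmax]
    gcongr
  · rw [hvol, vmax] at heq
    have h1 := (ENNReal.mul_left_inj (volume_stdSimp_pos d).ne' (volume_stdSimp_ne_top d)).1 heq
    rw [ENNReal.ofReal_eq_ofReal_iff (by positivity) (by positivity), div_mul_eq_mul_div,
      div_left_inj' hn.ne'] at h1
    have h2 : |TT z| = Tmax (d + 3) := by
      apply le_antisymm hTT
      rw [← h1]
      calc |Om (e0 d) (al d) (be d) p G| * |TT z| ≤ 1 * |TT z| := by gcongr
        _ = |TT z| := one_mul _
    have h3 : |Om (e0 d) (al d) (be d) p G| = 1 := by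
      rw [h2] at h1
      exact (mul_eq_right₀ hT.ne').1 h1
    intro x y
    have h4 := hOmeq h3 x y
    have h5 := hTTeq h2 x y
    simp only [hz] at h5
    rw [← h4, ← h5]
    ring

theorem volume_q {d m : ℕ} (h : Fin d ≃ Fin m × Fin 2) (hm : 0 < m) :
    volume (convexHull ℝ (Set.range (q h))) = vmax d := by
  have hd := card_eq h
  rw [volume_formula (by omega) ⟨m + 1, by omega⟩ (interior_q h) (cyc_q h) (Vm_Gq h) (Gq_orth h),
    abs_Om_q h hm, TT_q h, vmax, abs_of_pos (Tmax_pos (by omega))]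
  congr 2
  ring

end Pool.Agent.Lib.MP_57d9fc_co
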