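import Mathlib
import Pool.Agent.Lib.MP_57d9fc_co.Bound

open Finset MeasureTheory Matrix

namespace Pool.Agent.Lib.MP_57d9fc_co

lemma isFaceSet_comp {ι κ E : Type*} [AddCommGroup E] [Module ℝ E] (p : ι → E) (σ : κ ≃ ι)
    (S : Set κ) : IsFaceSet (p ∘ σ) S ↔ IsFaceSet p (σ '' S) := by
  constructor
  · rintro ⟨f, c, h1, h2⟩
    refine ⟨f, c, ?_, ?_⟩
    · rintro _ ⟨j, hj, rfl⟩; exact h1 j hj
    · intro i hi
      have := h2 (σ.symm i) (fun h => hi ⟨_, h, by simp⟩)
      simpa using this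
  · rintro ⟨f, c, h1, h2⟩
    refine ⟨f, c, fun j hj => h1 _ ⟨j, hj, rfl⟩, fun j hj => h2 _ ?_⟩
    rintro ⟨k, hk, hkj⟩
    rw [σ.injective hkj] at hk
    exact hj hk

lemma isFaceSet_mom_singleton {d n : ℕ} (hd : 2 ≤ d) {t : Fin n → ℝ} (ht : Function.Injective t)
    (i : Fin n) : IsFaceSet (fun i => mom d (t i)) {i} := by
  obtain ⟨f, c, hfc⟩ := exists_functional (d := d)
    ((Polynomial.X - Polynomial.C (t i)) ^ 2) (by
      refine (Polynomial.natDegree_pow_le).trans ?_
      rw [Polynomial.natDegree_X_sub_C]; omega)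
  have hev : ∀ x, (x - t i) ^ 2 = c - f (mom d x) := by
    intro x; rw [← hfc]; simp
  refine ⟨f, c, ?_, ?_⟩
  · rintro j rfl
    have := hev (t j)
    show f (mom d (t j)) = c
    rw [sub_self] at this
    linarith
  · intro j hj
    have := hev (t j)
    show f (mom d (t j)) < c
    have hne : t j - t i ≠ 0 := fun h => hj (ht (sub_eq_zero.1 h))
    have : 0 < (t j - t i) ^ 2 := by positivity
    linarith

/-- A good labelling of the vertices. -/
theorem exists_labelling {d : ℕ} (hd : 2 ≤ d) {P V : Set (EuclideanSpace ℝ (Fin d))}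
    (hV : V.Finite) (hPV : P = convexHull ℝ V) {t : Fin (d + 3) → ℝ} (ht : Function.Injective t)
    (Φ : {F : Set (EuclideanSpace ℝ (Fin d)) // IsExposed ℝ P F} ≃o
      {F : Set (EuclideanSpace ℝ (Fin d)) //
        IsExposed ℝ (convexHull ℝ (Set.range fun i => mom d (t i))) F}) :
    ∃ p : Fin (d + 3) → EuclideanSpace ℝ (Fin d), Function.Injective p ∧
      Set.range p = P.extremePoints ℝ ∧ convexHull ℝ (Set.range p) = P ∧ Cyc p := by
  set X := P.extremePoints ℝ with hX
  have hXf : X.Finite := by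
    refine hV.subset ?_
    rw [hX, hPV]; exact extremePoints_convexHull_subset
  have hcomp : IsCompact P := by rw [hPV]; exact hV.isCompact_convexHull ℝ
  have hconv : Convex ℝ P := by rw [hPV]; exact convex_convexHull ℝ V
  have hPX : convexHull ℝ X = P := by
    have h1 := closure_convexHull_extremePoints hcomp hconv
    rwa [(hXf.isCompact_convexHull ℝ).isClosed.closure_eq] at h1
  have : Fintype X := hXf.fintype
  set p₀ : X → EuclideanSpace ℝ (Fin d) := Subtype.val with hp₀
  have hr₀ : Set.range p₀ = X := Subtype.range_val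
  have hP₀ : convexHull ℝ (Set.range p₀) = P := by rw [hr₀, hPX]
  have hsing : ∀ i : X, IsFaceSet p₀ {i} := by
    intro i
    apply isFaceSet_singleton
    have h1 := (hconv.mem_extremePoints_iff_mem_sdiff_convexHull_sdiff).1 i.2
    intro h2
    apply h1.2
    refine convexHull_mono ?_ h2
    rintro _ ⟨j, hj, rfl⟩
    refine ⟨?_, fun h => hj (Subtype.ext h)⟩
    exact j.2.1
  have Ψ : {S : Set X // IsFaceSet p₀ S} ≃o {S : Set (Fin (d + 3)) // IsFaceSet (fun i => mom d (t i)) S} := by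
    have e1 := faceIso p₀
    rw [hP₀] at e1
    exact (e1.symm.trans Φ).trans (faceIso fun i => mom d (t i))
  obtain ⟨π, hπ⟩ := exists_relabel hsing (isFaceSet_mom_singleton hd ht) Ψ
  set τ := Tuple.sort t with hτ
  have hmono : StrictMono (t ∘ τ) :=
    (Tuple.monotone_sort t).strictMono_of_injective (ht.comp τ.injective)
  set σ : Fin (d + 3) ≃ X := τ.trans π.symm with hσ
  have hr : Set.range (p₀ ∘ σ) = X := by
    rw [Set.range_comp, σ.range_eq_univ, Set.image_univ, hr₀]
  have hface : ∀ S, IsFaceSet (p₀ ∘ σ) S ↔ IsFaceSet (fun i => mom d ((t ∘ τ) i)) S := by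
    intro S
    rw [isFaceSet_comp, hπ]
    have h1 : (fun i => mom d ((t ∘ τ) i)) = (fun i => mom d (t i)) ∘ τ := rfl
    rw [h1, isFaceSet_comp]
    have h2 : π '' (σ '' S) = τ '' S := by
      rw [← Set.image_comp]
      congr 1
      ext i
      simp [hσ]
    rw [h2]
  refine ⟨p₀ ∘ σ, Subtype.val_injective.comp σ.injective, hr, by rw [hr, hPX], ?_⟩
  have hcyc := cyc_moment hmono
  constructor
  · intro s hs; rw [hface]; exact hcyc.1 s hs
  · intro S hS; rw [hface] at hS; exact hcyc.2 S hS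

/-- The face lattice of the regular polytope. -/
theorem faceLattice_q {d m : ℕ} (h : Fin d ≃ Fin m × Fin 2) :
    Nonempty ({F : Set (EuclideanSpace ℝ (Fin d)) // IsExposed ℝ (convexHull ℝ (Set.range (q h))) F} ≃o
      {F : Set (EuclideanSpace ℝ (Fin d)) //
        IsExposed ℝ (convexHull ℝ (Set.range fun i => mom d (tq d i))) F}) := by
  have e : {S : Set (Fin (d + 3)) // IsFaceSet (q h) S} ≃o
      {S : Set (Fin (d + 3)) // IsFaceSet (fun x => mom d (tq d x)) S} :=
    { toFun := fun S => ⟨S.1, (isFaceSet_q h S.1).1 S.2⟩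
      invFun := fun S => ⟨S.1, (isFaceSet_q h S.1).2 S.2⟩
      left_inv := fun S => rfl
      right_inv := fun S => rfl
      map_rel_iff' := Iff.rfl }
  exact ⟨((faceIso (q h)).trans e).trans (faceIso fun i => mom d (tq d i)).symm⟩

/-- Congruence from equal Gram matrices. -/
theorem exists_isometry {d : ℕ} {ι : Type*} [Fintype ι] {p p' : ι → EuclideanSpace ℝ (Fin d)}
    (hspan : Submodule.span ℝ (Set.range p) = ⊤)
    (hG : ∀ x y, inner ℝ (p x) (p y) = inner ℝ (p' x) (p' y)) :
    ∃ U : EuclideanSpace ℝ (Fin d) ≃ₗᵢ[ℝ] EuclideanSpace ℝ (Fin d), ∀ x, U (p x) = p' x := by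
  classical
  set L : (ι → ℝ) →ₗ[ℝ] EuclideanSpace ℝ (Fin d) := Fintype.linearCombination ℝ p with hL
  set L' : (ι → ℝ) →ₗ[ℝ] EuclideanSpace ℝ (Fin d) := Fintype.linearCombination ℝ p' with hL'
  have hLx : ∀ c, L c = ∑ x, c x • p x := fun c => Fintype.linearCombination_apply ℝ p c
  have hLx' : ∀ c, L' c = ∑ x, c x • p' x := fun c => Fintype.linearCombination_apply ℝ p' c
  have hnorm : ∀ c, ‖L' c‖ = ‖L c‖ := by
    intro c
    have h1 : ‖L' c‖ ^ 2 = ‖L c‖ ^ 2 := by
      rw [← real_inner_self_eq_norm_sq, ← real_inner_self_eq_norm_sq, hLx, hLx']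
      simp only [sum_inner, inner_sum, inner_smul_left, inner_smul_right, hG]
    exact (sq_eq_sq₀ (norm_nonneg _) (norm_nonneg _)).1 h1
  have hsurj : LinearMap.range L = ⊤ := by
    rw [hL, Fintype.range_linearCombination, hspan]
  obtain ⟨R, hR⟩ := LinearMap.exists_rightInverse_of_surjective L hsurj
  have hRv : ∀ v, L (R v) = v := fun v => LinearMap.congr_fun hR v
  set U₀ : EuclideanSpace ℝ (Fin d) →ₗᵢ[ℝ] EuclideanSpace ℝ (Fin d) :=
    ⟨L' ∘ₗ R, fun v => by rw [LinearMap.comp_apply, hnorm, hRv]⟩ with hU₀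
  have hU : ∀ x, U₀ (p x) = p' x := by
    intro x
    have h1 : L (Pi.single x 1) = p x := by
      rw [hL, Fintype.linearCombination_apply_single, one_smul]
    have h2 : L' (Pi.single x 1) = p' x := by
      rw [hL', Fintype.linearCombination_apply_single, one_smul]
    have h3 : ‖L' (R (p x) - Pi.single x 1)‖ = 0 := by
      rw [hnorm, map_sub, hRv, h1, sub_self, norm_zero]
    rw [map_sub, norm_eq_zero, sub_eq_zero, h2] at h3
    exact h3
  refine ⟨U₀.toLinearIsometryEquiv rfl, fun x => ?_⟩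
  exact hU x

end Pool.Agent.Lib.MP_57d9fc_co
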